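import Pool.Agent.Work.MP_f82ddf_cl.Basic

/-!
# Entire curves of algebraic dimension one: statements of the blocks

Conventions: `M` is a field over `ℂ`; `Px x = ℂ[x]`, `Fx x = ℂ(x)` (subring and subfield of `M`);
`IntC x` = elements of `M` integral over `ℂ[x]`; `FF x`: `x` is transcendental over `ℂ` and `M` is
finite over `ℂ(x)`; `dg x = [M : ℂ(x)]`; `tr x` = trace of `M` over `ℂ(x)`, with values in `M`.
Note that `Fx x⁻¹ = Fx x`.  `Algebra.adjoin_singleton_eq_range_aeval`: the elements of `Px x` are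
the `aeval x P`, `P : ℂ[X]`.  For transcendental `x` the ring `Px x` is isomorphic to `ℂ[X]`, a
principal ideal domain with fraction field `Fx x` (Mathlib has a scoped instance
`IsFractionRing (Algebra.adjoin F S) (IntermediateField.adjoin F S)` in
`Mathlib/FieldTheory/IntermediateField/Adjoin/Algebra.lean`, namespace
`IntermediateField.algebraAdjoinAdjoin`).
-/

open Polynomial Topology Filter Metric Set
open Pool.Agent.Work.MP_f82ddf_nt Pool.Agent.Work.MP_f82ddf_nt.DQ
open scoped Differential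

namespace Pool.MCL

/-! ## Part A: function fields of one variable -/

/-- FREE (about 70 lines).  `IntC x` is a free `ℂ[x]`-module of rank `dg x`.

Proof.  `A = Px x` is a principal ideal domain (isomorphic to `ℂ[X]` as `x` is transcendental)
with fraction field `Fx x`, `M / Fx x` is finite, and separable as the characteristic is `0`.
Mathlib: `IsIntegralClosure.module_free`, `IsIntegralClosure.rank` (or
`IsIntegralClosure.isNoetherian` and torsion freeness); take `Module.finBasisOfFinrankEq` or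
`Module.Free.chooseBasis` and reindex by `Fin (dg x)`.  The coefficients are in `Px x`, that is of
the form `aeval x (c i)`; independence over `ℂ[x]` gives `aeval x (c i) = 0`, so `c i = 0`. -/
def stmt_FREE : Prop := ∀ (M : Type) [Field M] [Algebra ℂ M] (x : M), FF x →
  ∃ w : Fin (dg x) → M, Bas x (dg x) w

/-- CON1 (about 150 lines).  First properties of `L x m`.

Proof.  `x ≠ 0`.
(key) For every transcendental `x` and `y ∈ IntC x` there is `m` with `y * x⁻¹ ^ m ∈ IntC x⁻¹`, and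
then also for all larger `m`.  Proof: `y ^ k + ∑_{i<k} a_i(x) y ^ i = 0` with `a_i : ℂ[X]` (a monic
polynomial over `Px x`).  Let `m` be `≥ 1` and `≥` all degrees of the `a_i`.  Multiply by
`x ^ (-m k)`: with `u = y x ^ (-m)` we get `u ^ k + ∑ a_i(x) x ^ (-m (k - i)) u ^ i = 0`, and
`a_i(x) x ^ (-m (k-i))` is a polynomial in `x⁻¹` because `deg a_i ≤ m ≤ m (k - i)`.  (A clean way:
`a(x) x ^ (-e)` with `natDegree a ≤ e` is `∑_j a_j (x⁻¹) ^ (e - j)`, see `Polynomial.reflect`,
`Polynomial.eval₂_reverse_mul_pow`, or just a finite sum.)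
(1) is the key.  (2) is the key for `x⁻¹` in place of `x` (`(x⁻¹)⁻¹ = x`).
(3) `aeval x c ∈ Px x ⊆ IntC x` and `aeval x c * x⁻¹ ^ m ∈ Px x⁻¹ ⊆ IntC x⁻¹`.
(4) multiply by `x⁻¹ ^ (m' - m) ∈ Px x⁻¹`.  (5), (6), (7): `IntC` is a subalgebra. -/
def stmt_CON1 : Prop := ∀ (M : Type) [Field M] [Algebra ℂ M] (x : M), Transcendental ℂ x →
  (∀ y ∈ IntC x, ∃ m, y ∈ L x m) ∧
  (∀ y ∈ IntC x⁻¹, ∃ j : ℕ, x ^ j * y ∈ IntC x) ∧
  (∀ (c : ℂ[X]) (m : ℕ), c.natDegree ≤ m → aeval x c ∈ L x m) ∧
  (∀ (m m' : ℕ) (y : M), m ≤ m' → y ∈ L x m → y ∈ L x m') ∧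
  (∀ (m : ℕ) (y z : M), y ∈ L x m → z ∈ L x m → y + z ∈ L x m) ∧
  (∀ (m m' : ℕ) (y z : M), y ∈ L x m → z ∈ L x m' → y * z ∈ L x (m + m')) ∧
  (∀ (m : ℕ) (a : ℂ) (y : M), y ∈ L x m → a • y ∈ L x m)

/-- CON2 (about 150 lines).  Constants, and passage from `x` to `x⁻¹`.

Proof.  (1) `x⁻¹` is transcendental, `Fx x⁻¹ = Fx x` as intermediate fields; transport the
finiteness along this equality (`rw`).
(4) `aeval x P * x⁻¹ ^ m = aeval x⁻¹ Q`; multiply by `x ^ (m + deg Q)`: `x ^ (deg Q) P(x)` is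
`x ^ m` times the polynomial `x ^ (deg Q) Q(1/x)` of degree `≤ deg Q`; as `x` is transcendental,
`deg Q + deg P ≤ m + deg Q` if `P ≠ 0`.
(2) `y` is algebraic over `Fx x`.  `Px x` is integrally closed with fraction field `Fx x`, so the
coefficients of the minimal polynomial of `y` over `Fx x` lie in `Px x`
(`minpoly.isIntegrallyClosed_eq_field_fractions'` or similar); in the same way they lie in
`Px x⁻¹` (same field `Fx x⁻¹ = Fx x`).  An element of `Px x ∩ Px x⁻¹` is a constant (by (4) with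
`m = 0`).  So `y` is integral over `ℂ`, which is algebraically closed: `y` is a constant
(`IsAlgClosed.algebraMap_surjective_of_isIntegral` for the domain `ℂ[y]`, or: the minimal
polynomial of `y` over `ℂ` is linear).
(3) `y = (y x) x⁻¹ ∈ IntC x⁻¹`, so `y = c` is a constant by (2).  If `c ≠ 0` then
`x = c⁻¹ (y x) ∈ IntC x⁻¹`, and `x ∈ IntC x`, so `x` is a constant by (2): contradiction.
(5) If `y ∉ ℂ` then `y` is transcendental over `ℂ` (`ℂ` is algebraically closed) and `M` is finite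
over `ℂ(y)`: `x` is algebraic over `ℂ(y)` (exchange, as `y` is algebraic over `ℂ(x)`; for instance
take `P ∈ ℂ[X, Y]` nonzero with `P(x, y) = 0`), so `ℂ(x, y)` is finite over `ℂ(y)`, and `M` is
finite over `ℂ(x)`, a fortiori over `ℂ(x, y)` (tower; or: `M` is finitely generated and algebraic
over `ℂ(y)`). -/
def stmt_CON2 : Prop := ∀ (M : Type) [Field M] [Algebra ℂ M] (x : M), FF x →
  FF x⁻¹ ∧
  (∀ y, y ∈ IntC x → y ∈ IntC x⁻¹ → ∃ c : ℂ, y = algebraMap ℂ M c) ∧
  (∀ y, y ∈ IntC x → y * x ∈ IntC x⁻¹ → y = 0) ∧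
  (∀ (P : ℂ[X]) (m : ℕ), aeval x P * x⁻¹ ^ m ∈ Px x⁻¹ → P.natDegree ≤ m) ∧
  (∀ y : M, (∀ c : ℂ, y ≠ algebraMap ℂ M c) → FF y)

/-- RED (about 200 lines; uses FREE CON1 CON2).  Existence of a reduced basis (Dedekind, Weber).

Proof.  Put `n = dg x`.  Among all pairs `(w, d)` with `Bas x n w` and `w i ∈ L x (d i)` for all
`i` (they exist by FREE and CON1 (1)) take one with `∑ d i` minimal.  Suppose that it is not
reduced: there are `c` and `m` with `y = ∑ c_i(x) w_i ∈ L x m` and some `i` with `c_i ≠ 0`,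
`natDegree c_i + d_i > m`.  Let `m' > m` be the maximum of the `natDegree c_i + d_i`, `c_i ≠ 0`,
and `I` the set of `i` with `c_i ≠ 0`, `natDegree c_i + d_i = m'`.  Let `i₀ ∈ I` with `d_{i₀} = e`
maximal, `γ_i` the leading coefficient of `c_i` and
`w' = ∑_{i ∈ I} γ_i x ^ (e - d_i) w_i`.
Then `x ^ (m' - e) w' = ∑_{i ∈ I} γ_i x ^ (natDegree c_i) w_i = y - ∑_i r_i(x) w_i` where
`r_i = c_i` for `i ∉ I` and `r_i = eraseLead c_i` for `i ∈ I`; each `r_i(x) w_i` lies in
`L x (m' - 1)` (zero, or degree at most `m' - 1`), and `y ∈ L x m ⊆ L x (m' - 1)`.  So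
`x ^ (m' - e) w' ∈ L x (m' - 1)`, which gives `w' x ^ (1 - e) ∈ IntC x⁻¹` (`1 - e ∈ ℤ`;
`(m' - e) - (m' - 1) = 1 - e`), and `w' ∈ IntC x`.
If `e = 0` then `w' x ∈ IntC x⁻¹`, so `w' = 0` by CON2 (3), against the independence of the `w_i`
(`γ_{i₀} ≠ 0`).  If `e ≥ 1` then `w' ∈ L x (e - 1)`; replace `w_{i₀}` by `w'`: this is again a
basis (the coefficient of `w_{i₀}` in `w'` is the constant `γ_{i₀} ≠ 0`, so `w_{i₀}` is a
combination of `w'` and the others with coefficients in `ℂ[x]`, and independence is clear), with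
`∑ d` smaller by one: contradiction. -/
def stmt_RED : Prop := ∀ (M : Type) [Field M] [Algebra ℂ M] (x : M), FF x →
  ∃ (w : Fin (dg x) → M) (d : Fin (dg x) → ℕ), RBas x (dg x) w d

/-- TRI (about 150 lines).  Properties of the trace.

Proof.  (1) `Fx x⁻¹ = Fx x`; prove for intermediate fields `E = E'` that the traces agree (as
elements of `M`) by `subst`.
(2), (3), (4): `Algebra.trace (Fx x) M` is `Fx x`-linear, `aeval x P` and `x ^ j` are in `Fx x`.
(5) The trace of an element integral over `Px x` is integral over `Px x`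
(`Algebra.isIntegral_trace`) and lies in `Fx x`, and `Px x` is integrally closed.
(6) `M / Fx x` is separable, so the trace form is nondegenerate (`traceForm_nondegenerate`); a
basis `w` of `IntC x` over `ℂ[x]` of length `dg x` is a basis of `M` over `Fx x` (it is
independent: clear denominators); take the dual basis (`LinearMap.BilinForm.dualBasis` or
`Module.Basis.traceDual`).  The dual basis is independent over `Fx x`. -/
def stmt_TRI : Prop := ∀ (M : Type) [Field M] [Algebra ℂ M] (x : M), FF x →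
  (∀ y, tr x⁻¹ y = tr x y) ∧
  (∀ y z, tr x (y + z) = tr x y + tr x z) ∧
  (∀ (P : ℂ[X]) (y : M), tr x (aeval x P * y) = aeval x P * tr x y) ∧
  (∀ (j : ℤ) (y : M), tr x (x ^ j * y) = x ^ j * tr x y) ∧
  (∀ r ∈ IntC x, tr x r ∈ Px x) ∧
  (∀ w : Fin (dg x) → M, Bas x (dg x) w → ∃ w' : Fin (dg x) → M,
    (∀ i j, tr x (w i * w' j) = if i = j then 1 else 0) ∧
    ∀ c : Fin (dg x) → ℂ[X], ∑ i, aeval x (c i) * w' i = 0 → ∀ i, c i = 0)

/-- OMG (about 130 lines; uses TRI CON1).  Two independent regular differentials.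

Proof.  Let `w'` be the dual basis (TRI (6)).  Claim: if `k + 2 ≤ d i` then
`b = x ^ k * w' i ∈ Om x`.  (a) `b ∈ Dual x`: for `r = ∑ c_j(x) w_j ∈ IntC x`,
`tr x (b r) = x ^ k * ∑_j c_j(x) tr x (w_j w'_i) = x ^ k c_i(x) ∈ Px x`.
(b) `x ^ 2 b ∈ Dual x⁻¹`: let `r ∈ IntC x⁻¹`.  By CON1 (2) there is `j` with `x ^ j r ∈ IntC x`;
then `x ^ j r ∈ L x j` because `x ^ j r x⁻¹ ^ j = r`.  Write `x ^ j r = ∑ c_l(x) w_l`; by
reducedness `natDegree c_i + d_i ≤ j` if `c_i ≠ 0`.  Then
`tr x⁻¹ (x ^ 2 b r) = tr x (x ^ (k + 2 - j) w'_i (x ^ j r)) = x ^ (k + 2 - j) c_i(x)`, and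
`natDegree c_i ≤ j - d_i ≤ j - k - 2`, so this is a polynomial in `x⁻¹`.
If `3 ≤ d i` take `b₁ = w' i`, `b₂ = x * w' i`; if `i ≠ j`, `2 ≤ d i`, `2 ≤ d j` take
`b₁ = w' i`, `b₂ = w' j`.  They are independent over `ℂ` by TRI (6). -/
def stmt_OMG : Prop := ∀ (M : Type) [Field M] [Algebra ℂ M] (x : M), FF x →
  ∀ (w : Fin (dg x) → M) (d : Fin (dg x) → ℕ), RBas x (dg x) w d → Big d →
    ∃ b₁ ∈ Om x, ∃ b₂ ∈ Om x, Indep b₁ b₂

/-- ZER (about 80 lines; uses CON1 CON2).  In a reduced basis exactly one element has degree `0`,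
it is a constant, and the other elements are not in `ℂ(x)`.

Proof.  `1 ∈ L x 0` and `1 = ∑ c_i(x) w_i` with some `c_i ≠ 0`; by reducedness
`natDegree c_i + d_i ≤ 0`, so `d i₀ = 0` for some `i₀`.  `w_{i₀} ∈ L x 0` is a constant by CON2
(2), not zero by independence.  Let `i ≠ i₀` with `w_i ∈ ℂ(x)`: as `w_i` is integral over `ℂ[x]`
(integrally closed) `w_i = P(x)`, a multiple of `w_{i₀}`: against independence.  In particular
`d_i ≥ 1` for `i ≠ i₀` (otherwise `w_i` would be a constant). -/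
def stmt_ZER : Prop := ∀ (M : Type) [Field M] [Algebra ℂ M] (x : M), FF x →
  ∀ (w : Fin (dg x) → M) (d : Fin (dg x) → ℕ), RBas x (dg x) w d →
    ∃ i₀, d i₀ = 0 ∧ (∃ c : ℂ, c ≠ 0 ∧ w i₀ = algebraMap ℂ M c) ∧
      ∀ i, i ≠ i₀ → 1 ≤ d i ∧ w i ∉ Fx x

/-- PEN (about 150 lines; uses CON1 CON2).  An element of `L x 1` outside of `ℂ(x)` gives a
function of smaller degree (trick of helper64).

Proof.  Let `G = Y ^ f + a_1(x) Y ^ (f-1) + ... + a_f(x)` be the minimal polynomial of `y` over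
`Fx x`.  Its coefficients are in `Px x` (`y ∈ IntC x`, `Px x` integrally closed), `a_i = A_i(x)`
with `A_i : ℂ[X]`, and `f ≥ 2` as `y ∉ Fx x`.  The element `y x⁻¹` is integral over `Px x⁻¹`; its
minimal polynomial over `Fx x⁻¹ = Fx x` is `Y ^ f + a_1 x⁻¹ Y ^ (f-1) + ... + a_f x⁻¹ ^ f`, so
`A_i(x) x⁻¹ ^ i ∈ Px x⁻¹` and `natDegree A_i ≤ i` by CON2 (4).  Let `y0` be a root of the
polynomial `Y ^ f + A_1(0) Y ^ (f-1) + ... + A_f(0)` over `ℂ`.  Put
`t = (y - y0) / x`.  Then `t ∉ ℂ` (otherwise `y = y0 + t x ∈ Fx x`), so `FF t` by CON2 (5).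
The polynomial `G(S, y0 + T S) = (y0 + T S) ^ f + ∑ A_i(S) (y0 + T S) ^ (f - i)` in `ℂ[T][S]` has
degree `≤ f` in `S`, its value at `S = 0` is `0`, and it is not `0`: as a polynomial in `T` its
coefficient of `T ^ f` is `S ^ f`.  So it is `S * H(S)` with
`H ∈ ℂ[T][S]`, `H ≠ 0`, of degree `≤ f - 1` in `S`, and `H(x; t) = 0` as `x ≠ 0`.  Since `t` is
transcendental over `ℂ`, `H(S; t) ∈ Fx t [S]` is not `0`.  So `x` is algebraic of degree
`≤ f - 1` over `Fx t`.  With `E = ℂ(x, y) = ℂ(x, t)`: `[E : Fx t] ≤ f - 1`, `[E : Fx x] = f`, so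
`dg t = [M : E] [E : Fx t] < [M : E] [E : Fx x] = dg x`. -/
def stmt_PEN : Prop := ∀ (M : Type) [Field M] [Algebra ℂ M] (x : M), FF x →
  ∀ y ∈ L x 1, y ∉ Fx x → ∃ t : M, FF t ∧ dg t < dg x

/-- DG1 (about 50 lines).  Degree one.

Proof.  `Fx t = ⊤` (`finrank = 1`).  Take `s = t ^ 2`, `w = t ^ 3`, so `w ^ 2 = s ^ 3`, and
`t = w / s` lies in `adjoin {s, w}`. -/
def stmt_DG1 : Prop := ∀ (M : Type) [Field M] [Algebra ℂ M] (t : M), FF t → dg t = 1 → Cub M

/-- QUA (about 130 lines; uses CON1 CON2 ZER).  Degree two.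

Proof.  Let `i₀` be as in ZER and `i₁` the other index (`Fin (dg t)` has two elements).  As `Big d`
is false, `e := d i₁ ≤ 2`.  Let `Z = w i₁`, `w i₀ = c ≠ 0`.  `Z ∈ L t e`, so `Z ^ 2 ∈ L t (2 e)`;
write `Z ^ 2 = c_0(t) w_{i₀} + c_1(t) Z`.  By reducedness `natDegree c_0 ≤ 2 e ≤ 4` and
`natDegree c_1 + e ≤ 2 e`, so `natDegree c_1 ≤ e ≤ 2` (trivial if they are `0`).  Put
`Y = Z - c_1(t) / 2`, `Q = c_1 ^ 2 / 4 + c c_0`: `Y ^ 2 = Q(t)`, `natDegree Q ≤ 4`.  `Y ∉ Fx t` by
ZER, and `adjoin ℂ {t, Y} = ⊤` since it contains `Fx t` strictly and `[M : Fx t] = 2`. -/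
def stmt_QUA : Prop := ∀ (M : Type) [Field M] [Algebra ℂ M] (t : M), FF t → dg t = 2 →
  ∀ (w : Fin (dg t) → M) (d : Fin (dg t) → ℕ), RBas t (dg t) w d → ¬ Big d →
    ∃ (Y : M) (Q : ℂ[X]), Q.natDegree ≤ 4 ∧ Y ^ 2 = aeval t Q ∧ Y ∉ Fx t ∧
      IntermediateField.adjoin ℂ {t, Y} = ⊤

/-- WEI (about 170 lines).  From a quartic to a cubic in normal form.

Proof.  Strong induction on `natDegree Q`.  If `Q = (X - C α) ^ 2 * Q₁` then `t ≠ α`, and
`Y₁ = Y / (t - α)` satisfies `Y₁ ^ 2 = Q₁(t)`, `Y₁ ∉ Fx t`, `adjoin {t, Y₁} = ⊤`: induction.  So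
let `Q` have no double root.  `Q` is not constant: otherwise `Y` would be a root of `Y ^ 2 = const`,
hence in `ℂ ⊆ Fx t` (in particular `Q ≠ 0`).  Let `α` be a root, `Q = (X - C α) * Q₁`,
`Q₁(α) ≠ 0`, `natDegree Q₁ ≤ 3`.  Write `Q₁(α + Z) = q₀ + q₁ Z + q₂ Z ^ 2 + q₃ Z ^ 3`,
`q₀ = Q₁(α) ≠ 0`.  With `s₀ = 1 / (t - α)`, `W₀ = Y s₀ ^ 2`:
`W₀ ^ 2 = (t - α) Q₁(t) s₀ ^ 4 = s₀ ^ 3 (q₀ + q₁ / s₀ + q₂ / s₀ ^ 2 + q₃ / s₀ ^ 3)
= q₀ s₀ ^ 3 + q₁ s₀ ^ 2 + q₂ s₀ + q₃`.  With `s₁ = q₀ s₀`, `w = q₀ W₀`: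
`w ^ 2 = s₁ ^ 3 + q₁ s₁ ^ 2 + q₀ q₂ s₁ + q₀ ^ 2 q₃`.  With `s = s₁ + q₁ / 3` this is
`w ^ 2 = s ^ 3 + a s + b` for suitable constants.  `s` is transcendental (`t` is a rational
function of `s`), and `t, Y ∈ adjoin {s, w}`. -/
def stmt_WEI : Prop := ∀ (M : Type) [Field M] [Algebra ℂ M] (t Y : M) (Q : ℂ[X]),
  Transcendental ℂ t → Q.natDegree ≤ 4 → Y ^ 2 = aeval t Q → Y ∉ Fx t →
    IntermediateField.adjoin ℂ {t, Y} = ⊤ → Cub M

/-- ALG (about 70 lines; uses RED OMG ZER PEN DG1 QUA WEI).  The alternative.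

Proof.  Take `x` with `FF x` and `dg x` minimal; `dg x ≥ 1`.  `dg x = 1`: DG1.  Otherwise take a
reduced basis (RED).  If `Big d` then OMG.  Let `¬ Big d`.  `dg x = 2`: QUA and WEI.  `dg x ≥ 3`:
let `i₀` be as in ZER; there are two different indices `i, j ≠ i₀`; as `¬ Big d` one of them, say
`i`, has `d i ≤ 1`, so `w i ∈ L x 1`, `w i ∉ Fx x`, and PEN gives `t` with `FF t`,
`dg t < dg x`: contradiction. -/
def stmt_ALG : Prop := ∀ (M : Type) [Field M] [Algebra ℂ M], (∃ x : M, FF x) →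
  (∃ x : M, FF x ∧ ∃ b₁ ∈ Om x, ∃ b₂ ∈ Om x, Indep b₁ b₂) ∨ Cub M

/-! ## Part B: the codifferent is tame -/

/-- RHO (about 120 lines; uses FREE TRI).  Reduction of `IntC x` modulo `x - c`, as matrices.

Proof.  Let `w` be a basis (FREE).  For `r ∈ IntC x` there is a unique matrix `(c_{ij})` over `ℂ[X]`
with `r w_j = ∑_i c_{ij}(x) w_i`; `r ↦ (c_{ij})` is a ring homomorphism (it is
`Algebra.leftMulMatrix` for the basis), put `ρ r = (c_{ij}(c))`.  Trace: the `w_i` are a basis of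
`M` over `Fx x`, so `tr x r = ∑ c_{ii}(x)`.  If `ρ r = 0` then all `c_{ij}` are divisible by
`X - C c`, so `r w_j ∈ (x - c) IntC x` for all `j`; write `1 = ∑ e_j(x) w_j`: then
`r ∈ (x - c) IntC x`. -/
def stmt_RHO : Prop := ∀ (M : Type) [Field M] [Algebra ℂ M] (x : M), FF x → ∀ c : ℂ,
  ∃ ρ : IntC x →ₐ[ℂ] Matrix (Fin (dg x)) (Fin (dg x)) ℂ,
    (∀ r : IntC x, ρ r = 0 → ∃ r' : IntC x, (r : M) = (x - algebraMap ℂ M c) * r') ∧
    (∀ r : IntC x, ∃ P : ℂ[X], tr x r = aeval x P ∧ (ρ r).trace = P.eval c)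

/-- NIL (about 60 lines).  A complex matrix all of whose powers have trace zero is nilpotent.

Proof.  In the finite dimensional commutative algebra `ℂ[Y]` the chain of the ideals `(Y ^ k)` is
stationary: `Y ^ N = Y ^ (2 N) Z` with `N ≥ 1`, `Z` a polynomial in `Y`.  `E = Y ^ N Z` is idempotent
(`E ^ 2 = Y ^ (2N) Z Z = Y ^ N Z`), a linear combination of powers `Y ^ k`, `k ≥ 1`, so `trace E = 0`.
The trace of an idempotent is its rank (`LinearMap.IsProj.trace` or
`LinearMap.IsIdempotentElem`...), so `E = 0` and `Y ^ N = Y ^ N E = 0`.  (Alternatively with the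
eigenvalues: if `μ ≠ 0` is an eigenvalue take a polynomial `q` with `q(0) = 0`, ....) -/
def stmt_NIL : Prop := ∀ (n : ℕ) (Y : Matrix (Fin n) (Fin n) ℂ),
  (∀ k, 1 ≤ k → (Y ^ k).trace = 0) → IsNilpotent Y

/-- DVR (about 80 lines).  The local rings of `IntC x` are valuation rings.

Proof.  `IntC x` is the integral closure of the principal ideal domain `Px x` in the finite
separable extension `M` of `Fx x`: it is a Dedekind domain with fraction field `M`
(`integralClosure.isDedekindDomain`, `integralClosure.isFractionRing_of_finite_extension`).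
Its localisation at the nonzero prime `𝔓` is a discrete valuation ring with fraction field `M`,
so `y` or `y⁻¹` lies in it; in the first case `y` is in its maximal ideal (first alternative) or a
unit (second alternative: then also `y⁻¹` is in it).  `y⁻¹ = z / u` with `z ∈ IntC x`,
`u ∈ IntC x ∖ 𝔓` is the second alternative (`z y = u`), `y = 0` the first one. -/
def stmt_DVR : Prop := ∀ (M : Type) [Field M] [Algebra ℂ M] (x : M), FF x →
  ∀ 𝔓 : Ideal (IntC x), 𝔓.IsMaximal → 𝔓 ≠ ⊥ → ∀ y : M,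
    (∃ z : IntC x, z ∉ 𝔓 ∧ ∃ u ∈ 𝔓, (z : M) * y = (u : M)) ∨
    (∃ z u : IntC x, u ∉ 𝔓 ∧ (z : M) * y = (u : M))

/-- TAM (about 150 lines; uses TRI RHO NIL DVR).  Elements of the dual have mild poles.

Proof.  `R = IntC x`, `h = x - c`.  Let `T` be the set of `y ∈ M` such that for all `r ∈ R` there
is `P : ℂ[X]` with `tr x (y r) = aeval x P` and `P.eval c = 0`; `T` is an `R`-module and
`y₀ = h b ∈ T` (`tr x (h b r) = h tr x (b r)` by TRI (3)).
(i) If `y ∈ T ∩ R` then `y ^ N ∈ h R` for some `N ≥ 1`: with `ρ` of RHO, for `k ≥ 1`,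
`trace (ρ y ^ k) = trace ρ (y * y ^ (k-1)) = 0` (`aeval x` is injective, so the `P` of RHO is the
`P` of `T`); by NIL `ρ (y ^ N) = 0`.
(ii) Let `I = {z ∈ R : z y₀ ∈ R}`, an ideal.  `I + h R = R`: otherwise `I + h R ⊆ 𝔓`, a maximal
ideal, `𝔓 ≠ ⊥` as `h ∈ 𝔓`.  By DVR for `y₀`: in the first case `z y₀ = u ∈ R`, `z ∉ 𝔓`, but
`z ∈ I ⊆ 𝔓`.  In the second case `u = z y₀ ∈ T ∩ R`, so `u ^ N ∈ h R ⊆ 𝔓` by (i), but `u ∉ 𝔓`.
(iii) So `1 = z + h r` with `z ∈ I`, `r ∈ R`.  `r` is integral over `Px x`: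
`r ^ k + a_1 r ^ (k-1) + ... + a_k = 0`, `a_i = A_i(x)`.  Put
`G(T) = T ^ k + h a_1 T ^ (k-1) + ... + h ^ k a_k`, so `G(h r) = 0` and
`s := G(1) = G(1) - G(h r)` is a multiple of `1 - h r = z` in `R`, that is `s ∈ I`; and
`s = aeval x s'` with `s' = 1 + (X - C c) A_1 + ...`, `s'.eval c = 1`.
(iv) `s y₀ ∈ T ∩ R`, so `(s y₀) ^ N = h r'` with `r' ∈ R`, `N ≥ 1` by (i).  As `y₀ = h b` this is
`s ^ N b ^ N h ^ (N - 1) = r'` (divide by `h ≠ 0`).  Take `s' ^ N`. -/
def stmt_TAM : Prop := ∀ (M : Type) [Field M] [Algebra ℂ M] (x : M), FF x → ∀ b ∈ Dual x,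
  ∀ c : ℂ, ∃ (N : ℕ) (s : ℂ[X]), 1 ≤ N ∧ s.eval c ≠ 0 ∧
    aeval x s * b ^ N * (x - algebraMap ℂ M c) ^ (N - 1) ∈ IntC x

/-! ## Part C: the analytic end (written by helper64 in another file) and the classification -/

/-- ANA (helper64).  In a field of meromorphic functions there are no two independent regular
differentials. -/
def stmt_ANA : Prop := ∀ (M : Type) [Field M] [Algebra ℂ M], (M →ₐ[ℂ] Mer) → ∀ x : M, FF x →
  ∀ b₁ ∈ Om x, ∀ b₂ ∈ Om x, ¬ Indep b₁ b₂

/-- CLM (about 15 lines; uses ALG ANA).  Picard's theorem. -/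
def stmt_CLM : Prop := ∀ (M : Type) [Field M] [Algebra ℂ M], (M →ₐ[ℂ] Mer) → (∃ x : M, FF x) →
  Cub M

/-! ## Part D: from an entire curve to a cubic over the algebraic closure -/

/-- ODD (about 40 lines).

Proof.  `X ^ 3 + C a * X + C b` has degree `3`; if `B ≠ 0` the degree of the right side is
`2 deg B + 3`, odd, and that of the left side is even. -/
def stmt_ODD : Prop := ∀ (k : Type) [Field k] (a b : k) (A B : k[X]),
  A ^ 2 = B ^ 2 * (X ^ 3 + C a * X + C b) → A = 0 ∧ B = 0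

/-- DIV (about 80 lines).  A polynomial which vanishes on the cubic is divisible by its equation.

Proof.  Division by the monic `mu a b` (of degree `2` in the outer variable):
`H = mu a b * G + (C A + C B * X)` (`Polynomial.modByMonic_add_div`, remainder of degree `< 2`).
For `s ∈ k` let `w` be a square root of `s ^ 3 + a s + b`.  Then `(s, w)` and `(s, - w)` are on
the cubic, so `A(s) + B(s) w = 0` and `A(s) - B(s) w = 0`, `A(s) = 0` (characteristic `0`), and
`B(s) = 0` if `w ≠ 0`, that is for all but finitely many `s`.  So `A = 0`, `B = 0`. -/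
def stmt_DIV : Prop := ∀ (k : Type) [Field k] [IsAlgClosed k] [CharZero k] (a b : k)
  (H : k[X][X]), (∀ s w, OnCubic a b s w → ev (RingHom.id k) s w H = 0) → mu a b ∣ H

/-- IND (about 60 lines; uses ODD).  Functions on the cubic.

Proof.  `R` is a field over `k`.  From `A(s) + B(s) w = 0` and `w ^ 2 = s ^ 3 + a s + b` we get
`A(s) ^ 2 = B(s) ^ 2 (s ^ 3 + a s + b)`, and `s` is transcendental, so
`A ^ 2 = B ^ 2 * (X ^ 3 + C a * X + C b)`; ODD. -/
def stmt_IND : Prop := ∀ (k R : Type) [Field k] [Field R] [Algebra k R] (a b : k) (s w : R)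
  (A B : k[X]), Transcendental k s → OnCubic (algebraMap k R a) (algebraMap k R b) s w →
    aeval s A + aeval s B * w = 0 → A = 0 ∧ B = 0

/-- NCO (about 80 lines; uses ODD).  Two functions on the cubic which are proportional at every
point are proportional.

Proof.  Let `F_i = p_i + q_i w`.  Suppose that `F_i(P) F_j(P') = F_j(P) F_i(P')` for all points
`P, P'` of the cubic over `k`.  If `F_i` vanishes at all points then for each `s` and both square
roots `w`: `p_i(s) + q_i(s) w = 0`, `p_i(s) - q_i(s) w = 0`, so `p_i = 0` and `q_i = 0` as in DIV;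
take `(α, β) = (1, 0)`.  Otherwise let `F_i(P') ≠ 0`, put `α = F_j(P')`, `β = - F_i(P')`: the
function `α F_i + β F_j` vanishes at all points, so both polynomials `α p_i + β p_j` and
`α q_i + β q_j` are zero. -/
def stmt_NCO : Prop := ∀ (k : Type) [Field k] [IsAlgClosed k] [CharZero k] (a b : k)
  (p₁ q₁ p₂ q₂ : k[X]),
  (∀ s w s' w' : k, OnCubic a b s w → OnCubic a b s' w' →
    (p₁.eval s + q₁.eval s * w) * (p₂.eval s' + q₂.eval s' * w') =
      (p₂.eval s + q₂.eval s * w) * (p₁.eval s' + q₁.eval s' * w')) →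
  ∃ α β : k, (α ≠ 0 ∨ β ≠ 0) ∧ C α * p₁ + C β * p₂ = 0 ∧ C α * q₁ + C β * q₂ = 0

/-- SUB (about 100 lines).  The field generated by the coordinates.

Proof.  Let `M` be the field generated by the `x j` over `ℂ`, `y = x l ∈ M`.  `y` is transcendental
over `ℂ`: it is not a constant and `ℂ` is algebraically closed.  Every `x j` is algebraic over
`ℂ(y)`: by hypothesis there is `P ∈ ℂ[X, Y]`, `P ≠ 0`, with `P(y, x_j) = 0`; as `y` is
transcendental `P(y, Y) ∈ ℂ(y)[Y]` is not `0`.  So `M` is generated over `ℂ(y)` by finitely many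
algebraic elements: it is finite over `ℂ(y)`. -/
def stmt_SUB : Prop := ∀ (n : ℕ) (x : Fin (n + 1) → Mer) (l : Fin (n + 1)),
  (∀ c : ℂ, x l ≠ algebraMap ℂ Mer c) → (∀ i j, ¬ AlgebraicIndependent ℂ ![x i, x j]) →
    ∃ y : IntermediateField.adjoin ℂ (Set.range x), FF y

/-- DAT (about 200 lines; uses DIV IND NCO).  From the classification to a cubic image over `ℂ`.

Proof.  Let `M` be the field generated by the `x j`, `M = ℂ(s, w)` with
`w ^ 2 = s ^ 3 + a s + b`, `s` transcendental.  As `w ^ 2 ∈ ℂ[s]`, every element of `M` is of the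
form `(P(s) + Q(s) w) / D(s)` with `P, Q, D : ℂ[X]`, `D ≠ 0` (these elements form a field, or:
`ℂ(s)[w]` is a field as `w` is algebraic).  Common denominator:
`x_j = (p_j(s) + q_j(s) w) / D(s)` in `Mer`.  Use `p, q` for `CubicImage`.
Vanishing: `F ∈ S` is homogeneous of degree `e`, so
`F(p(s) + q(s) w) = D(s) ^ e F(x) = 0` in `Mer` (here `F` has coefficients in `K` via `σ`), that is
`ev (algebraMap ℂ Mer) s w (sbt σ p q F) = 0` (`ev_sbt`).  Divide `H = sbt σ p q F` by the monic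
`mu a b`: `H = mu a b * G + (C A + C B * X)`; evaluation at `(s, w)` gives `A(s) + B(s) w = 0`, so
`A = B = 0` by IND, and `H` is divisible by `mu a b`; evaluation at a point of the cubic over `ℂ`
(`ev_sbt_id`, `ev_mu`) gives `0`.
Not constant: `x_i = 1`, `x_l` not a constant.  If the condition for `(i, l)` fails then NCO gives
`(α, β) ≠ (0, 0)` with `α (p_i + q_i w) + β (p_l + q_l w) = 0` identically, so
`α x_i + β x_l = 0`, `α + β x_l = 0`: contradiction. -/
def stmt_DAT : Prop := ∀ (K : Type) [Field K] (n : ℕ) (S : Set (MvPolynomial (Fin (n + 1)) K)),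
  (∀ F ∈ S, ∃ e, F.IsHomogeneous e) → ∀ (σ : K →+* ℂ) (x : Fin (n + 1) → Mer) (i : Fin (n + 1)),
  x i = 1 → (∀ F ∈ S, MvPolynomial.eval₂ ((algebraMap ℂ Mer).comp σ) x F = 0) →
  (∃ l, ∀ c : ℂ, x l ≠ algebraMap ℂ Mer c) →
  Cub (IntermediateField.adjoin ℂ (Set.range x)) → CubicImage S ℂ σ

/-- SPR (about 180 lines; uses DIV).  Descent from `ℂ` to the algebraic closure of `K`.

Proof.  View `ℂ` as a `K`-algebra via `σ`.  Let `B ⊆ ℂ` be the `K`-subalgebra generated by the
finite set consisting of `a, b`, the coefficients of the `p_i, q_i`, the coordinates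
`s₀, w₀, s₀', w₀'` of the two points of the second condition, and `1 / δ` where
`δ = F_i(P) F_j(P') - F_j(P) F_i(P') ≠ 0`.  `B` is a finitely generated `K`-algebra and a domain,
so for a maximal ideal `𝔪` of it `B / 𝔪` is a finite extension of `K` (Nullstellensatz,
`finite_of_finite_type_of_isJacobsonRing`), which embeds in `AlgebraicClosure K`: a
`K`-homomorphism `θ : B → AlgebraicClosure K`.  The `p_i, q_i` come from polynomials over `B`; map
them by `θ`, likewise `a, b`.
Vanishing: let `F ∈ S`, `H = sbt p q F ∈ B[X][X]` (`σ` replaced by `algebraMap K B`).  Over `ℂ` it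
is divisible by `mu a b` (`sbt_map`, `ev_sbt_id`, DIV), that is its remainder `H %ₘ mu a b`
(division by a monic polynomial commutes with the injective map `B[X] → ℂ[X]`,
`Polynomial.map_modByMonic`) is `0` over `ℂ`, hence `0` over `B`: `H = mu a b * G` over `B`.
Apply `θ` (`sbt_map`, `mu_map`) and evaluate at a point of the cubic over `AlgebraicClosure K`
(`ev_sbt_id`, `ev_mu`): `0`.
Second condition: use the points `θ(s₀), θ(w₀), θ(s₀'), θ(w₀')`: they are on the cubic, and the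
difference is `θ(δ)`, which is not `0` as `δ` is a unit of `B`. -/
def stmt_SPR : Prop := ∀ (K : Type) [Field K] (n : ℕ) (S : Set (MvPolynomial (Fin (n + 1)) K))
  (σ : K →+* ℂ), CubicImage S ℂ σ →
    CubicImage S (AlgebraicClosure K) (algebraMap K (AlgebraicClosure K))

/-- P6A (about 30 lines; uses CLM SUB DAT SPR).  An entire curve of algebraic dimension one in
`X_σ` gives a cubic image over the algebraic closure of `K`.

Proof.  `x i = 1`, `x l` is not constant.  SUB, then CLM for `M` = the field generated by the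
`x j`, with the inclusion `M → Mer` (`IntermediateField.val`), then DAT, then SPR. -/
def stmt_P6A : Prop := ∀ (K : Type) [Field K] (n : ℕ) (S : Set (MvPolynomial (Fin (n + 1)) K)),
  (∀ F ∈ S, ∃ e, F.IsHomogeneous e) → ∀ (σ : K →+* ℂ) (x : Fin (n + 1) → Mer) (i : Fin (n + 1)),
  x i = 1 → (∀ F ∈ S, MvPolynomial.eval₂ ((algebraMap ℂ Mer).comp σ) x F = 0) →
  (∃ l, ∀ c : ℂ, x l ≠ algebraMap ℂ Mer c) →
  (∀ i j, ¬ AlgebraicIndependent ℂ ![x i, x j]) →
    CubicImage S (AlgebraicClosure K) (algebraMap K (AlgebraicClosure K))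

/-! ## Part E: a cubic image gives rational points and entire curves -/

/-- ARC (about 70 lines).  A valuation above `2` on the algebraic closure of a number field.

Proof.  `Pool.Agent.Work.MP_f82ddf_nt.exists_valuationSubring` (file HF/Good.lean) gives `V` with
`V.valuation 2 < 1`.  `a` is algebraic over `ℚ`: there is a natural number `m ≠ 0` with `m a`
integral over `ℤ` (`exists_integral_multiple`), so `V.valuation (m a) ≤ 1` (valuation rings are
integrally closed and contain `ℤ`).  `m = 2 ^ e m'` with `m'` odd, and `V.valuation m' = 1`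
(`val_nat_eq` in the same file, or `m' = 2 j + 1`). -/
def stmt_ARC : Prop := ∀ (K : Type) [Field K] [NumberField K],
  ∃ V : ValuationSubring (AlgebraicClosure K), V.valuation 2 < 1 ∧
    ∀ a : AlgebraicClosure K, ∃ e : ℕ, V.valuation (a * 2 ^ e) ≤ 1

/-- DBL (about 170 lines; uses ARC).  A cubic has infinitely many points over some number field.

Proof.  Write `|y| = V.valuation y`, `|2| < 1`.  By ARC `|a| ≤ |2| ^ (-e)`, `|b| ≤ |2| ^ (-e)` for
some `e`.  Let `s₀ = 2 ^ (- (e + 1))`, so `|s₀| > |a|, |b|, 1`.  Let `w₀` be a square root of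
`s₀ ^ 3 + a s₀ + b` in the algebraic closure and `L = K(a, b, w₀)` (finite over `K`).  Let
`𝓟` be the set of the `(s, w) ∈ L × L` on the cubic with `|s| > |a|`, `|s| > |b|`, `|s| > 1`.
Doubling: for `(s, w) ∈ 𝓟`, `|s ^ 3 + a s + b| = |s| ^ 3` (the first term is strictly larger), so
`w ≠ 0`.  Put `λ = (3 s ^ 2 + a) / (2 w)`, `s' = λ ^ 2 - 2 s`, `w' = λ (s - s') - w`.  Then
`w' ^ 2 = s' ^ 3 + a s' + b` (field identity using `w ^ 2 = s ^ 3 + a s + b`) and
`4 w ^ 2 s' = s ^ 4 - 2 a s ^ 2 - 8 b s + a ^ 2`, whose value is `|s| ^ 4` since the other terms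
are smaller (`|2 a s ^ 2| < |s| ^ 3`, `|8 b s| < |s| ^ 2`, `|a ^ 2| < |s| ^ 2`).  So
`|s'| = |s| / |4| > |s|` and `(s', w') ∈ 𝓟`.  Iterating from `(s₀, w₀)` gives infinitely many
different `s` (strictly increasing values). -/
def stmt_DBL : Prop := ∀ (K : Type) [Field K] [NumberField K] (a b : AlgebraicClosure K),
  ∃ E : IntermediateField K (AlgebraicClosure K), FiniteDimensional K E ∧ a ∈ E ∧ b ∈ E ∧
    {s : AlgebraicClosure K | s ∈ E ∧ ∃ w ∈ E, OnCubic a b s w}.Infinite

/-- INF (about 170 lines; uses DBL ODD).  Infinitely many points over a number field.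

Proof.  Let `E` be the field of DBL enlarged by the coefficients of all `p_i, q_i` (finite over
`K`).  For `s, w ∈ E` on the cubic the vector `cubicVal p q s w` has entries in `E` and satisfies
all `F ∈ S`; if it is not zero it gives a point of `points S E` (the representative `rep` of the
point is a multiple of the vector, and `F` is homogeneous).  Suppose that `points S E` is finite.
Let `i, j` be the indices of the second condition.  The function `F_i = p_i + q_i w` is not
identically zero on the cubic, so it vanishes for finitely many `s` only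
(`p_i(s) ^ 2 = q_i(s) ^ 2 (s ^ 3 + a s + b)` at a zero, so `s` is a root of the polynomial
`p_i ^ 2 - q_i ^ 2 (X ^ 3 + a X + b)`, which is not zero by ODD unless `p_i = q_i = 0`).  So infinitely many `s` give points of
the finite set, and infinitely many give the same point with representative `v`.  At these points
`v_i F_j - v_j F_i = 0`, and `(v_i, v_j) ≠ (0, 0)` as `F_i ≠ 0` at almost all of them.  So
`(v_i p_j - v_j p_i)(s) + (v_i q_j - v_j q_i)(s) w = 0` for infinitely many `s`, hence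
`v_i p_j = v_j p_i` and `v_i q_j = v_j q_i` (same argument with ODD), which contradicts the second
condition. -/
def stmt_INF : Prop := ∀ (K : Type) [Field K] [NumberField K] (n : ℕ)
  (S : Set (MvPolynomial (Fin (n + 1)) K)), (∀ F ∈ S, ∃ e, F.IsHomogeneous e) →
  CubicImage S (AlgebraicClosure K) (algebraMap K (AlgebraicClosure K)) →
    ∃ (L : Type) (_ : Field L) (_ : Algebra K L) (_ : FiniteDimensional K L),
      (points S L).Infinite

/-- BRU (about 170 lines, a copy).  Brody's theorem for discs with unbounded derivative.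

Proof.  Copy the proof of `exists_entire_curve` (file Brody/Brody.lean); its hypothesis is only
used to obtain discs with `N < sp h 0`. -/
def stmt_BRU : Prop := ∀ (K : Type) [Field K] (n : ℕ) (S : Set (MvPolynomial (Fin (n + 1)) K)),
  (∀ F ∈ S, ∃ e, F.IsHomogeneous e) → ∀ σ : K →+* ℂ,
  (∀ N : ℕ, ∃ h : ℂ → PSpace ℂ n, HolomorphicOn h (ball 0 1) ∧
    MapsTo h (ball 0 1) (complexPoints S σ) ∧ (N : ℝ) < sp h 0) →
  ∃ f : ℂ → PSpace ℂ n, HolomorphicOn f univ ∧ (∀ z, f z ∈ complexPoints S σ) ∧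
    ∃ a b, f a ≠ f b

/-- The projective closure of the cubic. -/
noncomputable def cubicSet (a b : ℂ) : Set (MvPolynomial (Fin 3) ℂ) :=
  {MvPolynomial.X 1 ^ 2 * MvPolynomial.X 2 - MvPolynomial.X 0 ^ 3 -
    MvPolynomial.C a * MvPolynomial.X 0 * MvPolynomial.X 2 ^ 2 -
    MvPolynomial.C b * MvPolynomial.X 2 ^ 3}

/-- SEQ (about 170 lines).  Meromorphic points of the cubic near the origin of the group, with
larger and larger derivative.

Proof.  Base: the function `1 + a t ^ 4 + b t ^ 6` is close to `1` for `|t| < r`, so it has an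
analytic square root `η` there with `η(0) = 1` (`Complex.cpow` or `Complex.exp (log / 2)`); take
`s(z) = (r z) ^ (-2)`, `w(z) = (r z) ^ (-3) η(r z)`, `α = r`.  Then off `0`
`w ^ 2 = s ^ 3 + a s + b`, and `z ^ 2 s(z) → α ^ (-2)`, `z ^ 3 w(z) → α ^ (-3)` for `z → 0`,
`z ≠ 0`.
Step from `α` to `2 α`: `λ = (3 s ^ 2 + a) / (2 w)`, `s' = λ ^ 2 - 2 s`, `w' = λ (s - s') - w`,
as functions on `ℂ` (division by zero does not matter): they are meromorphic at all points of the
ball; `w` is not zero near `0` (punctured), so by the identity theorem on the ball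
(`MeromorphicOn.meromorphicOrderAt_ne_top_of_isPreconnected`) `w ≠ 0` off a discrete set, and
`w' ^ 2 = s' ^ 3 + a s' + b` there (field identity).  Limits: `z λ → 3 / (2 α)`,
`z ^ 2 s' → 9 / (4 α ^ 2) - 2 / α ^ 2 = 1 / (2 α) ^ 2`,
`z ^ 3 w' → (3 / (2 α)) (1 / α ^ 2 - 1 / (4 α ^ 2)) - 1 / α ^ 3 = 1 / (2 α) ^ 3`.
After `j` steps the number is `2 ^ j r`, which exceeds `N`. -/
def stmt_SEQ : Prop := ∀ (a b : ℂ) (N : ℕ), ∃ (s w : ℂ → ℂ) (α : ℝ), (N : ℝ) < α ∧
  (∀ z ∈ ball (0 : ℂ) 1, MeromorphicAt s z ∧ MeromorphicAt w z) ∧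
  (∀ z₀ ∈ ball (0 : ℂ) 1, ∀ᶠ z in 𝓝[≠] z₀, w z ^ 2 = s z ^ 3 + a * s z + b) ∧
  Tendsto (fun z => z ^ 2 * s z) (𝓝[≠] 0) (𝓝 ((α : ℂ) ^ 2)⁻¹) ∧
  Tendsto (fun z => z ^ 3 * w z) (𝓝[≠] 0) (𝓝 ((α : ℂ) ^ 3)⁻¹)

/-- DSC (about 200 lines; uses SEQ).  Discs in the projective cubic with large derivative.

Proof.  Take `s, w, α` from SEQ.  Define `h : ℂ → PSpace ℂ 2` with local homogeneous coordinates
proportional to `(s, w, 1)`: at each point `z₀` of the ball divide `(s, w, 1)` by the one of them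
of smallest order (`local_rep` in Brody/Local.lean; `s` may vanish identically nowhere near `0`,
so all three are not identically zero: their orders are finite on the whole ball by the identity
theorem); the local lifts `g_{z₀}` are analytic and without zero, and they are proportional to
`(s, w, 1)` off `z₀`; put `h z = [g_z(z)]`; for `z` near `z₀` the vectors `g_z(z)` and
`g_{z₀}(z)` are proportional (both are limits / both proportional to `(s, w, 1)` in a punctured
neighbourhood of `z`), so `g_{z₀}` is a lift of `h` near `z₀` (see the proof of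
`exists_curve_of_mer` in DQ/Hol2.lean, which does the same for the whole plane).  The equation
holds by continuity.
At `0`: the functions `T = s / w` and `U = 1 / w` extend analytically to `0` with `T(0) = 0`,
`T'(0) = α`, `U(0) = 0`, `U'(0) = 0` (`T / z → α`, `U / z ^ 3 → α ^ 3`), and `(T, 1, U)` is a lift
of `h` near `0`.  So `sp h 0 = sd (T, 1, U) 0 ≥ α > N` (see `sd` and `sp_eq` in Brody/Spd.lean;
the norms are sup norms; the entry for the indices `0, 1` of the numerator is `± α` and the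
denominator is `1`). -/
def stmt_DSC : Prop := ∀ (a b : ℂ) (N : ℕ), ∃ h : ℂ → PSpace ℂ 2, HolomorphicOn h (ball 0 1) ∧
  MapsTo h (ball 0 1) (complexPoints (cubicSet a b) (RingHom.id ℂ)) ∧ (N : ℝ) < sp h 0

/-- ECU (about 120 lines; uses BRU DSC).  Every cubic has a nonconstant meromorphic point.

Proof.  By BRU (with `K = ℂ`, `σ = id`, `n = 2`, `S = cubicSet a b`, homogeneous of degree `3`) and
DSC there is a nonconstant entire curve in the projective cubic, so by `exists_mer_of_curve`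
(DQ/Hol2.lean) there are `y₀, y₁, y₂ ∈ Mer`, one of them equal to `1`, one of them not constant,
with `y₁ ^ 2 y₂ = y₀ ^ 3 + a y₀ y₂ ^ 2 + b y₂ ^ 3`.  If `y₂ = 0` then `y₀ = 0` and the one equal to
`1` is `y₁`: all constant, contradiction.  So put `s = y₀ / y₂`, `w = y₁ / y₂`.  If `s` were a
constant then `w ^ 2` is a constant, so `w` is one (`w` is algebraic over `ℂ`; or
`w′ = 0` by `2 w w′ = 0` and `Mer.exists_algebraMap`), and all `y_i` would be constant multiples
of `y₂`, so (one of them is `1`) constant: contradiction. -/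
def stmt_ECU : Prop := ∀ a b : ℂ, ∃ s w : Mer,
  OnCubic (algebraMap ℂ Mer a) (algebraMap ℂ Mer b) s w ∧ ∀ c : ℂ, s ≠ algebraMap ℂ Mer c

/-- CMP (about 170 lines; uses DIV IND ECU).  A cubic image makes every `X_τ` not hyperbolic.

Proof.  Extend `τ` to `τ' : AlgebraicClosure K → ℂ` (`IsAlgClosed.lift` with
`τ.toAlgebra`).  Let `a, b, p, q` be the data over the algebraic closure `k` of `K`,
`s, w ∈ Mer` from ECU for `τ' a, τ' b`; `s` is transcendental over `ℂ` (not a constant, and `ℂ` is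
algebraically closed), hence over `k` via `τ'`.  Let `φ = (algebraMap ℂ Mer).comp τ'` and
`y_i = (p_i).eval₂ φ s + (q_i).eval₂ φ s * w ∈ Mer`.  For `F ∈ S`: `sbt (algebraMap K k) p q F` is
divisible by `mu a b` (DIV, `ev_sbt_id`), so its value `ev φ s w` is `0` (`ev_mul`, `ev_mu`), that
is `F(y) = 0` (`ev_sbt`; `φ.comp (algebraMap K k) = (algebraMap ℂ Mer).comp τ`).
Let `i, j` be the indices of the second condition.  `y_i ≠ 0`: otherwise `p_i = q_i = 0` by IND
(over `k`, with the algebra structure `φ`), against the condition.  `y_j / y_i` is not a constant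
`c ∈ ℂ`: otherwise `y_j - c y_i = 0`, so by IND over `ℂ` the polynomials
`τ'(p_j) - c τ'(p_i)` and `τ'(q_j) - c τ'(q_i)` are `0`, so `F_i(P) F_j(P') = F_j(P) F_i(P')` after
applying `τ'`, for all points, against the condition (`τ'` is injective).  Apply
`not_hyperbolic_of_mer` (DQ/Hol.lean) to the vector `y / y_i` (homogeneity of `F`). -/
def stmt_CMP : Prop := ∀ (K : Type) [Field K] [NumberField K] (n : ℕ)
  (S : Set (MvPolynomial (Fin (n + 1)) K)), (∀ F ∈ S, ∃ e, F.IsHomogeneous e) →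
  CubicImage S (AlgebraicClosure K) (algebraMap K (AlgebraicClosure K)) →
    ∀ τ : K →+* ℂ, ¬ KobayashiHyperbolic (complexPoints S τ)

/-- P6B (about 10 lines; uses INF CMP). -/
def stmt_P6B : Prop := ∀ (K : Type) [Field K] [NumberField K] (n : ℕ)
  (S : Set (MvPolynomial (Fin (n + 1)) K)), (∀ F ∈ S, ∃ e, F.IsHomogeneous e) →
  CubicImage S (AlgebraicClosure K) (algebraMap K (AlgebraicClosure K)) →
    (∀ τ : K →+* ℂ, ¬ KobayashiHyperbolic (complexPoints S τ)) ∧
    ∃ (L : Type) (_ : Field L) (_ : Algebra K L) (_ : FiniteDimensional K L),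
      (points S L).Infinite

/-- P6C (about 30 lines; uses P6A P6B).  If all entire curves in all `X_σ` have algebraic
dimension at most one, then `X_σ` is hyperbolic if and only if `X` has no cubic image over the
algebraic closure of `K`; and if it has one then `X` has infinitely many points over some
number field.  Uses `exists_mer_of_not_hyperbolic` (DQ/Hol.lean). -/
def stmt_P6C : Prop := ∀ (K : Type) [Field K] [NumberField K] (n : ℕ)
  (S : Set (MvPolynomial (Fin (n + 1)) K)), (∀ F ∈ S, ∃ e, F.IsHomogeneous e) →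
  (∀ (σ : K →+* ℂ) (x : Fin (n + 1) → Mer) (i : Fin (n + 1)), x i = 1 →
    (∀ F ∈ S, MvPolynomial.eval₂ ((algebraMap ℂ Mer).comp σ) x F = 0) →
    ∀ i j, ¬ AlgebraicIndependent ℂ ![x i, x j]) →
  (∀ σ : K →+* ℂ, KobayashiHyperbolic (complexPoints S σ) ↔
    ¬ CubicImage S (AlgebraicClosure K) (algebraMap K (AlgebraicClosure K))) ∧
  (CubicImage S (AlgebraicClosure K) (algebraMap K (AlgebraicClosure K)) →
    ∃ (L : Type) (_ : Field L) (_ : Algebra K L) (_ : FiniteDimensional K L),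
      (points S L).Infinite)

end Pool.MCL
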