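import Pool.Agent.Work.MP_f82ddf_nt.DQ.Hol2

/-!
# Entire curves of algebraic dimension one: definitions
-/

open Polynomial Topology Filter Metric Set
open Pool.Agent.Work.MP_f82ddf_nt Pool.Agent.Work.MP_f82ddf_nt.DQ
open scoped Differential

namespace Pool.MCL

/-- `(s, w)` is a point of the plane cubic `w ^ 2 = s ^ 3 + a * s + b`. -/
def OnCubic {k : Type*} [Field k] (a b s w : k) : Prop := w ^ 2 = s ^ 3 + a * s + b

/-- The value at `(s, w)` of the vector of functions `p i (s) + q i (s) * w`. -/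
noncomputable def cubicVal {k : Type*} [Field k] {n : ℕ} (p q : Fin (n + 1) → Polynomial k)
    (s w : k) : Fin (n + 1) → k := fun i => (p i).eval s + (q i).eval s * w

/-- The projective variety given by `S` contains, over the field `k`, the image of a plane cubic
`w ^ 2 = s ^ 3 + a * s + b` under a nonconstant map
`(s, w) ↦ [p 0 (s) + q 0 (s) * w : ... : p n (s) + q n (s) * w]`. -/
def CubicImage {K : Type*} [Field K] {n : ℕ} (S : Set (MvPolynomial (Fin (n + 1)) K))
    (k : Type*) [Field k] (σ : K →+* k) : Prop :=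
  ∃ (a b : k) (p q : Fin (n + 1) → Polynomial k),
    (∀ F ∈ S, ∀ s w, OnCubic a b s w → MvPolynomial.eval₂ σ (cubicVal p q s w) F = 0) ∧
    ∃ (i j : Fin (n + 1)) (s w s' w' : k), OnCubic a b s w ∧ OnCubic a b s' w' ∧
      cubicVal p q s w i * cubicVal p q s' w' j ≠ cubicVal p q s w j * cubicVal p q s' w' i

section algebra

variable {M : Type} [Field M] [Algebra ℂ M]

/-- The subfield `ℂ(x)` of `M`. -/
noncomputable abbrev Fx (x : M) : IntermediateField ℂ M := IntermediateField.adjoin ℂ {x}

/-- The subring `ℂ[x]` of `M`. -/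
noncomputable abbrev Px (x : M) : Subalgebra ℂ M := Algebra.adjoin ℂ {x}

/-- The elements of `M` which are integral over `ℂ[x]`. -/
noncomputable def IntC (x : M) : Subalgebra ℂ M :=
  (integralClosure (Px x) M).restrictScalars ℂ

theorem mem_IntC {x r : M} : r ∈ IntC x ↔ IsIntegral (Px x) r := Iff.rfl

/-- `x` is transcendental over `ℂ` and `M` is a finite extension of `ℂ(x)`. -/
def FF (x : M) : Prop := Transcendental ℂ x ∧ FiniteDimensional (Fx x) M

/-- The degree `[M : ℂ(x)]`. -/
noncomputable def dg (x : M) : ℕ := Module.finrank (Fx x) M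

/-- The trace from `M` to `ℂ(x)`, as an element of `M`. -/
noncomputable def tr (x y : M) : M := (Algebra.trace (Fx x) M y : M)

/-- The dual of `IntC x` for the trace form. -/
def Dual (x : M) : Set M := {b | ∀ r ∈ IntC x, tr x (b * r) ∈ Px x}

/-- The elements `b` such that the differential `b dx` is regular everywhere. -/
def Om (x : M) : Set M := {b | b ∈ Dual x ∧ x ^ 2 * b ∈ Dual x⁻¹}

/-- `L x m`: the elements of `M` whose poles are bounded by `m` times the polar divisor
of `x`. -/
def L (x : M) (m : ℕ) : Set M := {f | f ∈ IntC x ∧ f * x⁻¹ ^ m ∈ IntC x⁻¹}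

/-- `w` is a basis of `IntC x` over `ℂ[x]`. -/
structure Bas (x : M) (n : ℕ) (w : Fin n → M) : Prop where
  mem : ∀ i, w i ∈ IntC x
  span : ∀ r ∈ IntC x, ∃ c : Fin n → ℂ[X], r = ∑ i, aeval x (c i) * w i
  ind : ∀ c : Fin n → ℂ[X], ∑ i, aeval x (c i) * w i = 0 → ∀ i, c i = 0

/-- `w` is a reduced basis of `IntC x` over `ℂ[x]`, with degrees `d`. -/
structure RBas (x : M) (n : ℕ) (w : Fin n → M) (d : Fin n → ℕ) : Prop extends Bas x n w where
  deg : ∀ i, w i ∈ L x (d i)
  red : ∀ (c : Fin n → ℂ[X]) (m : ℕ), ∑ i, aeval x (c i) * w i ∈ L x m →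
    ∀ i, c i ≠ 0 → (c i).natDegree + d i ≤ m

/-- The degrees of a reduced basis show two independent regular differentials `b dx`. -/
def Big {n : ℕ} (d : Fin n → ℕ) : Prop := (∃ i, 3 ≤ d i) ∨ ∃ i j, i ≠ j ∧ 2 ≤ d i ∧ 2 ≤ d j

/-- `v` is a discrete valuation of `M` over `ℂ` with residue field `ℂ` for which `x - c` is a
uniformizer. -/
structure Place (x : M) (c : ℂ) (v : M → WithTop ℤ) : Prop where
  top : ∀ y, v y = ⊤ ↔ y = 0
  mul : ∀ y z, v (y * z) = v y + v z
  add : ∀ y z, min (v y) (v z) ≤ v (y + z)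
  const : ∀ a : ℂ, a ≠ 0 → v (algebraMap ℂ M a) = 0
  res : ∀ y, 0 ≤ v y → ∃ a : ℂ, 0 < v (y - algebraMap ℂ M a)
  unif : v (x - algebraMap ℂ M c) = 1

/-- Two elements of `M` which are linearly independent over `ℂ`. -/
def Indep (f g : M) : Prop := ∀ a b : ℂ, a • f + b • g = 0 → a = 0 ∧ b = 0

/-- `M` is the function field of a plane cubic `w ^ 2 = s ^ 3 + a * s + b`. -/
def Cub (M : Type) [Field M] [Algebra ℂ M] : Prop :=
  ∃ (a b : ℂ) (s w : M), OnCubic (algebraMap ℂ M a) (algebraMap ℂ M b) s w ∧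
    Transcendental ℂ s ∧ IntermediateField.adjoin ℂ {s, w} = ⊤

end algebra

section poly

variable {k : Type*}

/-- The equation of the plane cubic as a polynomial in `w` with coefficients in `k[s]`. -/
noncomputable def mu [CommRing k] (a b : k) : k[X][X] := X ^ 2 - C (X ^ 3 + C a * X + C b)

/-- The form `F`, evaluated at the vector `p i (s) + q i (s) * w`, as a polynomial in `w` with
coefficients in `k[s]`. -/
noncomputable def sbt {K : Type*} [CommRing K] [CommRing k] {n : ℕ} (σ : K →+* k)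
    (p q : Fin (n + 1) → k[X]) (F : MvPolynomial (Fin (n + 1)) K) : k[X][X] :=
  MvPolynomial.eval₂ ((C.comp C).comp σ) (fun i => C (p i) + C (q i) * X) F

/-- The value at `(s, w)` of a polynomial in `w` with coefficients in `k[s]`, in a ring over
`k`. -/
noncomputable def ev [CommRing k] {R : Type*} [CommRing R] (φ : k →+* R) (s w : R)
    (H : k[X][X]) : R := H.eval₂ (Polynomial.eval₂RingHom φ s) w

end poly

section analysis

/-- The function `g`, which is meromorphic at every point, represents `y`. -/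
structure Rp (y : Mer) (g : ℂ → ℂ) : Prop where
  mero : ∀ z, MeromorphicAt g z
  eq : Mer.mk g mero = y

/-- The function `g`, which is meromorphic in normal form at every point, represents `y`. -/
structure Rep (y : Mer) (g : ℂ → ℂ) : Prop extends Rp y g where
  nf : ∀ z, MeromorphicNFAt g z

/-- The functions `F n` tend to `c` uniformly on the ball of radius `R`, along the
ultrafilter. -/
def Tends (𝒰 : Ultrafilter ℕ) (F : ℕ → ℂ → ℂ) (c : ℂ) (R : ℝ) : Prop :=
  ∀ ε > 0, ∀ᶠ n in (𝒰 : Filter ℕ), ∀ ζ ∈ ball (0 : ℂ) R, ‖F n ζ - c‖ ≤ ε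

end analysis

end Pool.MCL
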