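import Pool.Agent.Work.MP_f82ddf_cb.Ana
import Pool.Agent.Work.MP_f82ddf_cl.Interface
import Pool.Agent.Work.MP_f82ddf_M1.B_DZR
import Pool.Agent.Work.MP_f82ddf_M1.B_LGD
import Pool.Agent.Work.MP_f82ddf_M1.B_LDA
import Pool.Agent.Work.MP_f82ddf_M1.B_LDB
import Pool.Agent.Work.MP_f82ddf_M1.B_LDC
import Pool.Agent.Work.MP_f82ddf_M1.B_LDD
import Pool.Agent.Work.MP_f82ddf_M1.B_LDE
import Pool.Agent.Work.MP_f82ddf_M1.B_LDF
import Pool.Agent.Work.MP_f82ddf_M1.B_LDG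
import Pool.Agent.Work.MP_f82ddf_M1.B_LDH
import Pool.Agent.Work.MP_f82ddf_M1.B_LDX
import Pool.Agent.Work.MP_f82ddf_M1.B_RAT
import Pool.Agent.Work.MP_f82ddf_M1.B_EXP
import Pool.Agent.Work.MP_f82ddf_M1.B_TRA

/-! # Block ANA (helper64) -/

set_option autoImplicit false

open Polynomial Topology Filter Metric Set
open Pool.Agent.Work.MP_f82ddf_nt Pool.Agent.Work.MP_f82ddf_nt.DQ
open scoped Differential

namespace Pool.MCL

namespace ANA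

open scoped IntermediateField.algebraAdjoinAdjoin

theorem kLGD : Pool.ThmM.Stmt_LGD :=
  Pool.ThmM.p_LGD Pool.ThmM.all_REP Pool.ThmM.all_ALG Pool.ThmM.all_VAL Pool.ThmM.p_DZR

theorem kLDC : Pool.ThmM.Stmt_LDC := Pool.ThmM.p_LDC Pool.ThmM.p_LDA Pool.ThmM.p_LDB

theorem kLDE : Pool.ThmM.Stmt_LDE := Pool.ThmM.p_LDE Pool.ThmM.p_LDD Pool.ThmM.all_CMP

theorem kLDG : Pool.ThmM.Stmt_LDG :=
  Pool.ThmM.p_LDG Pool.ThmM.all_REP Pool.ThmM.all_ALG Pool.ThmM.all_VAL Pool.ThmM.all_JEN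
    Pool.ThmM.all_NNP Pool.ThmM.all_CHR Pool.ThmM.all_DV1 Pool.ThmM.all_CMP kLDC kLDE
    Pool.ThmM.p_LDF

theorem kLDX : Pool.ThmM.Stmt_LDX :=
  Pool.ThmM.p_LDX Pool.ThmM.all_TOP Pool.ThmM.all_CHR kLDG Pool.ThmM.p_LDH

theorem kRAT : Pool.ThmM.Stmt_RAT :=
  Pool.ThmM.p_RAT Pool.ThmM.all_REP Pool.ThmM.all_ALG Pool.ThmM.all_VAL Pool.ThmM.all_DV1
    Pool.ThmM.all_JEN Pool.ThmM.all_NNP Pool.ThmM.all_CHR Pool.ThmM.all_CMP Pool.ThmM.p_LDA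
    Pool.ThmM.p_LDF

/-- An embedding after which no transcendental element is a rational function. -/
theorem exists_emb : ∃ E : Mer →ₐ[ℂ] Mer, ∀ y : Mer, (∀ c, y ≠ algebraMap ℂ Mer c) →
    (∀ c, E y ≠ algebraMap ℂ Mer c) ∧ ¬ Pool.ThmM.IsRat (E y) := by
  obtain ⟨E, hinj, hE⟩ := Pool.ThmM.p_EXP
  obtain ⟨tr, -, -, hper, htr⟩ := Pool.ThmM.p_TRA
  refine ⟨E, fun y hy => ?_⟩
  have h1 : ∀ c, E y ≠ algebraMap ℂ Mer c := by
    intro c hc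
    apply hy c
    apply hinj
    rw [hc, AlgHom.commutes]
  refine ⟨h1, fun hr => ?_⟩
  obtain ⟨f, hf, rfl⟩ := Mer.exists_mk y
  obtain ⟨hf', h2⟩ := hE f hf
  obtain ⟨hf'', h3⟩ := htr _ hf'
  have h4 : tr (E (Mer.mk f hf)) = E (Mer.mk f hf) := by
    rw [h2, h3, Mer.mk_eq_mk]
    intro z₀
    refine Eventually.of_forall fun z => ?_
    change f (Complex.exp (z + 2 * Real.pi * Complex.I)) = f (Complex.exp z)
    rw [Complex.exp_periodic z]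
  obtain ⟨a, ha⟩ := hper _ 1 le_rfl h4 hr
  exact h1 a ha

/-- A finite extension of `ℂ(t)` satisfies polynomial relations. -/
theorem exists_rel {M : Type} [Field M] [Algebra ℂ M] {t : M} (ht : FF t) (x : M) :
    ∃ p : ℂ[X][X], p ≠ 0 ∧ p.eval₂ (aeval t : ℂ[X] →ₐ[ℂ] M).toRingHom x = 0 := by
  obtain ⟨htr, hfin⟩ := ht
  have h1 : IsAlgebraic (Fx t) x := Algebra.IsAlgebraic.isAlgebraic x
  have h2 : IsAlgebraic (Px t) x := (IsFractionRing.isAlgebraic_iff (Px t) (Fx t) M).2 h1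
  obtain ⟨q, hq, h0⟩ := h2
  have hmem : ∀ f : ℂ[X], aeval t f ∈ Px t := by
    intro f
    change aeval t f ∈ Algebra.adjoin ℂ {t}
    rw [Algebra.adjoin_singleton_eq_range_aeval]
    exact ⟨f, rfl⟩
  let ψ : ℂ[X] →+* Px t :=
    (aeval t : ℂ[X] →ₐ[ℂ] M).toRingHom.codRestrict (Px t).toSubring hmem
  have hψ : Function.Surjective ψ := by
    rintro ⟨y, hy⟩
    have hy' := hy
    change y ∈ Algebra.adjoin ℂ {t} at hy'
    rw [Algebra.adjoin_singleton_eq_range_aeval] at hy'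
    obtain ⟨f, hf⟩ := hy'
    exact ⟨f, Subtype.ext hf⟩
  obtain ⟨p, hp⟩ := Polynomial.map_surjective ψ hψ q
  refine ⟨p, ?_, ?_⟩
  · rintro rfl
    rw [Polynomial.map_zero] at hp
    exact hq hp.symm
  · have h3 : (aeval t : ℂ[X] →ₐ[ℂ] M).toRingHom = (algebraMap (Px t) M).comp ψ := rfl
    rw [h3, ← Polynomial.eval₂_map, hp]
    exact h0

theorem map_rel {R S : Type} [Field R] [Algebra ℂ R] [Field S] [Algebra ℂ S] (ι : R →ₐ[ℂ] S)
    {t x : R} {p : ℂ[X][X]} (h : p.eval₂ (aeval t : ℂ[X] →ₐ[ℂ] R).toRingHom x = 0) :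
    p.eval₂ (aeval (ι t) : ℂ[X] →ₐ[ℂ] S).toRingHom (ι x) = 0 := by
  have h1 : (aeval (ι t) : ℂ[X] →ₐ[ℂ] S).toRingHom =
      (ι : R →+* S).comp (aeval t : ℂ[X] →ₐ[ℂ] R).toRingHom := by
    ext a
    · simp
    · simp
  rw [h1]
  have h2 := Polynomial.hom_eval₂ p (aeval t : ℂ[X] →ₐ[ℂ] R).toRingHom (ι : R →+* S) x
  change (ι : R →+* S) _ = Polynomial.eval₂ _ ((ι : R →+* S) x) p at h2
  rw [h, map_zero] at h2
  exact h2.symm

theorem tamAt (hTAM : stmt_TAM) {M : Type} [Field M] [Algebra ℂ M] (ι : M →ₐ[ℂ] Mer) {x b : M}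
    (hx : FF x) (hb : b ∈ Dual x) (c : ℂ) : Pool.MCB.TamAt (ι x) (ι b) c := by
  obtain ⟨N, s, hN, hs, h⟩ := hTAM M x hx b hb c
  exact Pool.MCB.TamAt.map ι ⟨N, s, hN, hs, Pool.MCB.intP_of_mem h⟩

end ANA

theorem p_ANA (hTAM : stmt_TAM) (hCON2 : stmt_CON2) : stmt_ANA := by
  intro M _ _ ι₀ x hx b₁ hb₁ b₂ hb₂ hind
  obtain ⟨E, hE⟩ := ANA.exists_emb
  set ι : M →ₐ[ℂ] Mer := E.comp ι₀ with hι
  obtain ⟨hx', -, -, -, hff⟩ := hCON2 M x hx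
  have hxc : ∀ c, ι₀ x ≠ algebraMap ℂ Mer c := by
    intro c hc
    have h1 : x = algebraMap ℂ M c := by
      apply ι₀.toRingHom.injective
      change ι₀ x = ι₀ (algebraMap ℂ M c)
      rw [hc, AlgHom.commutes]
    apply hx.1
    rw [h1]
    exact isAlgebraic_algebraMap c
  obtain ⟨hXne, hXr⟩ := hE (ι₀ x) hxc
  have hb2 : b₂ ≠ 0 := by
    rintro rfl
    have h1 := hind 0 1 (by rw [zero_smul, smul_zero, add_zero])
    exact one_ne_zero h1.2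
  have ht : FF (b₁ / b₂) := by
    apply hff
    intro c hc
    have h1 : b₁ = c • b₂ := by
      rw [Algebra.smul_def, ← hc]
      field_simp
    have h2 := hind 1 (-c) (by rw [h1, one_smul, neg_smul, add_neg_cancel])
    exact one_ne_zero h2.1
  obtain ⟨p, hp, hrel⟩ := ANA.exists_rel ht x
  have hrel' := ANA.map_rel ι hrel
  rw [map_div₀] at hrel'
  have hinv : ∀ b ∈ Om x, ∀ c, Pool.MCB.TamAt (ι x)⁻¹ (ι x ^ 2 * ι b) c := by
    intro b hb c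
    have h1 := ANA.tamAt hTAM ι hx' hb.2 c
    rwa [map_inv₀, map_mul, map_pow] at h1
  refine Pool.MCB.ana_core ANA.kLGD ANA.kLDX ANA.kRAT (X := ι x) (B₁ := ι b₁) (B₂ := ι b₂)
    hXne hXr (fun c => ANA.tamAt hTAM ι hx hb₁.1 c) (hinv b₁ hb₁)
    (fun c => ANA.tamAt hTAM ι hx hb₂.1 c) (hinv b₂ hb₂) ?_ ?_ p hp hrel'
  · intro h
    apply hb2
    apply ι.toRingHom.injective
    change ι b₂ = ι 0
    rw [h, map_zero]
  · intro s hs h
    rw [← map_div₀, Polynomial.aeval_algHom_apply] at h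
    have h1 : aeval (b₁ / b₂) s = 0 := by
      apply ι.toRingHom.injective
      change ι _ = ι 0
      rw [h, map_zero]
    exact ht.1 ⟨s, hs, h1⟩

end Pool.MCL
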