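import Pool.Agent.Work.MP_f82ddf_cl.Interface
import Pool.Agent.Work.MP_f82ddf_nt.HF.Good

/-!
# Block ARC: a valuation above `2` on the algebraic closure of a number field
-/

open Pool.Agent.Work.MP_f82ddf_nt

namespace Pool.MCL

theorem p_ARC : stmt_ARC := by
  intro K _ _
  haveI : CharZero (AlgebraicClosure K) := charZero_of_injective_algebraMap
    (algebraMap K (AlgebraicClosure K)).injective
  obtain ⟨V, hV, h2⟩ := exists_valuationSubring (AlgebraicClosure K) 2 le_rfl
  have h2' : V.valuation (2 : AlgebraicClosure K) < 1 := by exact_mod_cast h2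
  refine ⟨V, h2', fun a => ?_⟩
  haveI : Algebra.IsAlgebraic ℚ (AlgebraicClosure K) :=
    Algebra.IsAlgebraic.trans ℚ K (AlgebraicClosure K)
  have halg : Algebra.IsAlgebraic ℤ (AlgebraicClosure K) :=
    (IsFractionRing.comap_isAlgebraic_iff (A := ℤ) (K := ℚ) (C := AlgebraicClosure K)).2
      inferInstance
  obtain ⟨y, hy0, hy⟩ := Algebra.IsAlgebraic.exists_integral_multiples ℤ
    ({a} : Finset (AlgebraicClosure K))
  have hya : IsIntegral ℤ (y • a) := hy a (Finset.mem_singleton_self a)
  have h1 : V.valuation (y • a) ≤ 1 := (V.valuation_le_one_iff _).2 (hV _ hya)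
  rw [zsmul_eq_mul, map_mul] at h1
  obtain ⟨e, m, hm, hem⟩ := Nat.exists_eq_two_pow_mul_odd (n := y.natAbs) (by omega)
  have hmv : V.valuation (m : AlgebraicClosure K) = 1 :=
    val_nat_eq V h2 (Nat.coprime_two_right.2 hm)
  have hyv : V.valuation (y : AlgebraicClosure K) = V.valuation (2 : AlgebraicClosure K) ^ e := by
    have h3 : V.valuation (y : AlgebraicClosure K) =
        V.valuation ((y.natAbs : ℕ) : AlgebraicClosure K) := by
      rcases Int.natAbs_eq y with h | h
      · have h4 : (y : AlgebraicClosure K) = ((y.natAbs : ℕ) : AlgebraicClosure K) := by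
          have := congrArg (Int.cast : ℤ → AlgebraicClosure K) h
          rwa [Int.cast_natCast] at this
        rw [h4]
      · have h4 : (y : AlgebraicClosure K) = -((y.natAbs : ℕ) : AlgebraicClosure K) := by
          have := congrArg (Int.cast : ℤ → AlgebraicClosure K) h
          rwa [Int.cast_neg, Int.cast_natCast] at this
        rw [h4, Valuation.map_neg]
    rw [h3, hem, Nat.cast_mul, Nat.cast_pow, map_mul, map_pow, hmv, mul_one]
    norm_num
  refine ⟨e, ?_⟩
  rw [map_mul, map_pow, mul_comm, ← hyv]
  exact h1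

end Pool.MCL
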