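import Pool.Agent.Work.MP_f82ddf_cl.Interface

namespace Pool.MCL

theorem p_CLM (h1 : stmt_ALG) (h2 : stmt_ANA) : stmt_CLM := by
  intro M _ _ ι hx
  rcases h1 M hx with ⟨x, hxx, b₁, hb₁, b₂, hb₂, hi⟩ | h
  · exact absurd hi (h2 M ι x hxx b₁ hb₁ b₂ hb₂)
  · exact h

end Pool.MCL
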