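import Pool.Agent.Work.MP_f82ddf_cl.Interface

/-!
# Block CMP: a cubic image makes every `X_τ` not hyperbolic (helper69)
-/

set_option autoImplicit false

open Polynomial Topology Filter Metric Set
open Pool.Agent.Work.MP_f82ddf_nt Pool.Agent.Work.MP_f82ddf_nt.DQ

namespace Pool.MCL

/-- A nonconstant meromorphic function is transcendental. -/
theorem CMP.trans {s : Mer} (hs : ∀ c : ℂ, s ≠ algebraMap ℂ Mer c) : Transcendental ℂ s := by
  intro halg
  have hint : IsIntegral ℂ s := halg.isIntegral
  have h1 : (minpoly ℂ s).degree = 1 :=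
    IsAlgClosed.degree_eq_one_of_irreducible ℂ (minpoly.irreducible hint)
  obtain ⟨c, hc⟩ := minpoly.mem_range_of_degree_eq_one ℂ s h1
  exact hs c hc.symm

theorem p_CMP (hD : stmt_DIV) (hI : stmt_IND) (hE : stmt_ECU) : stmt_CMP := by
  intro K _ _ n S hS hcub τ
  obtain ⟨a, b, p, q, hvan, i, j, s₁, w₁, s₂, w₂, hP, hP', hne⟩ := hcub
  let _ : Algebra K ℂ := τ.toAlgebra
  let τ' : AlgebraicClosure K →ₐ[K] ℂ := IsAlgClosed.lift
  let θ : AlgebraicClosure K →+* ℂ := τ'.toRingHom
  have hτ : ∀ c : K, θ (algebraMap K _ c) = τ c := fun c => τ'.commutes c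
  have hθ : Function.Injective θ := θ.injective
  obtain ⟨s, w, hsw, hs⟩ := hE (θ a) (θ b)
  have hsT : Transcendental ℂ s := CMP.trans hs
  let φ : AlgebraicClosure K →+* Mer := (algebraMap ℂ Mer).comp θ
  let _ : Algebra (AlgebraicClosure K) Mer := φ.toAlgebra
  have hsT' : Transcendental (AlgebraicClosure K) s := by
    rw [transcendental_iff]
    intro P hP0
    have h1 : aeval s (P.map θ) = 0 := by
      rw [aeval_def, eval₂_map]
      exact hP0
    have h2 := (transcendental_iff.1 hsT) _ h1
    exact (Polynomial.map_eq_zero θ).1 h2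
  have hsw' : OnCubic (algebraMap (AlgebraicClosure K) Mer a)
      (algebraMap (AlgebraicClosure K) Mer b) s w := hsw
  set y : Fin (n + 1) → Mer := fun l => (p l).eval₂ φ s + (q l).eval₂ φ s * w with hy
  -- the equations
  have hFy : ∀ F ∈ S, MvPolynomial.eval₂ ((algebraMap ℂ Mer).comp τ) y F = 0 := by
    intro F hF
    have h1 : mu a b ∣ sbt (algebraMap K (AlgebraicClosure K)) p q F := by
      apply hD
      intro s' w' h'
      rw [ev_sbt_id]
      exact hvan F hF s' w' h'
    obtain ⟨G, hG⟩ := h1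
    have h2 : ev φ s w (sbt (algebraMap K (AlgebraicClosure K)) p q F) = 0 := by
      rw [hG, ev_mul, ev_mu]
      have h3 : w ^ 2 - (s ^ 3 + φ a * s + φ b) = 0 := sub_eq_zero.2 hsw
      rw [h3, zero_mul]
    rw [ev_sbt] at h2
    have h4 : φ.comp (algebraMap K (AlgebraicClosure K)) = (algebraMap ℂ Mer).comp τ := by
      ext c
      exact congrArg (algebraMap ℂ Mer) (hτ c)
    rw [h4] at h2
    exact h2
  -- the denominator
  have hyi : y i ≠ 0 := by
    intro h0
    obtain ⟨h1, h2⟩ := hI (AlgebraicClosure K) Mer a b s w (p i) (q i) hsT' hsw' h0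
    apply hne
    simp only [cubicVal, h1, h2, eval_zero, zero_mul, mul_zero, add_zero]
  -- not constant
  have hconst : ∀ c : ℂ, y j / y i ≠ algebraMap ℂ Mer c := by
    intro c hc
    have h0 : y j = algebraMap ℂ Mer c * y i := by
      rw [← hc, div_mul_cancel₀ _ hyi]
    have h1 : aeval s ((p j).map θ - C c * (p i).map θ) +
        aeval s ((q j).map θ - C c * (q i).map θ) * w = 0 := by
      have e : ∀ r : (AlgebraicClosure K)[X], aeval s (r.map θ) = r.eval₂ φ s := by
        intro r
        rw [aeval_def, eval₂_map]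
      simp only [map_sub, map_mul, aeval_C, e]
      have h2 : (p j).eval₂ φ s + (q j).eval₂ φ s * w =
        algebraMap ℂ Mer c * ((p i).eval₂ φ s + (q i).eval₂ φ s * w) := h0
      linear_combination h2
    obtain ⟨h2, h3⟩ := hI ℂ Mer (θ a) (θ b) s w _ _ hsT hsw h1
    have h4 : ∀ s' w' : AlgebraicClosure K,
        θ (cubicVal p q s' w' j) = c * θ (cubicVal p q s' w' i) := by
      intro s' w'
      have e1 : ∀ r : (AlgebraicClosure K)[X], θ (r.eval s') = (r.map θ).eval (θ s') := by
        intro r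
        rw [eval_map, Polynomial.eval₂_at_apply]
      have h5 := congrArg (fun r => Polynomial.eval (θ s') r) h2
      have h6 := congrArg (fun r => Polynomial.eval (θ s') r) h3
      simp only [eval_sub, eval_mul, eval_C, eval_zero] at h5 h6
      simp only [cubicVal, map_add, map_mul, e1]
      linear_combination h5 + θ w' * h6
    apply hne
    apply hθ
    rw [map_mul, map_mul, h4 s₂ w₂, h4 s₁ w₁]
    ring
  refine not_hyperbolic_of_mer hS τ (fun l => y l / y i) (i := i) (div_self hyi) ?_ ⟨j, hconst⟩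
  intro F hF
  obtain ⟨e, he⟩ := hS F hF
  have h2 : (fun l => y l / y i) = (y i)⁻¹ • y := by
    funext l
    rw [Pi.smul_apply, smul_eq_mul, div_eq_inv_mul]
  rw [h2, eval₂_smul_hom he, hFy F hF, mul_zero]

end Pool.MCL
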