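import Pool.Agent.Work.MP_f82ddf_cl.Interface

open Polynomial

namespace Pool.MCL

namespace CON1

variable {M : Type} [Field M] [Algebra ℂ M]

theorem mem_Px (x : M) (P : ℂ[X]) : aeval x P ∈ Px x := by
  have : aeval x P ∈ (aeval x : ℂ[X] →ₐ[ℂ] M).range := ⟨P, rfl⟩
  rwa [← Algebra.adjoin_singleton_eq_range_aeval] at this

theorem exists_of_mem_Px {x y : M} (h : y ∈ Px x) : ∃ P : ℂ[X], aeval x P = y := by
  unfold Px at h
  rw [Algebra.adjoin_singleton_eq_range_aeval] at h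
  exact h

theorem self_mem_Px (x : M) : x ∈ Px x := Algebra.self_mem_adjoin_singleton ℂ x

theorem Px_le_IntC {x y : M} (h : y ∈ Px x) : y ∈ IntC x := by
  rw [mem_IntC]
  exact isIntegral_algebraMap (R := Px x) (A := M) (x := ⟨y, h⟩)

/-- `P(x) x ^ (-e)` is a polynomial in `x⁻¹` if the degree of `P` is at most `e` -/
theorem low {x : M} (hx : x ≠ 0) (P : ℂ[X]) (e : ℕ) (h : P.natDegree ≤ e) :
    aeval x P * x⁻¹ ^ e ∈ Px x⁻¹ := by
  rw [aeval_eq_sum_range' (Nat.lt_succ_of_le h), Finset.sum_mul]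
  refine sum_mem fun i hi => ?_
  have hi' : i ≤ e := Nat.lt_succ_iff.mp (Finset.mem_range.mp hi)
  have h1 : P.coeff i • x ^ i * x⁻¹ ^ e = P.coeff i • x⁻¹ ^ (e - i) := by
    obtain ⟨j, rfl⟩ := Nat.exists_eq_add_of_le hi'
    rw [Nat.add_sub_cancel_left, smul_mul_assoc, pow_add, ← mul_assoc, ← mul_pow,
      mul_inv_cancel₀ hx, one_pow, one_mul]
  rw [h1]
  exact Subalgebra.smul_mem _ (pow_mem (self_mem_Px _) _) _

/-- the key -/
theorem key {x : M} (hx : x ≠ 0) {y : M} (hy : y ∈ IntC x) :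
    ∃ m : ℕ, y * x⁻¹ ^ m ∈ IntC x⁻¹ := by
  rw [mem_IntC] at hy
  obtain ⟨p, hp, hpy⟩ := hy
  have hch : ∀ i, ∃ P : ℂ[X], aeval x P = ((p.coeff i : Px x) : M) := fun i =>
    exists_of_mem_Px (p.coeff i).2
  choose a ha using hch
  obtain ⟨m, hm1, hm⟩ : ∃ m : ℕ, 1 ≤ m ∧ ∀ i < p.natDegree, (a i).natDegree ≤ m := by
    refine ⟨1 + ∑ i ∈ Finset.range p.natDegree, (a i).natDegree, by omega, fun i hi => ?_⟩
    have := Finset.single_le_sum (f := fun i => (a i).natDegree) (fun _ _ => Nat.zero_le _)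
      (Finset.mem_range.mpr hi)
    omega
  refine ⟨m, ?_⟩
  rw [mem_IntC]
  set pM : M[X] := p.map (algebraMap (Px x) M) with hpM
  set q : M[X] := pM.scaleRoots (x⁻¹ ^ m) with hq
  have hpMm : pM.Monic := hp.map _
  have hnd : pM.natDegree = p.natDegree := hp.natDegree_map _
  have hqm : q.Monic := (monic_scaleRoots_iff _).mpr hpMm
  have hroot : q.eval (y * x⁻¹ ^ m) = 0 := by
    have h1 := scaleRoots_eval₂_mul (p := pM) (RingHom.id M) y (x⁻¹ ^ m)
    rw [RingHom.id_apply] at h1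
    have h2 : eval₂ (RingHom.id M) y pM = 0 := by
      rw [hpM, eval₂_map, RingHom.id_comp]
      exact hpy
    rw [h2, mul_zero] at h1
    rw [mul_comm]
    exact h1
  have hlift : q ∈ lifts (algebraMap (Px x⁻¹) M) := by
    rw [lifts_iff_coeff_lifts]
    intro i
    rw [hq, coeff_scaleRoots]
    rcases lt_trichotomy i p.natDegree with hi | hi | hi
    · have hle : (a i).natDegree ≤ m * (pM.natDegree - i) := by
        rw [hnd]
        calc (a i).natDegree ≤ m := hm i hi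
          _ = m * 1 := (mul_one m).symm
          _ ≤ m * (p.natDegree - i) := Nat.mul_le_mul_left m (by omega)
      have h1 := low hx (a i) _ hle
      rw [ha i, pow_mul] at h1
      have hco : pM.coeff i = ((p.coeff i : Px x) : M) := by
        rw [hpM, coeff_map]
        rfl
      rw [hco]
      exact ⟨⟨_, h1⟩, rfl⟩
    · have h1 : pM.coeff i = 1 := by
        rw [hi, ← hnd]
        exact hpMm
      rw [h1, hnd, hi, Nat.sub_self, pow_zero, mul_one]
      exact ⟨1, map_one _⟩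
    · have h1 : pM.coeff i = 0 := coeff_eq_zero_of_natDegree_lt (by rw [hnd]; exact hi)
      rw [h1, zero_mul]
      exact ⟨0, map_zero _⟩
  obtain ⟨q', hq', _, hq'm⟩ := lifts_and_natDegree_eq_and_monic hlift hqm
  refine ⟨q', hq'm, ?_⟩
  rw [← eval_map, hq']
  exact hroot

end CON1

open CON1 in
theorem p_CON1 : stmt_CON1 := by
  intro M _ _ x hx
  have hx0 : x ≠ 0 := by
    intro h
    exact hx (h ▸ isAlgebraic_zero)
  refine ⟨?_, ?_, ?_, ?_, ?_, ?_, ?_⟩
  · intro y hy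
    obtain ⟨m, hm⟩ := key hx0 hy
    exact ⟨m, hy, hm⟩
  · intro y hy
    obtain ⟨m, hm⟩ := key (inv_ne_zero hx0) hy
    rw [inv_inv] at hm
    exact ⟨m, by rw [mul_comm]; exact hm⟩
  · intro c m hc
    exact ⟨Px_le_IntC (mem_Px x c), Px_le_IntC (low hx0 c m hc)⟩
  · intro m m' y hmm hy
    refine ⟨hy.1, ?_⟩
    obtain ⟨j, rfl⟩ := Nat.exists_eq_add_of_le hmm
    rw [pow_add, ← mul_assoc]
    exact mul_mem hy.2 (Px_le_IntC (pow_mem (self_mem_Px _) _))
  · intro m y z hy hz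
    refine ⟨add_mem hy.1 hz.1, ?_⟩
    rw [add_mul]
    exact add_mem hy.2 hz.2
  · intro m m' y z hy hz
    refine ⟨mul_mem hy.1 hz.1, ?_⟩
    have h1 : y * z * x⁻¹ ^ (m + m') = (y * x⁻¹ ^ m) * (z * x⁻¹ ^ m') := by ring
    rw [h1]
    exact mul_mem hy.2 hz.2
  · intro m a y hy
    refine ⟨Subalgebra.smul_mem _ hy.1 a, ?_⟩
    rw [smul_mul_assoc]
    exact Subalgebra.smul_mem _ hy.2 a

end Pool.MCL
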