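import Pool.Agent.Work.MP_f82ddf_cl.Interface

open Polynomial

namespace Pool.MCL

namespace CON2

variable {M : Type} [Field M] [Algebra ℂ M]

theorem mem_Px (x : M) (P : ℂ[X]) : aeval x P ∈ Px x := by
  have : aeval x P ∈ (aeval x : ℂ[X] →ₐ[ℂ] M).range := ⟨P, rfl⟩
  rwa [← Algebra.adjoin_singleton_eq_range_aeval] at this

theorem exists_of_mem_Px {x y : M} (h : y ∈ Px x) : ∃ P : ℂ[X], aeval x P = y := by
  unfold Px at h
  rw [Algebra.adjoin_singleton_eq_range_aeval] at h
  exact h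

theorem self_mem_Px (x : M) : x ∈ Px x := Algebra.self_mem_adjoin_singleton ℂ x

theorem Px_le_IntC {x y : M} (h : y ∈ Px x) : y ∈ IntC x := by
  rw [mem_IntC]
  exact isIntegral_algebraMap (R := Px x) (A := M) (x := ⟨y, h⟩)

theorem Fx_inv (x : M) : Fx x⁻¹ = Fx x := by
  apply le_antisymm
  · rw [IntermediateField.adjoin_le_iff, Set.singleton_subset_iff]
    exact inv_mem (IntermediateField.mem_adjoin_simple_self ℂ x)
  · rw [IntermediateField.adjoin_le_iff, Set.singleton_subset_iff]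
    have h := inv_mem (IntermediateField.mem_adjoin_simple_self ℂ x⁻¹)
    rwa [inv_inv] at h

theorem fd_of_eq {E E' : IntermediateField ℂ M} (h : E = E') (hf : FiniteDimensional E M) :
    FiniteDimensional E' M := by
  subst h
  exact hf

theorem trans_inv {x : M} (hx : Transcendental ℂ x) : Transcendental ℂ x⁻¹ := by
  intro h
  apply hx
  rw [← inv_inv x]
  exact h.inv

theorem const_of_alg {y : M} (h : IsAlgebraic ℂ y) : ∃ c : ℂ, y = algebraMap ℂ M c := by
  have h1 := IsAlgClosed.degree_eq_one_of_irreducible ℂ (minpoly.irreducible h.isIntegral)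
  obtain ⟨c, hc⟩ := minpoly.mem_range_of_degree_eq_one ℂ y h1
  exact ⟨c, hc.symm⟩

/-- elements integral over `ℂ[x]` lie in all valuation rings which contain `x` -/
theorem mem_val {x y : M} (V : ValuationSubring M) (hc : ∀ c : ℂ, algebraMap ℂ M c ∈ V)
    (hx : x ∈ V) (hy : y ∈ IntC x) : y ∈ V := by
  rw [mem_IntC] at hy
  obtain ⟨p, hp, hpy⟩ := hy
  have hV : ∀ z ∈ Px x, z ∈ V := by
    intro z hz
    obtain ⟨P, rfl⟩ := exists_of_mem_Px hz
    rw [aeval_eq_sum_range]
    refine sum_mem fun i _ => ?_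
    rw [Algebra.smul_def]
    exact mul_mem (hc _) (pow_mem hx i)
  have hint : IsIntegral V y := by
    have hlift : p.map (algebraMap (Px x) M) ∈ lifts (algebraMap V M) := by
      rw [lifts_iff_coeff_lifts]
      intro i
      rw [coeff_map]
      exact ⟨⟨_, hV _ (p.coeff i).2⟩, rfl⟩
    obtain ⟨q, hq, _, hqm⟩ := lifts_and_natDegree_eq_and_monic hlift (hp.map _)
    refine ⟨q, hqm, ?_⟩
    rw [← eval_map, hq, eval_map]
    exact hpy
  obtain ⟨z, hz⟩ := IsIntegrallyClosed.isIntegral_iff.mp hint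
  rw [← hz]
  exact z.2

theorem const {x y : M} (h1 : y ∈ IntC x) (h2 : y ∈ IntC x⁻¹) :
    ∃ c : ℂ, y = algebraMap ℂ M c := by
  apply const_of_alg
  by_contra htr
  have htr : Transcendental ℂ y := htr
  have hy0 : y ≠ 0 := by
    intro h
    exact htr (h ▸ isAlgebraic_zero)
  set A : Subring M := (Px y⁻¹).toSubring with hA
  have hyA : y⁻¹ ∈ A := self_mem_Px y⁻¹
  have hI : Ideal.span {(⟨y⁻¹, hyA⟩ : A)} ≠ ⊤ := by
    intro h
    rw [Ideal.span_singleton_eq_top] at h
    obtain ⟨⟨b, hb⟩, hb2⟩ := isUnit_iff_exists_inv.mp h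
    have hb3 : y⁻¹ * b = 1 := congrArg Subtype.val hb2
    have hb4 : b = y := by
      field_simp at hb3
      exact hb3
    obtain ⟨P, hP⟩ := exists_of_mem_Px (show b ∈ Px y⁻¹ from hb)
    apply trans_inv htr
    refine ⟨X * P - 1, ?_, ?_⟩
    · intro h0
      have := congrArg (eval 0) h0
      simp at this
    · simp [hP, hb3]
  obtain ⟨V, hAV, hVI⟩ := Ideal.image_subset_nonunits_valuationSubring _ hI
  have hcV : ∀ c : ℂ, algebraMap ℂ M c ∈ V := fun c =>
    hAV (show algebraMap ℂ M c ∈ Px y⁻¹ from Subalgebra.algebraMap_mem _ c)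
  have hyV : y ∈ V := by
    rcases V.mem_or_inv_mem x with h | h
    · exact mem_val V hcV h h1
    · exact mem_val V hcV h h2
  have hnu : y⁻¹ ∈ V.nonunits := by
    apply hVI
    exact ⟨⟨y⁻¹, hyA⟩, Ideal.subset_span rfl, rfl⟩
  rcases V.inv_mem_nonunits_iff.mp hnu with h | h
  · exact hy0 h
  · exact h hyV

theorem deg_le {x : M} (hx : Transcendental ℂ x) (P : ℂ[X]) (m : ℕ)
    (h : aeval x P * x⁻¹ ^ m ∈ Px x⁻¹) : P.natDegree ≤ m := by
  have hx0 : x ≠ 0 := by
    intro h
    exact hx (h ▸ isAlgebraic_zero)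
  by_cases hP : P = 0
  · rw [hP]
    simp
  obtain ⟨Q, hQ⟩ := exists_of_mem_Px h
  set e := Q.natDegree with he
  set Q' : ℂ[X] := ∑ i ∈ Finset.range (e + 1), C (Q.coeff i) * X ^ (e - i) with hQ'
  have hQ'd : Q'.natDegree ≤ e := by
    refine natDegree_sum_le_of_forall_le _ _ fun i _ => ?_
    exact (natDegree_C_mul_X_pow_le _ _).trans (Nat.sub_le _ _)
  have hQ'e : aeval x Q' = x ^ e * aeval x⁻¹ Q := by
    rw [hQ', map_sum, aeval_eq_sum_range, Finset.mul_sum]
    refine Finset.sum_congr rfl fun i hi => ?_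
    have hi' : i ≤ e := Nat.lt_succ_iff.mp (Finset.mem_range.mp hi)
    obtain ⟨j, hj⟩ := Nat.exists_eq_add_of_le hi'
    rw [hj, Nat.add_sub_cancel_left, map_mul, aeval_C, map_pow, aeval_X, Algebra.smul_def, pow_add,
      inv_pow]
    field_simp
  have heq : X ^ e * P = X ^ m * Q' := by
    have hinj := transcendental_iff_injective.mp hx
    apply hinj
    rw [map_mul, map_mul, map_pow, map_pow, aeval_X, hQ'e, hQ, inv_pow]
    field_simp
  have hne : X ^ m * Q' ≠ 0 := by
    rw [← heq]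
    exact mul_ne_zero (pow_ne_zero _ X_ne_zero) hP
  have hd := congrArg natDegree heq
  rw [natDegree_mul (pow_ne_zero _ X_ne_zero) hP, natDegree_mul (left_ne_zero_of_mul hne)
    (right_ne_zero_of_mul hne), natDegree_X_pow, natDegree_X_pow] at hd
  omega

open scoped IntermediateField.algebraAdjoinAdjoin in
theorem ff {x : M} (hx : FF x) (y : M) (hy : ∀ c : ℂ, y ≠ algebraMap ℂ M c) : FF y := by
  have htr : Transcendental ℂ y := by
    intro h
    obtain ⟨c, hc⟩ := const_of_alg h
    exact hy c hc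
  refine ⟨htr, ?_⟩
  have : FiniteDimensional (Fx x) M := hx.2
  have : Algebra.IsAlgebraic (Fx x) M := inferInstance
  have : Algebra.IsAlgebraic (Px x) M := Algebra.IsAlgebraic.trans (Px x) (Fx x) M
  have h1 : Algebra.trdeg ℂ M ≤ 1 := by
    have := Algebra.IsAlgebraic.trdeg_le_cardinalMk (R := ℂ) (A := M) ({x} : Set M)
    simpa using this
  have h2 : AlgebraicIndependent ℂ (fun _ : Unit => y) :=
    (algebraicIndependent_unique_type_iff).mpr htr
  have h3 : IsTranscendenceBasis ℂ (fun _ : Unit => y) :=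
    h2.isTranscendenceBasis_of_trdeg_le_of_finite (by simpa using h1)
  have h4 : Algebra.IsAlgebraic (IntermediateField.adjoin ℂ (Set.range fun _ : Unit => y)) M :=
    h3.isAlgebraic_field
  have h5 : Fx y = IntermediateField.adjoin ℂ (Set.range fun _ : Unit => y) := by
    rw [Set.range_const]
  rw [← h5] at h4
  have h6 : Algebra.EssFiniteType ℂ (Fx x) := by
    rw [IntermediateField.essFiniteType_iff]
    exact ⟨{x}, by simp⟩
  have h7 : Algebra.EssFiniteType ℂ M := Algebra.EssFiniteType.comp ℂ (Fx x) M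
  have h8 : Algebra.EssFiniteType (Fx y) M := Algebra.EssFiniteType.of_comp ℂ (Fx y) M
  exact Algebra.finite_of_essFiniteType_of_isAlgebraic

end CON2

open CON2 in
theorem p_CON2 : stmt_CON2 := by
  intro M _ _ x hx
  refine ⟨⟨trans_inv hx.1, fd_of_eq (Fx_inv x).symm hx.2⟩, ?_, ?_, ?_, ?_⟩
  · intro y h1 h2
    exact const h1 h2
  · intro y h1 h2
    have hx0 : x ≠ 0 := by
      intro h
      exact hx.1 (h ▸ isAlgebraic_zero)
    have h3 : y ∈ IntC x⁻¹ := by
      have : y = (y * x) * x⁻¹ := by field_simp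
      rw [this]
      exact mul_mem h2 (Px_le_IntC (self_mem_Px _))
    obtain ⟨c, hc⟩ := const h1 h3
    by_contra hy
    have hc0 : c ≠ 0 := by
      intro h
      apply hy
      rw [hc, h, map_zero]
    have h4 : x ∈ IntC x⁻¹ := by
      have : x = c⁻¹ • (y * x) := by
        rw [hc, Algebra.smul_def, ← mul_assoc, ← map_mul, inv_mul_cancel₀ hc0, map_one, one_mul]
      have h5 := Subalgebra.smul_mem (IntC x⁻¹) h2 c⁻¹
      rwa [← this] at h5
    obtain ⟨d, hd⟩ := const (Px_le_IntC (self_mem_Px x)) h4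
    exact hx.1 (hd ▸ isAlgebraic_algebraMap d)
  · intro P m h
    exact deg_le hx.1 P m h
  · intro y hy
    exact ff hx y hy

end Pool.MCL
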