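import Pool.Agent.Work.MP_f82ddf_cl.Interface

/-!
# DAT: from the classification to a cubic image over `ℂ` (helper25)
-/

open Polynomial Topology Filter Metric Set
open Pool.Agent.Work.MP_f82ddf_nt Pool.Agent.Work.MP_f82ddf_nt.DQ
open scoped Differential

namespace Pool.MCL

/-- every element of the function field of the cubic is of the form `(P + Q w) / D` -/
theorem DAT.rep (hIND : stmt_IND) {M : Type} [Field M] [Algebra ℂ M] (a b : ℂ) (s w : M)
    (hsw : OnCubic (algebraMap ℂ M a) (algebraMap ℂ M b) s w) (hs : Transcendental ℂ s)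
    (y : M) (hy : y ∈ IntermediateField.adjoin ℂ ({s, w} : Set M)) :
    ∃ P Q D : ℂ[X], D ≠ 0 ∧ aeval s D * y = aeval s P + aeval s Q * w := by
  have hw2 : w ^ 2 = aeval s (X ^ 3 + C a * X + C b : ℂ[X]) := by
    have h := hsw
    unfold OnCubic at h
    rw [h]
    simp [Algebra.algebraMap_eq_smul_one]
  have hne : ∀ D : ℂ[X], D ≠ 0 → aeval s D ≠ 0 := by
    intro D hD h
    exact hD ((transcendental_iff.1 hs) D h)
  induction hy using IntermediateField.adjoin_induction with
  | mem x hx =>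
    rcases hx with h | h
    · refine ⟨X, 0, 1, one_ne_zero, ?_⟩
      rw [h]
      simp
    · rw [Set.mem_singleton_iff] at h
      refine ⟨0, 1, 1, one_ne_zero, ?_⟩
      rw [h]
      simp
  | algebraMap x =>
    refine ⟨C x, 0, 1, one_ne_zero, ?_⟩
    simp
  | add x y hx hy ihx ihy =>
    obtain ⟨P1, Q1, D1, hD1, h1⟩ := ihx
    obtain ⟨P2, Q2, D2, hD2, h2⟩ := ihy
    refine ⟨P1 * D2 + P2 * D1, Q1 * D2 + Q2 * D1, D1 * D2, mul_ne_zero hD1 hD2, ?_⟩
    simp only [map_mul, map_add]
    linear_combination (aeval s D2) * h1 + (aeval s D1) * h2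
  | mul x y hx hy ihx ihy =>
    obtain ⟨P1, Q1, D1, hD1, h1⟩ := ihx
    obtain ⟨P2, Q2, D2, hD2, h2⟩ := ihy
    refine ⟨P1 * P2 + Q1 * Q2 * (X ^ 3 + C a * X + C b), P1 * Q2 + P2 * Q1, D1 * D2,
      mul_ne_zero hD1 hD2, ?_⟩
    rw [map_add, map_mul (aeval s) (Q1 * Q2), ← hw2]
    simp only [map_mul, map_add]
    linear_combination (aeval s D2 * y) * h1 + (aeval s P1 + aeval s Q1 * w) * h2
  | inv x hx ih =>
    obtain ⟨P, Q, D, hD, h⟩ := ih
    by_cases hx0 : x = 0
    · refine ⟨0, 0, 1, one_ne_zero, ?_⟩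
      rw [hx0]
      simp
    have hDx : aeval s D * x ≠ 0 := mul_ne_zero (hne D hD) hx0
    have h1 : aeval s P + aeval s Q * w ≠ 0 := by
      rw [← h]
      exact hDx
    have h2 : aeval s P - aeval s Q * w ≠ 0 := by
      intro h2
      have h3 := hIND ℂ M a b s w P (-Q) hs hsw (by
        rw [map_neg]
        linear_combination h2)
      apply h1
      rw [h3.1, neg_eq_zero.1 h3.2]
      simp
    have hN : aeval s (P ^ 2 - Q ^ 2 * (X ^ 3 + C a * X + C b)) =
        (aeval s P + aeval s Q * w) * (aeval s P - aeval s Q * w) := by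
      rw [map_sub, map_mul, ← hw2]
      simp only [map_pow]
      ring
    refine ⟨D * P, -(D * Q), P ^ 2 - Q ^ 2 * (X ^ 3 + C a * X + C b), ?_, ?_⟩
    · intro h3
      rw [h3, map_zero] at hN
      exact mul_ne_zero h1 h2 hN.symm
    · rw [hN, ← h]
      simp only [map_mul, map_neg]
      field_simp
      ring

theorem p_DAT (_hDIV : stmt_DIV) (hIND : stmt_IND) (hNCO : stmt_NCO) : stmt_DAT := by
  intro K _ n S hS σ x i hi hF hl hCub
  obtain ⟨l, hl⟩ := hl
  obtain ⟨a, b, s, w, hsw, hs, htop⟩ := hCub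
  -- coordinates as elements of `M`
  have hxM : ∀ j, ∃ P Q D : ℂ[X], D ≠ 0 ∧
      aeval s D * (⟨x j, IntermediateField.subset_adjoin ℂ _ ⟨j, rfl⟩⟩ :
        IntermediateField.adjoin ℂ (Set.range x)) = aeval s P + aeval s Q * w := by
    intro j
    refine DAT.rep hIND a b s w hsw hs _ ?_
    rw [htop]
    trivial
  choose P Q D hD hPQ using hxM
  -- go to `Mer`
  obtain ⟨t, ht⟩ : ∃ t : Mer, t = (s : Mer) := ⟨_, rfl⟩
  obtain ⟨u, hu⟩ : ∃ u : Mer, u = (w : Mer) := ⟨_, rfl⟩
  have haev : ∀ R : ℂ[X], ((aeval s R : IntermediateField.adjoin ℂ (Set.range x)) : Mer) =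
      aeval t R := by
    intro R
    rw [ht]
    exact (Polynomial.aeval_algHom_apply (IntermediateField.adjoin ℂ (Set.range x)).val s R).symm
  have htu : OnCubic (algebraMap ℂ Mer a) (algebraMap ℂ Mer b) t u := by
    have h := congrArg (fun z : IntermediateField.adjoin ℂ (Set.range x) => (z : Mer)) hsw
    unfold OnCubic
    rw [ht, hu]
    simpa using h
  have htr : Transcendental ℂ t := by
    rw [transcendental_iff]
    intro R hR
    rw [← haev] at hR
    exact (transcendental_iff.1 hs) R (by exact_mod_cast hR)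
  have hne : ∀ D : ℂ[X], D ≠ 0 → aeval t D ≠ 0 := by
    intro D hD h
    exact hD ((transcendental_iff.1 htr) D h)
  have hPQ' : ∀ j, aeval t (D j) * x j = aeval t (P j) + aeval t (Q j) * u := by
    intro j
    have h := congrArg (fun z : IntermediateField.adjoin ℂ (Set.range x) => (z : Mer)) (hPQ j)
    simp only [IntermediateField.coe_mul, IntermediateField.coe_add, haev] at h
    rw [hu]
    exact h
  -- common denominator
  obtain ⟨E, hE⟩ : ∃ E : ℂ[X], E = ∏ j, D j := ⟨_, rfl⟩
  have hE0 : E ≠ 0 := by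
    rw [hE]
    exact Finset.prod_ne_zero_iff.2 fun j _ => hD j
  obtain ⟨p, hp⟩ : ∃ p : Fin (n + 1) → ℂ[X], ∀ j, p j = P j * ∏ m ∈ Finset.univ.erase j, D m :=
    ⟨_, fun _ => rfl⟩
  obtain ⟨q, hq⟩ : ∃ q : Fin (n + 1) → ℂ[X], ∀ j, q j = Q j * ∏ m ∈ Finset.univ.erase j, D m :=
    ⟨_, fun _ => rfl⟩
  have hpq : ∀ j, aeval t E * x j = aeval t (p j) + aeval t (q j) * u := by
    intro j
    have h1 : E = D j * ∏ m ∈ Finset.univ.erase j, D m := by
      rw [hE]
      exact (Finset.mul_prod_erase _ _ (Finset.mem_univ j)).symm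
    rw [h1, hp, hq]
    simp only [map_mul]
    linear_combination (aeval t (∏ m ∈ Finset.univ.erase j, D m)) * hPQ' j
  refine ⟨a, b, p, q, ?_, ?_⟩
  · -- vanishing
    intro F hFS s0 w0 h0
    obtain ⟨e, he⟩ := hS F hFS
    have h1 : ev (algebraMap ℂ Mer) t u (sbt σ p q F) = 0 := by
      rw [ev_sbt]
      have h2 : (fun i => (p i).eval₂ (algebraMap ℂ Mer) t +
          (q i).eval₂ (algebraMap ℂ Mer) t * u) = aeval t E • x := by
        funext j
        rw [Pi.smul_apply, smul_eq_mul, hpq]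
        rfl
      rw [h2, eval₂_smul_hom he, hF F hFS, mul_zero]
    obtain ⟨H, hH⟩ : ∃ H : ℂ[X][X], H = sbt σ p q F := ⟨_, rfl⟩
    rw [← hH] at h1
    have hmon := mu_monic a b
    have hdeg : (H %ₘ mu a b).natDegree ≤ 1 := by
      have h2 := Polynomial.natDegree_modByMonic_lt H hmon (by
        intro h3
        have h4 : (mu a b).natDegree = 2 := by
          unfold mu
          exact natDegree_X_pow_sub_C
        rw [h3] at h4
        simp at h4)
      have h4 : (mu a b).natDegree = 2 := by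
        unfold mu
        exact natDegree_X_pow_sub_C
      omega
    obtain ⟨B, A, hAB⟩ := Polynomial.exists_eq_X_add_C_of_natDegree_le_one hdeg
    have hdiv := Polynomial.modByMonic_add_div H (mu a b)
    have h2 : aeval t A + aeval t B * u = 0 := by
      rw [← hdiv, ev_add, ev_mul, ev_mu, hAB, ev_add, ev_mul, ev_C, ev_C, ev_X] at h1
      have h3 : u ^ 2 - (t ^ 3 + algebraMap ℂ Mer a * t + algebraMap ℂ Mer b) = 0 := by
        have h4 := htu
        unfold OnCubic at h4
        rw [h4, sub_self]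
      rw [h3, zero_mul, add_zero] at h1
      have h4 : aeval t A = A.eval₂ (algebraMap ℂ Mer) t := rfl
      have h5 : aeval t B = B.eval₂ (algebraMap ℂ Mer) t := rfl
      rw [h4, h5]
      linear_combination h1
    obtain ⟨hA, hB⟩ := hIND ℂ Mer a b t u A B htr htu h2
    rw [← ev_sbt_id, ← hH, ← hdiv, hAB, hA, hB, ev_add, ev_mul, ev_mu]
    have h3 : w0 ^ 2 - (s0 ^ 3 + (RingHom.id ℂ) a * s0 + (RingHom.id ℂ) b) = 0 := by
      have h4 := h0
      unfold OnCubic at h4
      rw [h4]
      simp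
    rw [h3, zero_mul, add_zero]
    simp [ev]
  · -- not constant
    by_contra hcon
    push Not at hcon
    obtain ⟨α, β, hαβ, h1, h2⟩ := hNCO ℂ a b (p i) (q i) (p l) (q l) (by
      intro s0 w0 s1 w1 h0 h1
      exact hcon i l s0 w0 s1 w1 h0 h1)
    have h3 : aeval t E * (algebraMap ℂ Mer α + algebraMap ℂ Mer β * x l) = 0 := by
      have h4 := congrArg (aeval t) h1
      have h5 := congrArg (aeval t) h2
      simp only [map_add, map_mul, aeval_C, map_zero] at h4 h5
      have h6 := hpq i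
      have h7 := hpq l
      rw [hi, mul_one] at h6
      linear_combination (algebraMap ℂ Mer α) * h6 + (algebraMap ℂ Mer β) * h7 + h4 + u * h5
    have h4 : algebraMap ℂ Mer α + algebraMap ℂ Mer β * x l = 0 := by
      rcases mul_eq_zero.1 h3 with h | h
      · exact absurd h (hne E hE0)
      · exact h
    by_cases hβ : β = 0
    · rw [hβ, map_zero, zero_mul, add_zero] at h4
      have hα : α = 0 := by
        exact (map_eq_zero (algebraMap ℂ Mer)).1 h4
      rcases hαβ with h | h
      · exact h hα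
      · exact h hβ
    · apply hl (-α / β)
      have hβ' : algebraMap ℂ Mer β ≠ 0 := by
        intro h
        exact hβ ((map_eq_zero (algebraMap ℂ Mer)).1 h)
      rw [map_div₀, map_neg, eq_div_iff hβ']
      linear_combination h4

end Pool.MCL
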