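import Pool.Agent.Work.MP_f82ddf_cl.Interface

/-!
# Block DBL: a cubic has infinitely many points over some number field
-/

open Polynomial Topology Filter Metric Set
open Pool.Agent.Work.MP_f82ddf_nt Pool.Agent.Work.MP_f82ddf_nt.DQ
open scoped Differential

namespace Pool.MCL

namespace DBL

section

variable {Ω : Type*} [Field Ω] {Γ : Type*} [LinearOrderedCommGroupWithZero Γ] (v : Valuation Ω Γ)

theorem val_cubic {a b s w : Ω} (ha : v a < v s) (hb : v b < v s) (h1 : 1 < v s)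
    (h : w ^ 2 = s ^ 3 + a * s + b) : v w ^ 2 = v s ^ 3 := by
  have hs : 0 < v s := lt_trans zero_lt_one h1
  have h2 : v s ≤ v s ^ 3 := by
    calc v s = v s ^ 1 := (pow_one _).symm
      _ ≤ v s ^ 3 := pow_le_pow_right₀ h1.le (by norm_num)
  have h3 : v (a * s) < v s ^ 3 := by
    rw [map_mul]
    calc v a * v s < v s * v s := mul_lt_mul_of_pos_right ha hs
      _ = v s ^ 2 := (pow_two _).symm
      _ ≤ v s ^ 3 := pow_le_pow_right₀ h1.le (by norm_num)
  have h4 : v (a * s + b) < v (s ^ 3) := by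
    rw [map_pow]
    exact v.map_add_lt h3 (lt_of_lt_of_le hb h2)
  rw [← map_pow, h, add_assoc, v.map_add_eq_of_lt_left h4, map_pow]

theorem val_num {a b s : Ω} (ha : v a < v s) (hb : v b < v s) (h1 : 1 < v s) (h2 : v 2 ≤ 1) :
    v (s ^ 4 + (-2 * a * s ^ 2 - 8 * b * s + a ^ 2)) = v s ^ 4 := by
  have hs : 0 < v s := lt_trans zero_lt_one h1
  have e1 : v (-2 * a * s ^ 2) < v s ^ 4 := by
    have : (-2 * a * s ^ 2 : Ω) = -(2 * (a * s ^ 2)) := by ring
    rw [this, Valuation.map_neg, map_mul, map_mul, map_pow]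
    calc v 2 * (v a * v s ^ 2) ≤ 1 * (v a * v s ^ 2) := mul_le_mul_of_nonneg_right h2 zero_le
      _ = v a * v s ^ 2 := one_mul _
      _ < v s * v s ^ 2 := mul_lt_mul_of_pos_right ha (pow_pos hs 2)
      _ = v s ^ 3 := by rw [← pow_succ']
      _ ≤ v s ^ 4 := pow_le_pow_right₀ h1.le (by norm_num)
  have e2 : v (8 * b * s) < v s ^ 4 := by
    have : (8 * b * s : Ω) = 2 ^ 3 * (b * s) := by ring
    rw [this, map_mul, map_mul, map_pow]
    calc v 2 ^ 3 * (v b * v s) ≤ 1 * (v b * v s) :=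
          mul_le_mul_of_nonneg_right (pow_le_one₀ zero_le h2) zero_le
      _ = v b * v s := one_mul _
      _ < v s * v s := mul_lt_mul_of_pos_right hb hs
      _ = v s ^ 2 := (pow_two _).symm
      _ ≤ v s ^ 4 := pow_le_pow_right₀ h1.le (by norm_num)
  have e3 : v (a ^ 2) < v s ^ 4 := by
    rw [map_pow]
    calc v a ^ 2 < v s ^ 2 := pow_lt_pow_left₀ ha zero_le (by norm_num)
      _ ≤ v s ^ 4 := pow_le_pow_right₀ h1.le (by norm_num)
  have e4 : v (-2 * a * s ^ 2 - 8 * b * s + a ^ 2) < v (s ^ 4) := by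
    rw [map_pow]
    exact v.map_add_lt (v.map_sub_lt e1 e2) e3
  rw [v.map_add_eq_of_lt_left e4, map_pow]

/-- The doubling step. -/
theorem double {a b s w : Ω} (h2 : v 2 < 1) (h0 : (2 : Ω) ≠ 0) (ha : v a < v s) (hb : v b < v s)
    (h1 : 1 < v s) (h : w ^ 2 = s ^ 3 + a * s + b) (E : Subfield Ω) (haE : a ∈ E) (hsE : s ∈ E)
    (hwE : w ∈ E) : ∃ s' ∈ E, ∃ w' ∈ E, w' ^ 2 = s' ^ 3 + a * s' + b ∧ v s < v s' := by
  have hs : 0 < v s := lt_trans zero_lt_one h1
  have hw : v w ^ 2 = v s ^ 3 := val_cubic v ha hb h1 h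
  have hw0 : w ≠ 0 := by
    rintro rfl
    rw [map_zero, zero_pow (by norm_num)] at hw
    exact (pow_pos hs 3).ne hw
  have hE2 : (2 : Ω) ∈ E := by
    have := E.add_mem E.one_mem E.one_mem
    rwa [one_add_one_eq_two] at this
  have hE3 : (3 : Ω) ∈ E := by
    have := E.add_mem hE2 E.one_mem
    rwa [two_add_one_eq_three] at this
  set t : Ω := (3 * s ^ 2 + a) / (2 * w) with ht
  have htE : t ∈ E := E.div_mem (E.add_mem (E.mul_mem hE3 (pow_mem hsE 2)) haE)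
    (E.mul_mem hE2 hwE)
  have hl : 2 * t * w = 3 * s ^ 2 + a := by
    rw [ht]
    field_simp
  have hsE' : t ^ 2 - 2 * s ∈ E := E.sub_mem (pow_mem htE 2) (E.mul_mem hE2 hsE)
  refine ⟨t ^ 2 - 2 * s, hsE', t * (s - (t ^ 2 - 2 * s)) - w,
    E.sub_mem (E.mul_mem htE (E.sub_mem hsE hsE')) hwE, ?_, ?_⟩
  · linear_combination (t ^ 2 - 3 * s) * hl + h
  · have key : 2 ^ 2 * w ^ 2 * (t ^ 2 - 2 * s) =
        s ^ 4 + (-2 * a * s ^ 2 - 8 * b * s + a ^ 2) := by
      have e : 2 ^ 2 * w ^ 2 * (t ^ 2 - 2 * s) = (2 * t * w) ^ 2 - 8 * s * w ^ 2 := by ring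
      rw [e, hl, h]
      ring
    have hv := congrArg v key
    rw [val_num v ha hb h1 h2.le, map_mul, map_mul, map_pow, map_pow, hw] at hv
    have h3 : v 2 ^ 2 * v (t ^ 2 - 2 * s) = v s := by
      have h4 : v s ^ 3 * (v 2 ^ 2 * v (t ^ 2 - 2 * s)) = v s ^ 3 * v s := by
        calc v s ^ 3 * (v 2 ^ 2 * v (t ^ 2 - 2 * s))
            = v 2 ^ 2 * v s ^ 3 * v (t ^ 2 - 2 * s) := by ac_rfl
          _ = v s ^ 4 := hv
          _ = v s ^ 3 * v s := pow_succ _ _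
      exact mul_left_cancel₀ (pow_pos hs 3).ne' h4
    have h5 : 0 < v (t ^ 2 - 2 * s) := by
      rcases eq_or_ne (v (t ^ 2 - 2 * s)) 0 with h6 | h6
      · rw [h6, mul_zero] at h3
        exact absurd h3 hs.ne
      · exact zero_lt_iff.2 h6
    calc v s = v 2 ^ 2 * v (t ^ 2 - 2 * s) := h3.symm
      _ < 1 * v (t ^ 2 - 2 * s) :=
          mul_lt_mul_of_pos_right (pow_lt_one₀ zero_le h2 (by norm_num)) h5
      _ = v (t ^ 2 - 2 * s) := one_mul _

end

end DBL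

theorem p_DBL (hARC : stmt_ARC) : stmt_DBL := by
  intro K _ _ a b
  obtain ⟨V, hV2, hV⟩ := hARC K
  set v := V.valuation with hv
  have h0 : (2 : AlgebraicClosure K) ≠ 0 := by
    have : CharZero (AlgebraicClosure K) := charZero_of_injective_algebraMap
      (algebraMap K (AlgebraicClosure K)).injective
    norm_num
  have hT : 0 < v 2 := zero_lt_iff.2 ((Valuation.ne_zero_iff v).2 h0)
  obtain ⟨ea, hea⟩ := hV a
  obtain ⟨eb, heb⟩ := hV b
  set e := ea + eb with he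
  have hsv : v ((2 ^ (e + 1))⁻¹) = (v 2 ^ (e + 1))⁻¹ := by
    rw [map_inv₀, map_pow]
  have hpos : 0 < v 2 ^ (e + 1) := pow_pos hT _
  -- a small estimate
  have hsmall : ∀ (c : AlgebraicClosure K) (m : ℕ), m ≤ e → v (c * 2 ^ m) ≤ 1 →
      v c < v ((2 ^ (e + 1))⁻¹) := by
    intro c m hm hc
    rw [hsv, map_mul, map_pow] at *
    have h3 : v c * v 2 ^ (e + 1) < 1 := by
      have e1 : v 2 ^ (e + 1) = v 2 ^ m * v 2 ^ (e + 1 - m) := by
        rw [← pow_add]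
        congr 1
        omega
      rw [e1, ← mul_assoc]
      calc v c * v 2 ^ m * v 2 ^ (e + 1 - m) ≤ 1 * v 2 ^ (e + 1 - m) :=
            mul_le_mul_of_nonneg_right hc zero_le
        _ = v 2 ^ (e + 1 - m) := one_mul _
        _ < 1 := pow_lt_one₀ zero_le hV2 (by omega)
    calc v c = v c * v 2 ^ (e + 1) * (v 2 ^ (e + 1))⁻¹ := by
          rw [mul_inv_cancel_right₀ hpos.ne']
      _ < 1 * (v 2 ^ (e + 1))⁻¹ := mul_lt_mul_of_pos_right h3 (inv_pos.2 hpos)
      _ = (v 2 ^ (e + 1))⁻¹ := one_mul _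
  have ha0 : v a < v ((2 ^ (e + 1))⁻¹) := hsmall a ea (by omega) hea
  have hb0 : v b < v ((2 ^ (e + 1))⁻¹) := hsmall b eb (by omega) heb
  have h10 : 1 < v ((2 ^ (e + 1))⁻¹) := by
    have := hsmall 1 0 (Nat.zero_le _) (by simp)
    rwa [map_one] at this
  obtain ⟨w0, hw0⟩ := IsAlgClosed.exists_pow_nat_eq
    (((2 ^ (e + 1))⁻¹) ^ 3 + a * (2 ^ (e + 1))⁻¹ + b : AlgebraicClosure K) (n := 2) (by norm_num)
  set E : IntermediateField K (AlgebraicClosure K) := IntermediateField.adjoin K {a, b, w0} with hE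
  have haE : a ∈ E := IntermediateField.subset_adjoin K _ (by simp)
  have hbE : b ∈ E := IntermediateField.subset_adjoin K _ (by simp)
  have hwE : w0 ∈ E := IntermediateField.subset_adjoin K _ (by simp)
  have hE2 : (2 : AlgebraicClosure K) ∈ E := by
    have := E.add_mem E.one_mem E.one_mem
    rwa [one_add_one_eq_two] at this
  have hsE : (2 ^ (e + 1) : AlgebraicClosure K)⁻¹ ∈ E := E.inv_mem (pow_mem hE2 _)
  refine ⟨E, ?_, haE, hbE, ?_⟩
  · have : Finite ({a, b, w0} : Set (AlgebraicClosure K)) := Set.Finite.to_subtype (by simp)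
    exact IntermediateField.finiteDimensional_adjoin
      (fun x _ => Algebra.IsIntegral.isIntegral x)
  · intro hfin
    have hfin' : {s : AlgebraicClosure K | s ∈ E ∧ (∃ w ∈ E, OnCubic a b s w) ∧
        v a < v s ∧ v b < v s ∧ 1 < v s}.Finite :=
      hfin.subset fun s hs => ⟨hs.1, hs.2.1⟩
    obtain ⟨s, hs, hmax⟩ := Set.exists_max_image _ (fun s => v s) hfin'
      ⟨_, hsE, ⟨w0, hwE, hw0⟩, ha0, hb0, h10⟩
    obtain ⟨hs1, ⟨w, hw1, hw2⟩, hs2, hs3, hs4⟩ := hs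
    obtain ⟨s', hs', w', hw', hc, hlt⟩ := DBL.double v hV2 h0 hs2 hs3 hs4 hw2 E.toSubfield
      haE hs1 hw1
    exact absurd (hmax s' ⟨hs', ⟨w', hw', hc⟩, hs2.trans hlt, hs3.trans hlt, hs4.trans hlt⟩)
      (not_le.2 hlt)

end Pool.MCL
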