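import Pool.Agent.Work.MP_f82ddf_cl.Interface

/-! # Block DIV (helper55): division by the equation of the cubic -/

set_option autoImplicit false

open Polynomial

namespace Pool.MCL

namespace DIV

theorem rem_form {k : Type} [Field k] (R : k[X][X]) (h : R.degree < 2) :
    R = C (R.coeff 0) + C (R.coeff 1) * X := by
  have h1 : R.degree ≤ 1 := by
    by_cases hR : R = 0
    · rw [hR, degree_zero]; exact bot_le
    · have h2 : R.natDegree < 2 := (natDegree_lt_iff_degree_lt hR).2 (by exact_mod_cast h)
      rw [degree_eq_natDegree hR]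
      have h3 : R.natDegree ≤ 1 := by omega
      exact_mod_cast h3
  rw [add_comm]
  exact eq_X_add_C_of_degree_le_one h1

end DIV

theorem p_DIV : stmt_DIV := by
  intro k _ _ _ a b H hH
  have hmon : (mu a b).Monic := mu_monic a b
  have hdeg : (mu a b).degree = 2 := by
    unfold mu
    exact degree_X_pow_sub_C (by norm_num) _
  have hdiv : H %ₘ mu a b + mu a b * (H /ₘ mu a b) = H := modByMonic_add_div H (mu a b)
  have hR : (H %ₘ mu a b).degree < 2 := by
    rw [← hdeg]
    exact degree_modByMonic_lt _ hmon
  have hform := DIV.rem_form _ hR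
  set A := (H %ₘ mu a b).coeff 0 with hA
  set B := (H %ₘ mu a b).coeff 1 with hB
  have hval : ∀ s w : k, OnCubic a b s w → A.eval s + B.eval s * w = 0 := by
    intro s w hsw
    have h1 := hH s w hsw
    rw [← hdiv, ev_add, ev_mul, ev_mu, hform, ev_add, ev_mul, ev_C, ev_C, ev_X] at h1
    have h2 : w ^ 2 - (s ^ 3 + (RingHom.id k) a * s + (RingHom.id k) b) = 0 := by
      rw [RingHom.id_apply, RingHom.id_apply, sub_eq_zero]
      exact hsw
    rw [h2, zero_mul, add_zero, eval₂_id, eval₂_id] at h1
    exact h1
  have hboth : ∀ s : k, A.eval s = 0 ∧ B.eval s ^ 2 * (s ^ 3 + a * s + b) = 0 := by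
    intro s
    obtain ⟨w, hw⟩ := IsAlgClosed.exists_pow_nat_eq (s ^ 3 + a * s + b) (n := 2) (by norm_num)
    have h1 := hval s w hw
    have h2 := hval s (-w) (by
      show (-w) ^ 2 = s ^ 3 + a * s + b
      rw [neg_sq]; exact hw)
    have h3 : A.eval s = 0 := by
      have h4 : 2 * A.eval s = 0 := by linear_combination h1 + h2
      rcases mul_eq_zero.1 h4 with h5 | h5
      · exact absurd h5 two_ne_zero
      · exact h5
    refine ⟨h3, ?_⟩
    rw [h3, zero_add] at h1
    rw [← hw, ← mul_pow, h1]
    ring
  have hA0 : A = 0 := by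
    apply Polynomial.funext
    intro s
    rw [(hboth s).1, eval_zero]
  have hB0 : B = 0 := by
    have h1 : B ^ 2 * (X ^ 3 + C a * X + C b) = 0 := by
      apply Polynomial.funext
      intro s
      rw [eval_mul, eval_pow, eval_add, eval_add, eval_pow, eval_mul, eval_X, eval_C, eval_C,
        (hboth s).2, eval_zero]
    rcases mul_eq_zero.1 h1 with h2 | h2
    · exact pow_eq_zero_iff (two_ne_zero) |>.1 h2
    · exfalso
      have h3 := congrArg (fun P : k[X] => P.coeff 3) h2
      simp [coeff_X, coeff_C] at h3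
  rw [hA0, hB0, C_0, zero_mul, add_zero] at hform
  exact (modByMonic_eq_zero_iff_dvd hmon).1 hform

end Pool.MCL
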