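import Pool.Agent.Work.MP_f82ddf_cl.Interface

/-!
# DSC: discs in the projective cubic with large derivative (helper25)
-/

open Polynomial Topology Filter Metric Set
open Pool.Agent.Work.MP_f82ddf_nt Pool.Agent.Work.MP_f82ddf_nt.DQ
open scoped Differential

namespace Pool.MCL

/-- a meromorphic function with a limit extends analytically -/
theorem DSC.ext {f : ℂ → ℂ} {c : ℂ} (hf : MeromorphicAt f 0) (hc : Tendsto f (𝓝[≠] 0) (𝓝 c)) :
    ∃ g : ℂ → ℂ, AnalyticAt ℂ g 0 ∧ g 0 = c ∧ ∀ᶠ z in 𝓝[≠] (0 : ℂ), f z = g z := by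
  have h1 : 0 ≤ meromorphicOrderAt f 0 :=
    (tendsto_nhds_iff_meromorphicOrderAt_nonneg hf).1 ⟨c, hc⟩
  obtain ⟨g, hg, hfg⟩ := hf.meromorphicOrderAt_nonneg_iff.1 h1
  refine ⟨g, hg, ?_, hfg⟩
  have h2 : Tendsto g (𝓝[≠] 0) (𝓝 (g 0)) := hg.continuousAt.tendsto.mono_left nhdsWithin_le_nhds
  have h3 : Tendsto g (𝓝[≠] 0) (𝓝 c) := hc.congr' hfg
  exact tendsto_nhds_unique h2 h3

/-- a meromorphic function on the disc which is not zero near the origin -/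
theorem DSC.ne {f : ℂ → ℂ} (hf : ∀ z ∈ ball (0 : ℂ) 1, MeromorphicAt f z)
    (h0 : ∀ᶠ z in 𝓝[≠] (0 : ℂ), f z ≠ 0) : ∀ z₀ ∈ ball (0 : ℂ) 1, ∀ᶠ z in 𝓝[≠] z₀, f z ≠ 0 := by
  intro z₀ hz₀
  have h1 : MeromorphicOn f (ball (0 : ℂ) 1) := fun z hz => hf z hz
  have h00 : (0 : ℂ) ∈ ball (0 : ℂ) 1 := mem_ball_self one_pos
  have h2 := h1.meromorphicOrderAt_ne_top_of_isPreconnected
    (convex_ball (0 : ℂ) 1).isPreconnected h00 hz₀
    ((meromorphicOrderAt_ne_top_iff_eventually_ne_zero (hf 0 h00)).2 h0)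
  exact (meromorphicOrderAt_ne_top_iff_eventually_ne_zero (hf z₀ hz₀)).1 h2

/-- two local lifts are proportional -/
theorem DSC.cross {n : ℕ} {f : Fin (n + 1) → ℂ → ℂ} {u u' : ℂ → ℂ} {g g' : ℂ → Fin (n + 1) → ℂ}
    {z₀ : ℂ} (hg : AnalyticAt ℂ g z₀) (hg' : AnalyticAt ℂ g' z₀)
    (h : ∀ᶠ z in 𝓝[≠] z₀, u z ≠ 0 ∧ ∀ j, f j z = u z * g z j)
    (h' : ∀ᶠ z in 𝓝[≠] z₀, u' z ≠ 0 ∧ ∀ j, f j z = u' z * g' z j) :
    ∀ᶠ z in 𝓝 z₀, ∀ j k, g z j * g' z k = g z k * g' z j := by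
  refine eventually_all.2 fun j => eventually_all.2 fun k => ?_
  have h5 : ∀ᶠ y in 𝓝[≠] z₀, g y j * g' y k = g y k * g' y j := by
    filter_upwards [h, h'] with y h6 h7
    have h8 : u y * g y j = u' y * g' y j := (h6.2 j).symm.trans (h7.2 j)
    have h9 : u y * g y k = u' y * g' y k := (h6.2 k).symm.trans (h7.2 k)
    apply mul_left_cancel₀ (mul_ne_zero h6.1 h7.1)
    linear_combination (u' y * g' y k) * h8 - (u' y * g' y j) * h9
  exact eq_of_punctured (((analyticAt_pi_iff.1 hg) j).mul ((analyticAt_pi_iff.1 hg') k))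
    (((analyticAt_pi_iff.1 hg) k).mul ((analyticAt_pi_iff.1 hg') j)) h5

/-- proportional vectors give the same point -/
theorem DSC.mk_eq {n : ℕ} {v v' : Fin (n + 1) → ℂ} (hv : v ≠ 0) (hv' : v' ≠ 0)
    (h : ∀ j k, v j * v' k = v k * v' j) :
    Projectivization.mk ℂ v hv = Projectivization.mk ℂ v' hv' := by
  obtain ⟨k, hk⟩ : ∃ k, v' k ≠ 0 := by
    by_contra hcon
    push Not at hcon
    exact hv' (funext hcon)
  rw [Projectivization.mk_eq_mk_iff']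
  refine ⟨v k / v' k, ?_⟩
  funext j
  rw [Pi.smul_apply, smul_eq_mul, div_mul_eq_mul_div, div_eq_iff hk]
  exact (h j k).symm

theorem DSC.hom (a b : ℂ) : ∀ F ∈ cubicSet a b, ∃ e, F.IsHomogeneous e := by
  intro F hF
  refine ⟨3, ?_⟩
  rw [cubicSet, Set.mem_singleton_iff] at hF
  rw [hF]
  have h0 := MvPolynomial.isHomogeneous_X (R := ℂ) (0 : Fin 3)
  have h1 := MvPolynomial.isHomogeneous_X (R := ℂ) (1 : Fin 3)
  have h2 := MvPolynomial.isHomogeneous_X (R := ℂ) (2 : Fin 3)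
  have ha := MvPolynomial.isHomogeneous_C (Fin 3) a
  have hb := MvPolynomial.isHomogeneous_C (Fin 3) b
  have e1 := (h1.pow 2).mul h2
  have e2 := h0.pow 3
  have e3 := (ha.mul h0).mul (h2.pow 2)
  have e4 := hb.mul (h2.pow 3)
  exact ((e1.sub e2).sub e3).sub e4

theorem p_DSC (hSEQ : stmt_SEQ) : stmt_DSC := by
  intro a b N
  obtain ⟨s, w, α, hα, hmero, heq, hs, hw⟩ := hSEQ a b N
  have hα0 : (0 : ℝ) < α := lt_of_le_of_lt (Nat.cast_nonneg N) hα
  have hαc : (α : ℂ) ≠ 0 := by exact_mod_cast hα0.ne'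
  have h00 : (0 : ℂ) ∈ ball (0 : ℂ) 1 := mem_ball_self one_pos
  -- near the origin `s` and `w` are not zero
  have hs0 : ∀ᶠ z in 𝓝[≠] (0 : ℂ), s z ≠ 0 := by
    filter_upwards [hs.eventually_ne (inv_ne_zero (pow_ne_zero 2 hαc))] with z hz hcon
    rw [hcon, mul_zero] at hz
    exact hz rfl
  have hw0 : ∀ᶠ z in 𝓝[≠] (0 : ℂ), w z ≠ 0 := by
    filter_upwards [hw.eventually_ne (inv_ne_zero (pow_ne_zero 3 hαc))] with z hz hcon
    rw [hcon, mul_zero] at hz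
    exact hz rfl
  have hsne := DSC.ne (fun z hz => (hmero z hz).1) hs0
  have hwne := DSC.ne (fun z hz => (hmero z hz).2) hw0
  obtain ⟨f, hfd⟩ : ∃ f : Fin 3 → ℂ → ℂ, f = ![s, w, fun _ => 1] := ⟨_, rfl⟩
  have hf0 : f 0 = s := by rw [hfd]; rfl
  have hf1 : f 1 = w := by rw [hfd]; rfl
  have hf2 : f 2 = fun _ => 1 := by rw [hfd]; rfl
  -- local lifts
  have hloc : ∀ z₀ : ℂ, ∃ (u : ℂ → ℂ) (g : ℂ → Fin (2 + 1) → ℂ), (∀ z, g z ≠ 0) ∧
      (z₀ ∈ ball (0 : ℂ) 1 → AnalyticAt ℂ g z₀ ∧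
        ∀ᶠ z in 𝓝[≠] z₀, u z ≠ 0 ∧ ∀ j, f j z = u z * g z j) := by
    intro z₀
    by_cases hz₀ : z₀ ∈ ball (0 : ℂ) 1
    · have hm : ∀ j, MeromorphicAt (f j) z₀ := by
        intro j
        fin_cases j
        · exact (hf0 ▸ (hmero z₀ hz₀).1 : MeromorphicAt (f 0) z₀)
        · exact (hf1 ▸ (hmero z₀ hz₀).2 : MeromorphicAt (f 1) z₀)
        · exact (hf2 ▸ MeromorphicAt.const 1 z₀ : MeromorphicAt (f 2) z₀)
      have hn : ∀ j, ∀ᶠ z in 𝓝[≠] z₀, f j z ≠ 0 := by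
        intro j
        fin_cases j
        · exact (hf0 ▸ hsne z₀ hz₀ : ∀ᶠ z in 𝓝[≠] z₀, f 0 z ≠ 0)
        · exact (hf1 ▸ hwne z₀ hz₀ : ∀ᶠ z in 𝓝[≠] z₀, f 1 z ≠ 0)
        · exact (hf2 ▸ Eventually.of_forall (fun _ => one_ne_zero) :
            ∀ᶠ z in 𝓝[≠] z₀, f 2 z ≠ 0)
      obtain ⟨J, h, h1, h2, h3⟩ := local_rep f z₀ hm hn
      refine ⟨f J, fun z j => h j z, ?_, fun _ => ⟨?_, ?_⟩⟩
      · intro z hz
        have h4 := congrFun hz J
        have h5 : h J z = 1 := congrFun h2 z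
        simp only [Pi.zero_apply] at h4
        rw [h5] at h4
        exact one_ne_zero h4
      · exact analyticAt_pi_iff.2 fun j => h1 j
      · filter_upwards [h3, hn J] with z h5 h6
        exact ⟨h6, h5⟩
    · refine ⟨fun _ => 1, fun _ _ => 1, ?_, fun h => absurd h hz₀⟩
      intro z hz
      exact one_ne_zero (congrFun hz 0)
  choose u g hg0 hgu using hloc
  obtain ⟨Φ, hΦ⟩ : ∃ Φ : ℂ → PSpace ℂ 2, ∀ z, Φ z = Projectivization.mk ℂ (g z z) (hg0 z z) :=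
    ⟨_, fun _ => rfl⟩
  -- every local lift is a lift of `Φ`
  have hlift : ∀ z₀ ∈ ball (0 : ℂ) 1, ∀ (v : ℂ → ℂ) (G : ℂ → Fin (2 + 1) → ℂ),
      AnalyticAt ℂ G z₀ → G z₀ ≠ 0 → (∀ᶠ z in 𝓝[≠] z₀, v z ≠ 0 ∧ ∀ j, f j z = v z * G z j) →
      IsLift Φ G z₀ := by
    intro z₀ hz₀ v G hG hG0 hv
    refine ⟨hG, ?_⟩
    have hGne : ∀ᶠ z in 𝓝 z₀, G z ≠ 0 := hG.continuousAt.eventually_ne hG0
    have h1 : ∀ᶠ z in 𝓝[≠] z₀, ∃ h : G z ≠ 0, Φ z = Projectivization.mk ℂ (G z) h := by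
      filter_upwards [ev_ev hv, nhdsWithin_le_nhds hG.eventually_analyticAt,
        nhdsWithin_le_nhds hGne, nhdsWithin_le_nhds (isOpen_ball.mem_nhds hz₀)] with z h2 h3 h4 h5
      refine ⟨h4, ?_⟩
      rw [hΦ]
      obtain ⟨h6, h7⟩ := hgu z h5
      exact DSC.mk_eq _ _
        (DSC.cross h6 h3 h7 (h2.filter_mono nhdsWithin_le_nhds)).self_of_nhds
    rw [← nhdsNE_sup_pure, eventually_sup]
    refine ⟨h1, ?_⟩
    rw [eventually_pure]
    refine ⟨hG0, ?_⟩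
    rw [hΦ]
    obtain ⟨h6, h7⟩ := hgu z₀ hz₀
    exact DSC.mk_eq _ _ (DSC.cross h6 hG h7 hv).self_of_nhds
  refine ⟨Φ, ?_, ?_, ?_⟩
  · intro z₀ hz₀
    obtain ⟨h1, h2⟩ := hgu z₀ hz₀
    obtain ⟨h3, h4⟩ := hlift z₀ hz₀ (u z₀) (g z₀) h1 (hg0 z₀ z₀) h2
    exact ⟨g z₀, h3, h4⟩
  · intro z₀ hz₀
    obtain ⟨hga, hug⟩ := hgu z₀ hz₀
    rw [hΦ]
    refine mk_mem_complexPoints (DSC.hom a b) (RingHom.id ℂ) _ _ fun F hF => ?_
    obtain ⟨e, he⟩ := DSC.hom a b F hF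
    have h1 : ∀ᶠ z in 𝓝[≠] z₀, MvPolynomial.eval₂ (RingHom.id ℂ) (g z₀ z) F = 0 := by
      filter_upwards [heq z₀ hz₀, hug] with z h2 h3
      have h4 : (fun j => f j z) = u z₀ z • g z₀ z := by
        funext j
        exact h3.2 j
      have h6 : MvPolynomial.eval₂ (RingHom.id ℂ) (fun j => f j z) F = 0 := by
        rw [cubicSet, Set.mem_singleton_iff] at hF
        rw [hF]
        simp only [MvPolynomial.eval₂_sub, MvPolynomial.eval₂_mul, MvPolynomial.eval₂_pow,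
          MvPolynomial.eval₂_X, MvPolynomial.eval₂_C, hf0, hf1, hf2, RingHom.id_apply]
        linear_combination h2
      rw [h4, eval₂_smul_hom he] at h6
      rcases mul_eq_zero.1 h6 with h5 | h5
      · exact absurd h5 (pow_ne_zero _ h3.1)
      · exact h5
    have h2 : AnalyticAt ℂ (fun z => MvPolynomial.eval₂ (RingHom.id ℂ) (g z₀ z) F) z₀ := by
      have h3 : (fun z => MvPolynomial.eval₂ (RingHom.id ℂ) (g z₀ z) F) =
          fun z => ∑ m ∈ F.support, (RingHom.id ℂ) (MvPolynomial.coeff m F) *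
            ∏ i, g z₀ z i ^ m i := by
        funext z
        rw [MvPolynomial.eval₂_eq']
      rw [h3]
      refine Finset.analyticAt_fun_sum _ fun m _ => ?_
      refine AnalyticAt.mul analyticAt_const ?_
      refine Finset.analyticAt_fun_prod _ fun i _ => ?_
      exact ((analyticAt_pi_iff.1 hga) i).pow _
    exact (eq_of_punctured h2 analyticAt_const h1).self_of_nhds
  · -- the derivative at the origin
    obtain ⟨hms, hmw⟩ := hmero 0 h00
    have hz2 : MeromorphicAt (fun z : ℂ => z ^ 2) 0 := by fun_prop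
    have hz3 : MeromorphicAt (fun z : ℂ => z ^ 3) 0 := by fun_prop
    have hm2 : MeromorphicAt (fun z : ℂ => z ^ 2 * s z) 0 := hz2.mul hms
    have hm3 : MeromorphicAt (fun z : ℂ => z ^ 3 * w z) 0 := hz3.mul hmw
    have hm4 : MeromorphicAt (fun z : ℂ => (z ^ 2 * s z) / (z ^ 3 * w z)) 0 := hm2.div hm3
    have hm5 : MeromorphicAt (fun z : ℂ => (z ^ 3 * w z)⁻¹) 0 := hm3.inv
    have ht4 : Tendsto (fun z : ℂ => (z ^ 2 * s z) / (z ^ 3 * w z)) (𝓝[≠] 0) (𝓝 (α : ℂ)) := by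
      have h1 := hs.div hw (inv_ne_zero (pow_ne_zero 3 hαc))
      have h2 : ((α : ℂ) ^ 2)⁻¹ / ((α : ℂ) ^ 3)⁻¹ = α := by
        field_simp
      rw [h2] at h1
      exact h1
    have ht5 : Tendsto (fun z : ℂ => (z ^ 3 * w z)⁻¹) (𝓝[≠] 0) (𝓝 ((α : ℂ) ^ 3)) := by
      have h1 := hw.inv₀ (inv_ne_zero (pow_ne_zero 3 hαc))
      rw [inv_inv] at h1
      exact h1
    have hz0 : ∀ᶠ z in 𝓝[≠] (0 : ℂ), z ≠ 0 := self_mem_nhdsWithin
    obtain ⟨r, hr, hr0, hrs⟩ := DSC.ext hm4 ht4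
    obtain ⟨v, hv, hv0, hvs⟩ := DSC.ext hm5 ht5
    obtain ⟨G, hGd⟩ : ∃ G : ℂ → Fin (2 + 1) → ℂ, G = fun z => ![z * r z, 1, z ^ 3 * v z] :=
      ⟨_, rfl⟩
    have hG0 : G 0 = ![0, 1, 0] := by
      rw [hGd]
      simp
    have hGa : AnalyticAt ℂ G 0 := by
      rw [hGd]
      refine analyticAt_pi_iff.2 fun j => ?_
      fin_cases j
      · exact analyticAt_id.mul hr
      · exact analyticAt_const
      · exact (analyticAt_id.pow 3).mul hv
    have hGne : G 0 ≠ 0 := by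
      rw [hG0]
      intro h
      have := congrFun h 1
      simp at this
    have hGl : IsLift Φ G 0 := by
      refine hlift 0 h00 w G hGa hGne ?_
      filter_upwards [hrs, hvs, hw0, hz0] with z h1 h2 h3 h4
      refine ⟨h3, ?_⟩
      intro j
      rw [hGd]
      fin_cases j
      · change f 0 z = w z * (z * r z)
        rw [hf0, ← h1]
        field_simp
      · change f 1 z = w z * 1
        rw [hf1, mul_one]
      · change f 2 z = w z * (z ^ 3 * v z)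
        rw [hf2, ← h2]
        field_simp
    rw [sp_eq hGl]
    have hGder : HasDerivAt G ![(α : ℂ), 0, 0] 0 := by
      rw [hasDerivAt_pi]
      intro j
      rw [hGd]
      fin_cases j
      · change HasDerivAt (fun z => z * r z) (α : ℂ) 0
        have h1 := (hasDerivAt_id (0 : ℂ)).mul hr.differentiableAt.hasDerivAt
        simp only [id_eq, one_mul, zero_mul, add_zero, hr0] at h1
        exact h1
      · exact hasDerivAt_const _ _
      · change HasDerivAt (fun z => z ^ 3 * v z) (0 : ℂ) 0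
        have h1 := (hasDerivAt_pow 3 (0 : ℂ)).fun_mul hv.differentiableAt.hasDerivAt
        have h2 : (3 : ℕ) * (0 : ℂ) ^ (3 - 1) * v 0 + (0 : ℂ) ^ 3 * deriv v 0 = 0 := by
          norm_num
        rw [h2] at h1
        exact h1
    have hnorm : ‖G 0‖ = 1 := by
      rw [hG0]
      refine le_antisymm ?_ ?_
      · rw [pi_norm_le_iff_of_nonneg zero_le_one]
        intro j
        fin_cases j
        · simp
        · simp
        · simp
      · have h1 := norm_le_pi_norm (![0, 1, 0] : Fin (2 + 1) → ℂ) 1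
        simpa using h1
    unfold sd
    rw [hnorm, hGder.deriv, one_pow, div_one]
    have h1 := norm_le_pi_norm (fun ij : Fin (2 + 1) × Fin (2 + 1) =>
      G 0 ij.1 * (![(α : ℂ), 0, 0] : Fin (2 + 1) → ℂ) ij.2 -
        G 0 ij.2 * (![(α : ℂ), 0, 0] : Fin (2 + 1) → ℂ) ij.1) (1, 0)
    refine lt_of_lt_of_le ?_ h1
    rw [hG0]
    simp only [Matrix.cons_val_one, Matrix.cons_val_zero, one_mul, zero_mul, sub_zero]
    rw [Complex.norm_real, Real.norm_eq_abs, abs_of_pos hα0]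
    exact hα

end Pool.MCL
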