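import Pool.Agent.Work.MP_f82ddf_cl.Interface

/-!
# Block DVR: the local rings of `IntC x` are valuation rings
-/

open Polynomial Topology Filter Metric Set
open Pool.Agent.Work.MP_f82ddf_nt Pool.Agent.Work.MP_f82ddf_nt.DQ
open scoped Differential

namespace Pool.MCL

namespace DVR

/-- the ring `ℂ[x]` is a principal ideal domain -/
private theorem pid {M : Type} [Field M] [Algebra ℂ M] (x : M) :
    IsPrincipalIdealRing (Px x) := by
  have h : (Px x) = (aeval x : ℂ[X] →ₐ[ℂ] M).range := Algebra.adjoin_singleton_eq_range_aeval ℂ x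
  have hsurj : Function.Surjective
      (((Subalgebra.equivOfEq _ _ h.symm).toAlgHom.comp (aeval x : ℂ[X] →ₐ[ℂ] M).rangeRestrict)) := by
    intro y
    obtain ⟨z, hz⟩ := (Subalgebra.equivOfEq _ _ h.symm).surjective y
    obtain ⟨p, hp⟩ := (aeval x : ℂ[X] →ₐ[ℂ] M).rangeRestrict_surjective z
    exact ⟨p, by rw [AlgHom.comp_apply, hp]; exact hz⟩
  exact IsPrincipalIdealRing.of_surjective
    ((Subalgebra.equivOfEq _ _ h.symm).toAlgHom.comp (aeval x : ℂ[X] →ₐ[ℂ] M).rangeRestrict).toRingHom
    hsurj

/-- in the localisation of a Dedekind domain one of two elements divides the other -/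
private theorem dvd_or {B : Type} [CommRing B] [IsDedekindDomain B] (P : Ideal B)
    [hP : P.IsPrime] (hP0 : P ≠ ⊥) (a b : B) :
    (∃ s c : B, s ∉ P ∧ s * b = a * c) ∨ (∃ s c : B, s ∉ P ∧ s * a = b * c) := by
  have hd : IsDiscreteValuationRing (Localization.AtPrime P) :=
    IsLocalization.AtPrime.isDiscreteValuationRing_of_dedekind_domain B hP0 _
  have key : ∀ a b : B, algebraMap B (Localization.AtPrime P) a ∣ algebraMap B (Localization.AtPrime P) b →
      ∃ s c : B, s ∉ P ∧ s * b = a * c := by
    intro a b hab
    obtain ⟨q, hq⟩ := hab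
    obtain ⟨c, s, rfl⟩ := IsLocalization.exists_mk'_eq P.primeCompl q
    refine ⟨s, c, s.2, ?_⟩
    have hinj : Function.Injective (algebraMap B (Localization.AtPrime P)) :=
      IsLocalization.injective _ P.primeCompl_le_nonZeroDivisors
    apply hinj
    rw [map_mul, map_mul, hq]
    have h2 := IsLocalization.mk'_spec (Localization.AtPrime P) c s
    calc algebraMap B (Localization.AtPrime P) s *
          (algebraMap B (Localization.AtPrime P) a * IsLocalization.mk' (Localization.AtPrime P) c s)
        = algebraMap B (Localization.AtPrime P) a *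
          (IsLocalization.mk' (Localization.AtPrime P) c s * algebraMap B (Localization.AtPrime P) s) := by
            ring
      _ = _ := by rw [h2]
  rcases ValuationRing.dvd_total (algebraMap B (Localization.AtPrime P) a)
    (algebraMap B (Localization.AtPrime P) b) with h | h
  · exact Or.inl (key a b h)
  · exact Or.inr (key b a h)

open IntermediateField.algebraAdjoinAdjoin in
/-- the integral closure is a Dedekind domain with fraction field `M` -/
private theorem ded {M : Type} [Field M] [Algebra ℂ M] (x : M) (hx : FF x) :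
    IsDedekindDomain (integralClosure (Px x) M) ∧ IsFractionRing (integralClosure (Px x) M) M := by
  have h1 := pid x
  have h2 : FiniteDimensional (Fx x) M := hx.2
  have h3 : Algebra.IsSeparable (Fx x) M := inferInstance
  exact ⟨integralClosure.isDedekindDomain (Px x) (Fx x) M,
    integralClosure.isFractionRing_of_finite_extension (Fx x) M⟩

end DVR

theorem p_DVR : stmt_DVR := by
  intro M _ _ x hx 𝔓 hmax hbot y
  obtain ⟨hD, hF⟩ := DVR.ded x hx
  let B := integralClosure (Px x) M
  let e : IntC x ≃+* B :=
    { toFun := fun z => ⟨z.1, z.2⟩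
      invFun := fun z => ⟨z.1, z.2⟩
      left_inv := fun _ => rfl
      right_inv := fun _ => rfl
      map_mul' := fun _ _ => rfl
      map_add' := fun _ _ => rfl }
  let P : Ideal B := 𝔓.comap e.symm.toRingHom
  have hPp : P.IsPrime := by
    have := hmax.isPrime
    exact Ideal.comap_isPrime _ _
  have hP0 : P ≠ ⊥ := by
    obtain ⟨z, hz, hz0⟩ := Submodule.exists_mem_ne_zero_of_ne_bot hbot
    intro h
    have h1 : e z ∈ P := by
      change e.symm (e z) ∈ 𝔓
      rw [e.symm_apply_apply]
      exact hz
    rw [h, Ideal.mem_bot] at h1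
    exact hz0 ((map_eq_zero_iff e e.injective).1 h1)
  obtain ⟨a, b, hb, hab⟩ := IsFractionRing.div_surjective (A := B) y
  have hb0 : (b : M) ≠ 0 := by
    intro h
    exact nonZeroDivisors.ne_zero hb (Subtype.ext h)
  have hab' : y * (b : M) = a := by
    rw [← hab]
    exact div_mul_cancel₀ _ hb0
  rcases DVR.dvd_or P hP0 a b with ⟨s, c, hs, h⟩ | ⟨s, c, hs, h⟩
  · -- `s b = a c`: `c y = s`
    right
    refine ⟨e.symm c, e.symm s, hs, ?_⟩
    have h' : (s : M) * b = a * c := congrArg Subtype.val h
    change (c : M) * y = s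
    apply mul_right_cancel₀ hb0
    rw [h', mul_assoc, hab', mul_comm]
  · have h' : (s : M) * a = b * c := congrArg Subtype.val h
    have h2 : (s : M) * y = c := by
      apply mul_right_cancel₀ hb0
      rw [mul_assoc, hab', h', mul_comm]
    by_cases hc : c ∈ P
    · exact Or.inl ⟨e.symm s, hs, e.symm c, hc, h2⟩
    · exact Or.inr ⟨e.symm s, e.symm c, hc, h2⟩

end Pool.MCL
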