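import Pool.Agent.Work.MP_f82ddf_cl.Interface

set_option autoImplicit false

open Polynomial Topology Filter Metric Set
open Pool.Agent.Work.MP_f82ddf_nt Pool.Agent.Work.MP_f82ddf_nt.DQ
open scoped Differential

namespace Pool.MCL

theorem ECU_hom (a b : ℂ) : ∀ F ∈ cubicSet a b, ∃ e, F.IsHomogeneous e := by
  intro F hF
  have hF' : F = MvPolynomial.X 1 ^ 2 * MvPolynomial.X 2 - MvPolynomial.X 0 ^ 3 -
    MvPolynomial.C a * MvPolynomial.X 0 * MvPolynomial.X 2 ^ 2 -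
    MvPolynomial.C b * MvPolynomial.X 2 ^ 3 := hF
  refine ⟨3, ?_⟩
  rw [hF']
  have hX : ∀ i : Fin 3, (MvPolynomial.X i : MvPolynomial (Fin 3) ℂ).IsHomogeneous 1 :=
    fun i => MvPolynomial.isHomogeneous_X ℂ i
  have h1 : (MvPolynomial.X 1 ^ 2 * MvPolynomial.X 2 : MvPolynomial (Fin 3) ℂ).IsHomogeneous 3 :=
    ((hX 1).pow 2).mul (hX 2)
  have h2 : (MvPolynomial.X 0 ^ 3 : MvPolynomial (Fin 3) ℂ).IsHomogeneous 3 := (hX 0).pow 3
  have h3 : (MvPolynomial.C a * MvPolynomial.X 0 * MvPolynomial.X 2 ^ 2 :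
      MvPolynomial (Fin 3) ℂ).IsHomogeneous 3 :=
    ((MvPolynomial.isHomogeneous_C (Fin 3) a).mul (hX 0)).mul ((hX 2).pow 2)
  have h4 : (MvPolynomial.C b * MvPolynomial.X 2 ^ 3 :
      MvPolynomial (Fin 3) ℂ).IsHomogeneous 3 := by
    have := (MvPolynomial.isHomogeneous_C (Fin 3) b).mul ((hX 2).pow 3)
    simpa using this
  exact ((h1.sub h2).sub h3).sub h4

theorem p_ECU (hB : stmt_BRU) (hD : stmt_DSC) : stmt_ECU := by
  intro a b
  obtain ⟨f, hf, hfX, u, v, huv⟩ := hB ℂ 2 (cubicSet a b) (ECU_hom a b) (RingHom.id ℂ) (hD a b)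
  obtain ⟨φ, hφ, i, hi, hF, _, hnc⟩ := exists_mer_of_curve (ECU_hom a b) (RingHom.id ℂ) f hf hfX
  obtain ⟨l, hl⟩ := hnc ⟨u, v, huv⟩
  set y : Fin 3 → Mer := fun j => Mer.mk (φ j) (hφ j) with hy
  have hyi : y i = 1 := hi
  have hyl : ∀ c : ℂ, y l ≠ algebraMap ℂ Mer c := hl
  have hF0 := hF _ (show (MvPolynomial.X 1 ^ 2 * MvPolynomial.X 2 - MvPolynomial.X 0 ^ 3 -
    MvPolynomial.C a * MvPolynomial.X 0 * MvPolynomial.X 2 ^ 2 -
    MvPolynomial.C b * MvPolynomial.X 2 ^ 3 : MvPolynomial (Fin 3) ℂ) ∈ cubicSet a b from rfl)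
  simp only [MvPolynomial.eval₂_sub, MvPolynomial.eval₂_mul, MvPolynomial.eval₂_pow,
    MvPolynomial.eval₂_X, MvPolynomial.eval₂_C, RingHom.comp_id] at hF0
  have hE : y 1 ^ 2 * y 2 - y 0 ^ 3 - algebraMap ℂ Mer a * y 0 * y 2 ^ 2 -
      algebraMap ℂ Mer b * y 2 ^ 3 = 0 := hF0
  clear_value y
  -- a common argument
  have key : ∀ z : Mer, (∀ j, ∃ m : ℂ, y j = algebraMap ℂ Mer m * z) → False := by
    intro z hz
    choose m hm using hz
    have h1 := hm i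
    rw [hyi] at h1
    have hmi : m i ≠ 0 := by
      intro h
      rw [h, map_zero, zero_mul] at h1
      exact one_ne_zero h1
    have hz : z = algebraMap ℂ Mer (m i)⁻¹ := by
      rw [map_inv₀]
      exact eq_inv_of_mul_eq_one_right h1.symm
    apply hyl (m l * (m i)⁻¹)
    rw [hm l, hz, ← map_mul]
  have hy2 : y 2 ≠ 0 := by
    intro h2
    rw [h2] at hE
    have h0 : y 0 = 0 := by
      have : y 0 ^ 3 = 0 := by linear_combination -hE
      exact pow_eq_zero_iff (by norm_num) |>.1 this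
    apply key (y 1)
    intro j
    fin_cases j
    · exact ⟨0, by simpa using h0⟩
    · exact ⟨1, by simp⟩
    · exact ⟨0, by simpa using h2⟩
  have hC : OnCubic (algebraMap ℂ Mer a) (algebraMap ℂ Mer b) (y 0 / y 2) (y 1 / y 2) := by
    unfold OnCubic
    field_simp
    linear_combination hE
  refine ⟨y 0 / y 2, y 1 / y 2, hC, ?_⟩
  intro c hc
  unfold OnCubic at hC
  rw [hc] at hC
  obtain ⟨e, he⟩ := IsAlgClosed.exists_pow_nat_eq (c ^ 3 + a * c + b) (n := 2) (by norm_num)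
  have h1 : (y 1 / y 2 - algebraMap ℂ Mer e) * (y 1 / y 2 + algebraMap ℂ Mer e) = 0 := by
    have h2 : algebraMap ℂ Mer e ^ 2 = algebraMap ℂ Mer c ^ 3 +
        algebraMap ℂ Mer a * algebraMap ℂ Mer c + algebraMap ℂ Mer b := by
      rw [← map_pow, he]
      simp
    linear_combination hC - h2
  have h3 : ∃ e' : ℂ, y 1 / y 2 = algebraMap ℂ Mer e' := by
    rcases mul_eq_zero.1 h1 with h | h
    · exact ⟨e, by linear_combination h⟩
    · exact ⟨-e, by rw [map_neg]; linear_combination h⟩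
  obtain ⟨e', he'⟩ := h3
  apply key (y 2)
  intro j
  fin_cases j
  · exact ⟨c, by rw [← hc]; exact (div_mul_cancel₀ _ hy2).symm⟩
  · exact ⟨e', by rw [← he']; exact (div_mul_cancel₀ _ hy2).symm⟩
  · exact ⟨1, by rw [map_one, one_mul]; rfl⟩

end Pool.MCL
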