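import Pool.Agent.Work.MP_f82ddf_cl.Interface

/-! # Block FREE (helper30) -/

set_option autoImplicit false

open Polynomial Topology Filter Metric Set
open Pool.Agent.Work.MP_f82ddf_nt Pool.Agent.Work.MP_f82ddf_nt.DQ
open scoped Differential

namespace Pool.MCL

namespace FREE

open scoped IntermediateField.algebraAdjoinAdjoin

theorem mem_Px {M : Type} [Field M] [Algebra ℂ M] {x y : M} :
    y ∈ Px x ↔ ∃ c : ℂ[X], aeval x c = y := by
  show y ∈ Algebra.adjoin ℂ {x} ↔ _
  rw [Algebra.adjoin_singleton_eq_range_aeval]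
  exact Iff.rfl

theorem pid {M : Type} [Field M] [Algebra ℂ M] (x : M) : IsPrincipalIdealRing (Px x) := by
  let f : ℂ[X] →+* Px x := ((aeval x).codRestrict (Px x) fun c => mem_Px.2 ⟨c, rfl⟩).toRingHom
  have hf : Function.Surjective f := by
    intro y
    obtain ⟨c, hc⟩ := mem_Px.1 y.2
    exact ⟨c, Subtype.ext hc⟩
  exact IsPrincipalIdealRing.of_surjective f hf

theorem basis {M : Type} [Field M] [Algebra ℂ M] (x : M) (hf : FF x) :
    Nonempty (Module.Basis (Fin (dg x)) (Px x) (integralClosure (Px x) M)) := by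
  obtain ⟨hx, hfin⟩ := hf
  have := hfin
  have := pid x
  have h0 : CharZero (Fx x) := algebraRat.charZero _
  have h1 : Algebra.IsSeparable (Fx x) M := inferInstance
  have h2 : Module.Free (Px x) (integralClosure (Px x) M) :=
    IsIntegralClosure.module_free (Px x) (Fx x) M (integralClosure (Px x) M)
  have h3 : IsNoetherian (Px x) (integralClosure (Px x) M) :=
    IsIntegralClosure.isNoetherian (Px x) (Fx x) M (integralClosure (Px x) M)
  have h4 : Module.finrank (Px x) (integralClosure (Px x) M) = dg x :=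
    IsIntegralClosure.rank (Px x) (Fx x) M (integralClosure (Px x) M)
  exact ⟨Module.finBasisOfFinrankEq _ _ h4⟩

end FREE

theorem p_FREE : stmt_FREE := by
  intro M _ _ x hf
  obtain ⟨b⟩ := FREE.basis x hf
  have hpx : ∀ y : Px x, ∃ c : ℂ[X], aeval x c = (y : M) := by
    intro y
    exact FREE.mem_Px.1 y.2
  have hax : ∀ c : ℂ[X], aeval x c ∈ Px x := by
    intro c
    exact FREE.mem_Px.2 ⟨c, rfl⟩
  refine ⟨fun i => (b i : M), ?_, ?_, ?_⟩
  · intro i
    exact mem_IntC.2 (b i).2
  · intro r hr
    have hr' : r ∈ integralClosure (Px x) M := mem_IntC.1 hr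
    choose c hc using fun i => hpx (b.repr ⟨r, hr'⟩ i)
    refine ⟨c, ?_⟩
    have h1 := congrArg (fun y : integralClosure (Px x) M => (y : M)) (b.sum_repr ⟨r, hr'⟩)
    simp only at h1
    rw [← h1]
    rw [AddSubmonoidClass.coe_finsetSum]
    refine Finset.sum_congr rfl fun i _ => ?_
    rw [hc]
    rfl
  · intro c hc i
    have h1 : ∑ i, (⟨aeval x (c i), hax (c i)⟩ : Px x) • b i = 0 := by
      apply Subtype.ext
      rw [AddSubmonoidClass.coe_finsetSum]
      exact hc
    have h2 := Fintype.linearIndependent_iff.1 b.linearIndependent _ h1 i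
    have h3 : aeval x (c i) = 0 := congrArg Subtype.val h2
    exact transcendental_iff.1 hf.1 _ h3

end Pool.MCL
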