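import Pool.Agent.Work.MP_f82ddf_cl.Interface

/-!
# Block IND (helper52): functions on the cubic
-/

open Polynomial

namespace Pool.MCL

theorem p_IND (h1 : stmt_ODD) : stmt_IND := by
  intro k R _ _ _ a b s w A B hs hc h
  refine h1 k a b A B ?_
  have hi : Function.Injective (aeval s : k[X] →ₐ[k] R) := transcendental_iff_injective.1 hs
  apply hi
  unfold OnCubic at hc
  have e1 : aeval s A = -(aeval s B * w) := eq_neg_of_add_eq_zero_left h
  rw [map_mul, map_pow, map_pow, map_add, map_add, map_mul, map_pow, aeval_X, aeval_C, aeval_C,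
    e1, neg_sq, mul_pow, hc]

end Pool.MCL
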