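import Pool.Agent.Work.MP_f82ddf_cl.Interface
import Pool.Agent.Work.MP_f82ddf_nt.Core

/-!
# INF: infinitely many points over a number field
-/

set_option autoImplicit false

open Polynomial Topology Filter Metric Set
open Pool.Agent.Work.MP_f82ddf_nt Pool.Agent.Work.MP_f82ddf_nt.DQ
open scoped Differential

namespace Pool.MCL.INF

/-- A function `A(s) + B(s) w` which vanishes at infinitely many points of the cubic with
different `s` is zero. -/
theorem zero_of_inf (hODD : stmt_ODD) {k : Type} [Field k] {a b : k} {A B : k[X]}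
    (h : {s : k | ∃ w, OnCubic a b s w ∧ A.eval s + B.eval s * w = 0}.Infinite) :
    A = 0 ∧ B = 0 := by
  have h1 : A ^ 2 - B ^ 2 * (X ^ 3 + C a * X + C b) = 0 := by
    apply eq_zero_of_infinite_isRoot
    refine h.mono ?_
    rintro s ⟨w, hw, h0⟩
    show (A ^ 2 - B ^ 2 * (X ^ 3 + C a * X + C b)).eval s = 0
    simp only [eval_sub, eval_pow, eval_mul, eval_add, eval_X, eval_C]
    have h2 : A.eval s = -(B.eval s * w) := by linear_combination h0
    unfold OnCubic at hw
    rw [h2, ← hw]
    ring
  exact hODD k a b A B (sub_eq_zero.1 h1)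

/-- Values of polynomials with coefficients in a subfield. -/
theorem eval_mem {K k : Type} [Field K] [Field k] [Algebra K k] {E : IntermediateField K k}
    {P : k[X]} (hP : ∀ c ∈ P.coeffs, c ∈ E) {s : k} (hs : s ∈ E) : P.eval s ∈ E := by
  rw [eval_eq_sum_range]
  refine sum_mem fun i _ => mul_mem ?_ (pow_mem hs i)
  by_cases h : P.coeff i = 0
  · rw [h]; exact zero_mem E
  · exact hP _ (mem_coeffs_iff.2 ⟨i, mem_support_iff.2 h, rfl⟩)

end Pool.MCL.INF

namespace Pool.MCL

open INF

theorem p_INF (hDBL : stmt_DBL) (hODD : stmt_ODD) : stmt_INF := by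
  classical
  intro K _ _ n S hS hC
  obtain ⟨a, b, p, q, hvan, i, j, s₀, w₀, s₁, w₁, hc₀, hc₁, hne⟩ := hC
  obtain ⟨E0, hE0, haE, hbE, hinf⟩ := hDBL K a b
  -- the coefficients
  let co : Finset (AlgebraicClosure K) :=
    Finset.univ.biUnion (fun l : Fin (n + 1) => (p l).coeffs ∪ (q l).coeffs)
  let E1 : IntermediateField K (AlgebraicClosure K) :=
    IntermediateField.adjoin K (co : Set (AlgebraicClosure K))
  have hE1 : FiniteDimensional K E1 := by
    apply IntermediateField.finiteDimensional_adjoin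
    intro x _
    exact (Algebra.IsAlgebraic.isAlgebraic x).isIntegral
  let E : IntermediateField K (AlgebraicClosure K) := E0 ⊔ E1
  have hE : FiniteDimensional K E := IntermediateField.finiteDimensional_sup E0 E1
  have h01 : E0 ≤ E := le_sup_left
  have hco : ∀ c ∈ co, c ∈ E := fun c hc =>
    (le_sup_right : E1 ≤ E) (IntermediateField.subset_adjoin K _ (Finset.mem_coe.2 hc))
  have hpE : ∀ l, ∀ c ∈ (p l).coeffs, c ∈ E := fun l c hc =>
    hco c (Finset.mem_biUnion.2 ⟨l, Finset.mem_univ _, Finset.mem_union_left _ hc⟩)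
  have hqE : ∀ l, ∀ c ∈ (q l).coeffs, c ∈ E := fun l c hc =>
    hco c (Finset.mem_biUnion.2 ⟨l, Finset.mem_univ _, Finset.mem_union_right _ hc⟩)
  have hval : ∀ s w, s ∈ E → w ∈ E → ∀ l, cubicVal p q s w l ∈ E := fun s w hs hw l =>
    add_mem (eval_mem (hpE l) hs) (mul_mem (eval_mem (hqE l) hs) hw)
  refine ⟨E, inferInstance, inferInstance, hE, ?_⟩
  intro hfin
  -- the function `F_i` is not zero
  have hi0 : ¬ (p i = 0 ∧ q i = 0) := by
    rintro ⟨h1, h2⟩
    apply hne
    simp only [cubicVal, h1, h2, eval_zero, zero_mul, add_zero, mul_zero]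
  have hfz : {s : AlgebraicClosure K | ∃ w, OnCubic a b s w ∧
      (p i).eval s + (q i).eval s * w = 0}.Finite := by
    by_contra h
    exact hi0 (zero_of_inf hODD h)
  let T : Set (AlgebraicClosure K) := {s | s ∈ E0 ∧ ∃ w ∈ E0, OnCubic a b s w} \
    {s | ∃ w, OnCubic a b s w ∧ (p i).eval s + (q i).eval s * w = 0}
  have hT : T.Infinite := hinf.sdiff hfz
  have hTi : Infinite T := hT.to_subtype
  have hex : ∀ s : T, ∃ w ∈ E0, OnCubic a b (s : AlgebraicClosure K) w := fun s => s.2.1.2
  choose w hw1 hw2 using hex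
  have hnz : ∀ s : T, cubicVal p q (s : AlgebraicClosure K) (w s) i ≠ 0 := by
    intro s h
    exact s.2.2 ⟨w s, hw2 s, h⟩
  let v : T → Fin (n + 1) → E := fun s l =>
    ⟨cubicVal p q (s : AlgebraicClosure K) (w s) l, hval _ _ (h01 s.2.1.1) (h01 (hw1 s)) l⟩
  have hv0 : ∀ s, v s ≠ 0 := by
    intro s h
    apply hnz s
    have h1 := congrFun h i
    exact congrArg Subtype.val h1
  have hvF : ∀ s, ∀ F ∈ S, MvPolynomial.aeval (v s) F = 0 := by
    intro s F hF
    have h1 := MvPolynomial.aeval_algebraMap_apply (AlgebraicClosure K) (v s) F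
    have h2 : (algebraMap E (AlgebraicClosure K)) ∘ v s =
        cubicVal p q (s : AlgebraicClosure K) (w s) := rfl
    rw [h2, MvPolynomial.aeval_def, hvan F hF _ _ (hw2 s)] at h1
    exact (map_eq_zero (algebraMap E (AlgebraicClosure K))).1 h1.symm
  have hpts : ∀ s, Projectivization.mk E (v s) (hv0 s) ∈ points S E := fun s =>
    mk_mem_points hS E (v s) (hv0 s) (hvF s)
  have hfin' : Finite (points S E) := hfin.to_subtype
  obtain ⟨P, hP⟩ := Finite.exists_infinite_fiber
    (fun s : T => (⟨Projectivization.mk E (v s) (hv0 s), hpts s⟩ : points S E))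
  obtain ⟨s2, hs2⟩ := (hP.nonempty : Nonempty _)
  set A := cubicVal p q (s2 : AlgebraicClosure K) (w s2) i with hA
  set B := cubicVal p q (s2 : AlgebraicClosure K) (w s2) j with hB
  have hA0 : A ≠ 0 := hnz s2
  have hprop : ∀ s : T, (⟨Projectivization.mk E (v s) (hv0 s), hpts s⟩ : points S E) = P →
      B * cubicVal p q (s : AlgebraicClosure K) (w s) i -
        A * cubicVal p q (s : AlgebraicClosure K) (w s) j = 0 := by
    intro s hs
    have h1 : Projectivization.mk E (v s) (hv0 s) = Projectivization.mk E (v s2) (hv0 s2) := by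
      have h2 : (⟨Projectivization.mk E (v s2) (hv0 s2), hpts s2⟩ : points S E) = P := hs2
      exact congrArg Subtype.val (hs.trans h2.symm)
    obtain ⟨c, hc⟩ := (Projectivization.mk_eq_mk_iff' E _ _ _ _).1 h1
    have h3 : ∀ l, cubicVal p q (s : AlgebraicClosure K) (w s) l =
        (c : AlgebraicClosure K) * cubicVal p q (s2 : AlgebraicClosure K) (w s2) l := by
      intro l
      have h4 := congrArg Subtype.val (congrFun hc l)
      exact h4.symm
    rw [h3 i, h3 j]
    ring
  have hPQ : C B * p i - C A * p j = 0 ∧ C B * q i - C A * q j = 0 := by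
    apply zero_of_inf hODD (a := a) (b := b)
    have h1 : Set.Infinite ((fun s : T => (s : AlgebraicClosure K)) ''
        ((fun s : T => (⟨Projectivization.mk E (v s) (hv0 s), hpts s⟩ : points S E)) ⁻¹' {P})) :=
      (Set.infinite_coe_iff.1 hP).image Subtype.val_injective.injOn
    refine h1.mono ?_
    rintro _ ⟨s, hs, rfl⟩
    refine ⟨w s, hw2 s, ?_⟩
    have h2 := hprop s hs
    simp only [eval_sub, eval_mul, eval_C]
    simp only [cubicVal] at h2
    linear_combination h2
  have hall : ∀ s w, A * cubicVal p q s w j = B * cubicVal p q s w i := by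
    intro s w
    have h1 := congrArg (fun P => P.eval s) hPQ.1
    have h2 := congrArg (fun P => P.eval s) hPQ.2
    simp only [eval_sub, eval_mul, eval_C, eval_zero] at h1 h2
    simp only [cubicVal]
    linear_combination -h1 - w * h2
  apply hne
  have h1 := hall s₀ w₀
  have h2 := hall s₁ w₁
  apply mul_left_cancel₀ hA0
  linear_combination cubicVal p q s₀ w₀ i * h2 - cubicVal p q s₁ w₁ i * h1

end Pool.MCL

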