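import Pool.Agent.Work.MP_f82ddf_cl.Interface
set_option autoImplicit false

/-! # Block NCO (helper65): two proportional functions on the cubic -/

open Polynomial Topology Filter Metric Set
open Pool.Agent.Work.MP_f82ddf_nt Pool.Agent.Work.MP_f82ddf_nt.DQ
open scoped Differential

namespace Pool.MCL

/-- a function `p(s) + q(s) w` which vanishes at all points of the cubic is zero -/
private theorem NCO_zero {k : Type} [Field k] [IsAlgClosed k] [CharZero k] (a b : k) (p q : k[X])
    (h : ∀ s w : k, OnCubic a b s w → p.eval s + q.eval s * w = 0) : p = 0 ∧ q = 0 := by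
  have key : ∀ s : k, p.eval s = 0 ∧ q.eval s ^ 2 * (s ^ 3 + a * s + b) = 0 := by
    intro s
    obtain ⟨w, hw⟩ := IsAlgClosed.exists_pow_nat_eq (s ^ 3 + a * s + b) (n := 2) (by norm_num)
    have h1 := h s w hw
    have h2 := h s (-w) (by unfold OnCubic; rw [neg_sq]; exact hw)
    have h3 : (2 : k) * p.eval s = 0 := by linear_combination h1 + h2
    have h4 : p.eval s = 0 := by
      rcases mul_eq_zero.mp h3 with h | h
      · exact absurd h two_ne_zero
      · exact h
    refine ⟨h4, ?_⟩
    rw [h4, zero_add] at h1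
    rw [← hw]
    have : q.eval s ^ 2 * w ^ 2 = (q.eval s * w) ^ 2 := by ring
    rw [this, h1]
    ring
  constructor
  · apply Polynomial.funext
    intro s
    rw [(key s).1, eval_zero]
  · have h5 : q ^ 2 * (X ^ 3 + C a * X + C b) = 0 := by
      apply Polynomial.funext
      intro s
      rw [eval_zero, eval_mul, eval_pow, eval_add, eval_add, eval_pow, eval_X, eval_mul, eval_C,
        eval_X, eval_C]
      exact (key s).2
    rcases mul_eq_zero.mp h5 with h6 | h6
    · exact pow_eq_zero_iff (two_ne_zero) |>.mp h6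
    · exfalso
      have h7 := congrArg (fun P : k[X] => P.coeff 3) h6
      simp at h7

theorem p_NCO (_ : stmt_ODD) : stmt_NCO := by
  intro k _ _ _ a b p₁ q₁ p₂ q₂ h
  by_cases h0 : ∀ s w : k, OnCubic a b s w → p₁.eval s + q₁.eval s * w = 0
  · obtain ⟨hp, hq⟩ := NCO_zero a b p₁ q₁ h0
    exact ⟨1, 0, Or.inl one_ne_zero, by simp [hp], by simp [hq]⟩
  · push Not at h0
    obtain ⟨s', w', hc, hne⟩ := h0
    refine ⟨p₂.eval s' + q₂.eval s' * w', -(p₁.eval s' + q₁.eval s' * w'),
      Or.inr (neg_ne_zero.mpr hne), ?_⟩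
    apply NCO_zero a b
    intro s w hsw
    have := h s w s' w' hsw hc
    simp only [eval_add, eval_mul, eval_C]
    linear_combination this

end Pool.MCL
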