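import Pool.Agent.Work.MP_f82ddf_cl.Interface

/-!
# NIL: a complex matrix all of whose powers have trace zero is nilpotent
-/

set_option autoImplicit false

open Polynomial

namespace Pool.MCL

namespace NIL

theorem trace_aeval {n : ℕ} (Y : Matrix (Fin n) (Fin n) ℂ) (h : ∀ k, 1 ≤ k → (Y ^ k).trace = 0)
    (p : ℂ[X]) (hp : p.coeff 0 = 0) : (aeval Y p).trace = 0 := by
  rw [aeval_eq_sum_range, Matrix.trace_sum]
  refine Finset.sum_eq_zero fun i _ => ?_
  rw [Matrix.trace_smul]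
  rcases Nat.eq_zero_or_pos i with hi | hi
  · subst hi
    rw [hp, zero_smul]
  · rw [h i hi, smul_zero]

theorem idem_zero {n : ℕ} (E : Matrix (Fin n) (Fin n) ℂ) (hE : IsIdempotentElem E)
    (h : E.trace = 0) : E = 0 := by
  have h1 : IsIdempotentElem (Matrix.toLin' E) := by
    unfold IsIdempotentElem
    rw [Module.End.mul_eq_comp, ← Matrix.toLin'_mul, hE.eq]
  have h2 : LinearMap.trace ℂ (Fin n → ℂ) (Matrix.toLin' E) = 0 := by
    rw [Matrix.trace_toLin'_eq, h]
  have h3 := LinearMap.IsIdempotentElem.eq_zero_of_trace_eq_zero h1 h2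
  exact (Matrix.toLin'.map_eq_zero_iff).1 h3

end NIL

theorem p_NIL : stmt_NIL := by
  intro n Y h
  have h0 : Y.charpoly ≠ 0 := Y.charpoly_monic.ne_zero
  obtain ⟨q, hq, hq2⟩ := exists_eq_pow_rootMultiplicity_mul_and_not_dvd Y.charpoly h0 0
  rw [C_0, sub_zero] at hq hq2
  set m := rootMultiplicity 0 Y.charpoly
  have hc : IsCoprime (X : ℂ[X]) q := (irreducible_X.coprime_iff_not_dvd).2 hq2
  obtain ⟨a, b, hab⟩ := hc.pow_left (m := m + 1)
  have hY : aeval Y (X ^ m * q) = 0 := by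
    rw [← hq]
    exact Matrix.aeval_self_charpoly Y
  have hE1 : IsIdempotentElem (aeval Y (a * X ^ (m + 1))) := by
    unfold IsIdempotentElem
    rw [← map_mul]
    have h1 : a * X ^ (m + 1) * (a * X ^ (m + 1)) =
        a * X ^ (m + 1) - (X ^ m * q) * (a * X * b) := by
      have h2 : a * X ^ (m + 1) = 1 - b * q := by rw [← hab]; ring
      calc a * X ^ (m + 1) * (a * X ^ (m + 1)) = a * X ^ (m + 1) * (1 - b * q) := by rw [h2]
        _ = _ := by ring
    rw [h1, map_sub, map_mul _ (X ^ m * q), hY, zero_mul, sub_zero]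
  have hE0 : aeval Y (a * X ^ (m + 1)) = 0 := by
    apply NIL.idem_zero _ hE1
    apply NIL.trace_aeval Y h
    rw [pow_succ, ← mul_assoc, coeff_mul_X_zero]
  refine ⟨m, ?_⟩
  have h1 : (X : ℂ[X]) ^ m = X ^ m * (a * X ^ (m + 1)) + (X ^ m * q) * b := by
    calc (X : ℂ[X]) ^ m = X ^ m * 1 := (mul_one _).symm
      _ = X ^ m * (a * X ^ (m + 1) + b * q) := by rw [hab]
      _ = _ := by ring
  have h2 : Y ^ m = aeval Y ((X : ℂ[X]) ^ m) := by rw [map_pow, aeval_X]
  rw [h2, h1, map_add, map_mul, hE0, mul_zero, map_mul _ (X ^ m * q), hY, zero_mul, add_zero]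

end Pool.MCL
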