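import Pool.Agent.Work.MP_f82ddf_cl.Interface

/-! # Block ODD (helper12): parity of degrees -/

set_option autoImplicit false

open Polynomial

namespace Pool.MCL

theorem p_ODD : stmt_ODD := by
  intro k _ a b A B h
  have hc : (X ^ 3 + C a * X + C b : k[X]).natDegree = 3 := by
    compute_degree!
  have hc0 : (X ^ 3 + C a * X + C b : k[X]) ≠ 0 := by
    intro h0
    rw [h0, natDegree_zero] at hc
    omega
  by_cases hB : B = 0
  · subst hB
    have h1 : A ^ 2 = 0 := by rw [h]; ring
    exact ⟨pow_eq_zero_iff (two_ne_zero) |>.1 h1, rfl⟩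
  · exfalso
    have h1 := congrArg natDegree h
    rw [natDegree_mul (pow_ne_zero 2 hB) hc0, natDegree_pow, natDegree_pow, hc] at h1
    omega

end Pool.MCL
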