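import Pool.Agent.Work.MP_f82ddf_cl.Interface

open Pool.Agent.Work.MP_f82ddf_nt Pool.Agent.Work.MP_f82ddf_nt.DQ

namespace Pool.MCL

theorem p_P6A (h1 : stmt_CLM) (h2 : stmt_SUB) (h3 : stmt_DAT) (h4 : stmt_SPR) : stmt_P6A := by
  intro K _ n S hS σ x i hi hx hl halg
  obtain ⟨l, hl⟩ := hl
  have h5 : Cub (IntermediateField.adjoin ℂ (Set.range x)) :=
    h1 _ (IntermediateField.adjoin ℂ (Set.range x)).val (h2 n x l hl halg)
  exact h4 K n S σ (h3 K n S hS σ x i hi hx ⟨l, hl⟩ h5)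

end Pool.MCL
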