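import Pool.Agent.Work.MP_f82ddf_cl.Interface

open Pool.Agent.Work.MP_f82ddf_nt Pool.Agent.Work.MP_f82ddf_nt.DQ

namespace Pool.MCL

theorem p_P6B (h1 : stmt_INF) (h2 : stmt_CMP) : stmt_P6B := by
  intro K _ _ n S hS hC
  exact ⟨h2 K n S hS hC, h1 K n S hS hC⟩

end Pool.MCL
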