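import Pool.Agent.Work.MP_f82ddf_cl.Interface

open Pool.Agent.Work.MP_f82ddf_nt Pool.Agent.Work.MP_f82ddf_nt.DQ

namespace Pool.MCL

theorem p_P6C (h1 : stmt_P6A) (h2 : stmt_P6B) : stmt_P6C := by
  intro K _ _ n S hS halg
  refine ⟨fun σ => ⟨fun hh hC => (h2 K n S hS hC).1 σ hh, fun hC => ?_⟩,
    fun hC => (h2 K n S hS hC).2⟩
  by_contra hh
  obtain ⟨x, i, hi, hx, hl⟩ := exists_mer_of_not_hyperbolic hS σ hh
  exact hC (h1 K n S hS σ x i hi hx hl (halg σ x i hi hx))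

end Pool.MCL
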