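import Pool.Agent.Work.MP_f82ddf_cl.Interface
import Pool.Agent.Work.MP_f82ddf_cl.B_FREE

/-!
# PEN: an element of `L x 1` outside of `ℂ(x)` gives a function of smaller degree
-/

set_option autoImplicit false

open Polynomial

namespace Pool.MCL

namespace PEN

open scoped IntermediateField.algebraAdjoinAdjoin

section

variable {M : Type} [Field M] [Algebra ℂ M]

/-- the coefficients of the minimal polynomial of an element of `IntC x` are in `ℂ[x]` -/
theorem coeff_mem {x : M} {z : M} (hz : z ∈ IntC x) (i : ℕ) :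
    (((minpoly (Fx x) z).coeff i : Fx x) : M) ∈ Px x := by
  have := FREE.pid x
  have h1 := minpoly.isIntegrallyClosed_eq_field_fractions' (K := Fx x) (R := Px x)
    (s := z) (mem_IntC.1 hz)
  rw [h1, coeff_map]
  exact ((minpoly (Px x) z).coeff i).2

theorem coeff_mem' {E E' : IntermediateField ℂ M} (h : E = E') {z : M} (i : ℕ) :
    (((minpoly E z).coeff i : E) : M) = (((minpoly E' z).coeff i : E') : M) := by
  subst h
  rfl

end

/-- minimal polynomial of a multiple -/
theorem minpoly_mul {M : Type} [Field M] {K : Type*} [Field K] [Algebra K M] {c : K} (hc : c ≠ 0) {y : M}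
    (hy : IsIntegral K y) :
    minpoly K (algebraMap K M c * y) = scaleRoots (minpoly K y) c := by
  symm
  apply minpoly.unique' K _ ((monic_scaleRoots_iff c).2 (minpoly.monic hy))
  · exact scaleRoots_aeval_eq_zero (minpoly.aeval K y)
  · intro q hq
    by_contra hcon
    push Not at hcon
    obtain ⟨hq0, hq1⟩ := hcon
    have h1 : aeval (algebraMap K M c⁻¹ * (algebraMap K M c * y)) (scaleRoots q c⁻¹) = 0 :=
      scaleRoots_aeval_eq_zero hq1
    rw [← mul_assoc, ← map_mul, inv_mul_cancel₀ hc, map_one, one_mul] at h1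
    have h2 := minpoly.degree_le_of_ne_zero K y (scaleRoots_ne_zero hq0 c⁻¹) h1
    rw [degree_scaleRoots] at h2 hq
    exact absurd hq (not_lt.2 h2)

variable {M : Type} [Field M] [Algebra ℂ M]

theorem Fx_inv (x : M) : Fx x⁻¹ = Fx x := by
  apply le_antisymm
  · rw [IntermediateField.adjoin_le_iff, Set.singleton_subset_iff]
    exact inv_mem (IntermediateField.mem_adjoin_simple_self ℂ x)
  · rw [IntermediateField.adjoin_le_iff, Set.singleton_subset_iff]
    have h := inv_mem (IntermediateField.mem_adjoin_simple_self ℂ x⁻¹)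
    rwa [inv_inv] at h

/-- the relation of `y` over `ℂ[x]` -/
theorem relation (h2 : stmt_CON2) {x : M} (hx : FF x) {y : M} (hy : y ∈ L x 1) :
    ∃ B : ℕ → ℂ[X], B (minpoly (Fx x) y).natDegree = 1 ∧
      (∀ j, j ≤ (minpoly (Fx x) y).natDegree →
        (B j).natDegree ≤ (minpoly (Fx x) y).natDegree - j) ∧
      ∑ j ∈ Finset.range ((minpoly (Fx x) y).natDegree + 1), aeval x (B j) * y ^ j = 0 := by
  obtain ⟨-, -, -, hdeg, -⟩ := h2 M x hx
  have hfin := hx.2
  have hinj : Function.Injective (aeval x : ℂ[X] →ₐ[ℂ] M) :=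
    transcendental_iff_injective.1 hx.1
  have hx0 : x ≠ 0 := fun h => hx.1 (h ▸ isAlgebraic_zero)
  have hint : IsIntegral (Fx x) y := Algebra.IsIntegral.isIntegral y
  choose B hB using fun j => FREE.mem_Px.1 (coeff_mem (x := x) hy.1 j)
  refine ⟨B, ?_, ?_, ?_⟩
  · apply hinj
    rw [hB, map_one, coeff_natDegree, minpoly.monic hint]
    rfl
  · intro j hj
    apply hdeg
    have hc : (⟨x⁻¹, inv_mem (IntermediateField.mem_adjoin_simple_self ℂ x)⟩ : Fx x) ≠ 0 := by
      intro h
      exact inv_ne_zero hx0 (congrArg Subtype.val h)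
    have h3 := minpoly_mul hc hint
    have h4 := coeff_mem (x := x⁻¹) hy.2 j
    rw [coeff_mem' (Fx_inv x)] at h4
    have h5 : y * x⁻¹ ^ 1 = algebraMap (Fx x) M
        (⟨x⁻¹, inv_mem (IntermediateField.mem_adjoin_simple_self ℂ x)⟩ : Fx x) * y := by
      rw [pow_one, mul_comm]
      rfl
    rw [h5, h3, coeff_scaleRoots] at h4
    rw [hB]
    exact h4
  · have h3 := minpoly.aeval (Fx x) y
    rw [aeval_eq_sum_range] at h3
    rw [← h3]
    refine Finset.sum_congr rfl fun j _ => ?_
    rw [hB]
    rfl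

/-- the polynomial `∑ B_j (y0 + τ X) ^ j` -/
noncomputable def F {K : Type*} [Field K] [Algebra ℂ K] (f : ℕ) (B : ℕ → ℂ[X]) (y0 : ℂ) (τ : K) :
    K[X] :=
  ∑ j ∈ Finset.range (f + 1), (B j).map (algebraMap ℂ K) *
    (C (algebraMap ℂ K y0) + C τ * X) ^ j

theorem F_term_natDegree {K : Type*} [Field K] [Algebra ℂ K] (y0 : ℂ) (τ : K) (j : ℕ) :
    ((C (algebraMap ℂ K y0) + C τ * X) ^ j : K[X]).natDegree ≤ j := by
  refine natDegree_pow_le.trans ?_
  have h1 : (C (algebraMap ℂ K y0) + C τ * X : K[X]).natDegree ≤ 1 := by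
    rw [add_comm]
    exact natDegree_linear_le
  calc j * _ ≤ j * 1 := Nat.mul_le_mul_left j h1
    _ = j := mul_one j

theorem F_term_coeff {K : Type*} [Field K] [Algebra ℂ K] (y0 : ℂ) (τ : K) (j : ℕ) :
    ((C (algebraMap ℂ K y0) + C τ * X) ^ j : K[X]).coeff j = τ ^ j := by
  have h1 : (C (algebraMap ℂ K y0) + C τ * X : K[X]).natDegree ≤ 1 := by
    rw [add_comm]
    exact natDegree_linear_le
  have h2 := coeff_pow_of_natDegree_le (m := j) h1
  rw [mul_one] at h2
  rw [h2]
  congr 1
  simp

theorem F_natDegree {K : Type*} [Field K] [Algebra ℂ K] (f : ℕ) (B : ℕ → ℂ[X]) (y0 : ℂ) (τ : K)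
    (hB : ∀ j, j ≤ f → (B j).natDegree ≤ f - j) : (F f B y0 τ).natDegree ≤ f := by
  refine natDegree_sum_le_of_forall_le _ _ fun j hj => ?_
  rw [Finset.mem_range] at hj
  have h1 := F_term_natDegree y0 τ j
  have h2 : ((B j).map (algebraMap ℂ K)).natDegree ≤ f - j := natDegree_map_le.trans (hB j (by omega))
  exact (natDegree_mul_le).trans (by omega)

theorem F_coeff {K : Type*} [Field K] [Algebra ℂ K] (f : ℕ) (B : ℕ → ℂ[X]) (y0 : ℂ) (τ : K)
    (hB : ∀ j, j ≤ f → (B j).natDegree ≤ f - j) :
    (F f B y0 τ).coeff f =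
      aeval τ (∑ j ∈ Finset.range (f + 1), C ((B j).coeff (f - j)) * X ^ j) := by
  unfold F
  rw [finsetSum_coeff, map_sum]
  refine Finset.sum_congr rfl fun j hj => ?_
  rw [Finset.mem_range] at hj
  have h1 := F_term_natDegree y0 τ j
  have h2 : ((B j).map (algebraMap ℂ K)).natDegree ≤ f - j := natDegree_map_le.trans (hB j (by omega))
  have h3 := coeff_mul_add_eq_of_natDegree_le h2 h1
  rw [show f - j + j = f by omega, F_term_coeff, coeff_map] at h3
  rw [h3, map_mul, aeval_C, map_pow, aeval_X]

end PEN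

theorem p_PEN (_h1 : stmt_CON1) (h2 : stmt_CON2) : stmt_PEN := by
  intro M _ _ x hx y hy hyx
  have hfin := hx.2
  have hx0 : x ≠ 0 := fun h => hx.1 (h ▸ isAlgebraic_zero)
  have hint : IsIntegral (Fx x) y := Algebra.IsIntegral.isIntegral y
  obtain ⟨B, hB1, hB2, hB3⟩ := PEN.relation h2 hx hy
  set f := (minpoly (Fx x) y).natDegree with hf
  have hf2 : 2 ≤ f := by
    rw [hf, minpoly.two_le_natDegree_iff hint]
    rintro ⟨z, hz⟩
    apply hyx
    rw [← hz]
    exact z.2
  obtain ⟨y0, hy0⟩ : ∃ y0 : ℂ, ∑ j ∈ Finset.range (f + 1), (B j).eval 0 * y0 ^ j = 0 := by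
    have hc : (∑ j ∈ Finset.range (f + 1), C ((B j).eval 0) * X ^ j : ℂ[X]).coeff f = 1 := by
      rw [finsetSum_coeff, Finset.sum_eq_single f]
      · rw [coeff_C_mul, coeff_X_pow_self, hB1, eval_one, mul_one]
      · intro j _ hj
        rw [coeff_C_mul, coeff_X_pow, if_neg (Ne.symm hj), mul_zero]
      · intro h
        exact absurd (Finset.mem_range.2 (Nat.lt_succ_self f)) h
    have hd : (∑ j ∈ Finset.range (f + 1), C ((B j).eval 0) * X ^ j : ℂ[X]).degree ≠ 0 := by
      intro h0
      have h3 := natDegree_eq_zero_iff_degree_le_zero.2 h0.le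
      have h4 := le_natDegree_of_ne_zero (p := (∑ j ∈ Finset.range (f + 1),
        C ((B j).eval 0) * X ^ j : ℂ[X])) (n := f) (by rw [hc]; exact one_ne_zero)
      omega
    obtain ⟨y0, hy0⟩ := IsAlgClosed.exists_root _ hd
    refine ⟨y0, ?_⟩
    rw [IsRoot.def, eval_finsetSum] at hy0
    refine Eq.trans (Finset.sum_congr rfl fun j _ => ?_) hy0
    rw [eval_mul, eval_C, eval_pow, eval_X]
  set t : M := (y - algebraMap ℂ M y0) / x with ht
  have hyt : y = algebraMap ℂ M y0 + t * x := by
    rw [ht]
    field_simp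
    ring
  obtain ⟨-, -, -, -, hff⟩ := h2 M x hx
  have hxmem : x ∈ Fx x := IntermediateField.mem_adjoin_simple_self ℂ x
  have htFF : FF t := by
    apply hff
    intro c hc
    apply hyx
    rw [hyt, hc]
    exact add_mem (IntermediateField.algebraMap_mem _ _)
      (mul_mem (IntermediateField.algebraMap_mem _ _) hxmem)
  refine ⟨t, htFF, ?_⟩
  have htfin := htFF.2
  have hxint : IsIntegral (Fx t) x := Algebra.IsIntegral.isIntegral x
  -- the degree of `x` over `Fx t`
  have hdeg : (minpoly (Fx t) x).natDegree ≤ f - 1 := by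
    set τ : Fx t := ⟨t, IntermediateField.mem_adjoin_simple_self ℂ t⟩ with hτ
    have hF0 : (PEN.F f B y0 τ).coeff f ≠ 0 := by
      rw [PEN.F_coeff f B y0 τ hB2]
      intro h0
      set Q : ℂ[X] := ∑ j ∈ Finset.range (f + 1), C ((B j).coeff (f - j)) * X ^ j with hQ
      have h3 : aeval t Q = 0 := by
        have h4 : t = algebraMap (Fx t) M τ := rfl
        rw [h4, aeval_algebraMap_apply, h0, map_zero]
      have h5 : Q = 0 := transcendental_iff.1 htFF.1 _ h3
      have h6 : Q.coeff f = 1 := by
        rw [hQ, finsetSum_coeff, Finset.sum_eq_single f]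
        · rw [coeff_C_mul, coeff_X_pow_self, hB1, mul_one, Nat.sub_self, coeff_one_zero]
        · intro j _ hj
          rw [coeff_C_mul, coeff_X_pow, if_neg (Ne.symm hj), mul_zero]
        · intro h
          exact absurd (Finset.mem_range.2 (Nat.lt_succ_self f)) h
      rw [h5, coeff_zero] at h6
      exact zero_ne_one h6
    have hFx : aeval x (PEN.F f B y0 τ) = 0 := by
      unfold PEN.F
      rw [map_sum, ← hB3]
      refine Finset.sum_congr rfl fun j _ => ?_
      rw [map_mul, aeval_map_algebraMap, map_pow, map_add, map_mul, aeval_C, aeval_C, aeval_X,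
        ← IsScalarTower.algebraMap_apply]
      congr 2
      exact hyt.symm
    have hFe : (PEN.F f B y0 τ).coeff 0 = 0 := by
      rw [coeff_zero_eq_eval_zero]
      unfold PEN.F
      have h3 : ∑ j ∈ Finset.range (f + 1), algebraMap ℂ (Fx t) ((B j).eval 0 * y0 ^ j) = 0 := by
        rw [← map_sum, hy0, map_zero]
      rw [eval_finsetSum]
      refine Eq.trans (Finset.sum_congr rfl fun j _ => ?_) h3
      rw [eval_mul, eval_zero_map, eval_pow, eval_add, eval_mul, eval_C, eval_C, eval_X,
        mul_zero, add_zero, map_mul, map_pow]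
    obtain ⟨H, hH⟩ := X_dvd_iff.2 hFe
    have hH0 : H ≠ 0 := by
      rintro rfl
      rw [mul_zero] at hH
      rw [hH, coeff_zero] at hF0
      exact hF0 rfl
    have hHx : aeval x H = 0 := by
      rw [hH, map_mul, aeval_X] at hFx
      exact (mul_eq_zero.1 hFx).resolve_left hx0
    have hHd : H.natDegree ≤ f - 1 := by
      have h3 := PEN.F_natDegree f B y0 τ hB2
      rw [hH, natDegree_X_mul hH0] at h3
      omega
    exact (natDegree_le_natDegree (minpoly.degree_le_of_ne_zero (Fx t) x hH0 hHx)).trans hHd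
  -- towers
  have hfinE1 : Module.finrank (Fx x) (IntermediateField.adjoin (Fx x) {y}) = f :=
    IntermediateField.adjoin.finrank hint
  have hfinE2 : Module.finrank (Fx t) (IntermediateField.adjoin (Fx t) {x}) ≤ f - 1 := by
    rw [IntermediateField.adjoin.finrank hxint]
    exact hdeg
  have ht1 := Module.finrank_mul_finrank (Fx x) (IntermediateField.adjoin (Fx x) {y}) M
  have ht2 := Module.finrank_mul_finrank (Fx t) (IntermediateField.adjoin (Fx t) {x}) M
  have hE : (IntermediateField.adjoin (Fx x) {y}).restrictScalars ℂ =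
      (IntermediateField.adjoin (Fx t) {x}).restrictScalars ℂ := by
    rw [IntermediateField.adjoin_adjoin_left, IntermediateField.adjoin_adjoin_left]
    apply le_antisymm
    · rw [IntermediateField.adjoin_le_iff]
      have hxm : x ∈ IntermediateField.adjoin ℂ ({t} ∪ {x} : Set M) :=
        IntermediateField.subset_adjoin _ _ (Set.mem_union_right _ (Set.mem_singleton x))
      have htm : t ∈ IntermediateField.adjoin ℂ ({t} ∪ {x} : Set M) :=
        IntermediateField.subset_adjoin _ _ (Set.mem_union_left _ (Set.mem_singleton t))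
      rintro z (hz | hz)
      · rw [Set.mem_singleton_iff.1 hz]
        exact hxm
      · rw [Set.mem_singleton_iff.1 hz, hyt]
        exact add_mem (IntermediateField.algebraMap_mem _ _) (mul_mem htm hxm)
    · rw [IntermediateField.adjoin_le_iff]
      have hxm : x ∈ IntermediateField.adjoin ℂ ({x} ∪ {y} : Set M) :=
        IntermediateField.subset_adjoin _ _ (Set.mem_union_left _ (Set.mem_singleton x))
      have hym : y ∈ IntermediateField.adjoin ℂ ({x} ∪ {y} : Set M) :=
        IntermediateField.subset_adjoin _ _ (Set.mem_union_right _ (Set.mem_singleton y))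
      rintro z (hz | hz)
      · rw [Set.mem_singleton_iff.1 hz, ht]
        exact div_mem (sub_mem hym (IntermediateField.algebraMap_mem _ _)) hxm
      · rw [Set.mem_singleton_iff.1 hz]
        exact hxm
  have hrk : Module.finrank (IntermediateField.adjoin (Fx x) {y}) M =
      Module.finrank (IntermediateField.adjoin (Fx t) {x}) M := by
    have h3 : ∀ E E' : IntermediateField ℂ M, E = E' →
        Module.finrank E M = Module.finrank E' M := by
      rintro E E' rfl
      rfl
    exact h3 _ _ hE
  have hpos : 0 < Module.finrank (IntermediateField.adjoin (Fx x) {y}) M := by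
    rcases Nat.eq_zero_or_pos (Module.finrank (IntermediateField.adjoin (Fx x) {y}) M) with h0 | h0
    · rw [h0, mul_zero] at ht1
      have h3 : 0 < Module.finrank (Fx x) M := Module.finrank_pos
      omega
    · exact h0
  show Module.finrank (Fx t) M < Module.finrank (Fx x) M
  rw [← ht1, ← ht2, hfinE1, ← hrk]
  calc _ ≤ (f - 1) * Module.finrank (IntermediateField.adjoin (Fx x) {y}) M :=
        Nat.mul_le_mul_right _ hfinE2
    _ < f * Module.finrank (IntermediateField.adjoin (Fx x) {y}) M :=
        Nat.mul_lt_mul_of_pos_right (by omega) hpos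

end Pool.MCL
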