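import Pool.Agent.Work.MP_f82ddf_cl.Interface
set_option autoImplicit false

/-! # MP_f82ddf_nt part P6, block QUA (helper87) -/

open Polynomial Topology Filter Metric Set
open Pool.Agent.Work.MP_f82ddf_nt Pool.Agent.Work.MP_f82ddf_nt.DQ
open scoped Differential

namespace Pool.MCL

theorem p_QUA (hCON1 : stmt_CON1) (_hCON2 : stmt_CON2) (hZER : stmt_ZER) : stmt_QUA := by
  intro M _ _ t ht hdg w d h hB
  obtain ⟨hc1, hc2, hc3, hc4, hc5, hc6, hc7⟩ := hCON1 M t ht.1
  obtain ⟨i₀, h0, ⟨c, hc, hwc⟩, hoth⟩ := hZER M t ht w d h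
  have hi₀ := i₀.2
  obtain ⟨i₁, hne⟩ : ∃ i₁ : Fin (dg t), i₁ ≠ i₀ := by
    refine ⟨⟨1 - i₀.val, by omega⟩, ?_⟩
    intro hh
    have := congrArg Fin.val hh
    simp only at this
    omega
  have hall : ∀ i : Fin (dg t), i = i₀ ∨ i = i₁ := by
    intro i
    have h1 := i.2
    have h2 := i₁.2
    have h3 : i₁.val ≠ i₀.val := fun hh => hne (Fin.ext hh)
    rcases Nat.lt_or_ge i.val 1 with h4 | h4
    · rcases Nat.lt_or_ge i₀.val 1 with h5 | h5
      · left; apply Fin.ext; omega
      · right; apply Fin.ext; omega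
    · rcases Nat.lt_or_ge i₀.val 1 with h5 | h5
      · right; apply Fin.ext; omega
      · left; apply Fin.ext; omega
  obtain ⟨he1, hZ⟩ := hoth i₁ hne
  have he2 : d i₁ ≤ 2 := by
    by_contra hh
    exact hB (Or.inl ⟨i₁, by omega⟩)
  have hL : w i₁ * w i₁ ∈ L t (d i₁ + d i₁) := hc6 _ _ _ _ (h.deg i₁) (h.deg i₁)
  obtain ⟨cc, hcc⟩ := h.span _ hL.1
  have hred := h.red cc (d i₁ + d i₁) (by rw [← hcc]; exact hL)
  have hn0 : (cc i₀).natDegree ≤ 4 := by
    by_cases hz : cc i₀ = 0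
    · rw [hz, natDegree_zero]; omega
    · have := hred i₀ hz
      omega
  have hn1 : (cc i₁).natDegree ≤ 2 := by
    by_cases hz : cc i₁ = 0
    · rw [hz, natDegree_zero]; omega
    · have := hred i₁ hz
      omega
  have hsum : w i₁ * w i₁ = aeval t (cc i₀) * w i₀ + aeval t (cc i₁) * w i₁ := by
    rw [hcc]
    refine Fintype.sum_eq_add i₀ i₁ (fun hh => hne hh.symm) ?_
    intro x hx
    rcases hall x with hx' | hx'
    · exact absurd hx' hx.1
    · exact absurd hx' hx.2
  have hmem : ∀ P : ℂ[X], aeval t P ∈ Fx t := by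
    intro P
    exact IntermediateField.algebra_adjoin_le_adjoin ℂ {t} (aeval_mem_adjoin_singleton ℂ t)
  have hYn : w i₁ - aeval t (C (1 / 2 : ℂ) * cc i₁) ∉ Fx t := by
    intro hh
    apply hZ
    have h1 := (Fx t).add_mem hh (hmem (C (1 / 2 : ℂ) * cc i₁))
    rwa [sub_add_cancel] at h1
  refine ⟨w i₁ - aeval t (C (1 / 2 : ℂ) * cc i₁), C (1 / 4 : ℂ) * cc i₁ ^ 2 + C c * cc i₀,
    ?_, ?_, hYn, ?_⟩
  · refine (natDegree_add_le _ _).trans (max_le ?_ ?_)
    · refine (natDegree_C_mul_le _ _).trans ((natDegree_pow_le).trans ?_)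
      omega
    · exact (natDegree_C_mul_le _ _).trans hn0
  · have h2 : (algebraMap ℂ M (1 / 2)) * 2 = 1 := by
      rw [← map_ofNat (algebraMap ℂ M) 2, ← map_mul]
      norm_num
    have h4 : (algebraMap ℂ M (1 / 4)) = (algebraMap ℂ M (1 / 2)) ^ 2 := by
      rw [← map_pow]
      norm_num
    rw [map_add, map_mul, map_mul, map_mul, map_pow, aeval_C, aeval_C, aeval_C, h4, ← hwc]
    have h5 := hsum
    linear_combination h5 - (aeval t (cc i₁)) * (w i₁) * h2
  · have : FiniteDimensional (Fx t) M := ht.2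
    have hs : IsSimpleOrder (IntermediateField (Fx t) M) := by
      apply IntermediateField.isSimpleOrder_of_finrank_prime
      have : Module.finrank (Fx t) M = 2 := hdg
      rw [this]
      exact Nat.prime_two
    rw [Set.insert_eq, ← IntermediateField.adjoin_adjoin_left]
    rcases hs.eq_bot_or_eq_top (IntermediateField.adjoin (Fx t)
      {w i₁ - aeval t (C (1 / 2 : ℂ) * cc i₁)}) with hb | hb
    · exfalso
      apply hYn
      have h6 := IntermediateField.mem_adjoin_simple_self (Fx t)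
        (w i₁ - aeval t (C (1 / 2 : ℂ) * cc i₁))
      rw [hb, IntermediateField.mem_bot] at h6
      obtain ⟨y, hy⟩ := h6
      rw [← hy]
      exact y.2
    · rw [hb]
      rfl

end Pool.MCL
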