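import Pool.Agent.Work.MP_f82ddf_cl.Interface

set_option autoImplicit false

/-! # Theorem M, part P6, block RED: existence of a reduced basis -/

open Polynomial

namespace Pool.MCL

namespace RED

variable {M : Type} [Field M] [Algebra ℂ M]

theorem aeval_mem_IntC (x : M) (P : ℂ[X]) : aeval x P ∈ IntC x := by
  rw [mem_IntC]
  have h : aeval x P ∈ Px x := by
    rw [Px, Algebra.adjoin_singleton_eq_range_aeval]
    exact ⟨P, rfl⟩
  exact isIntegral_algebraMap (R := Px x) (A := M) (x := ⟨aeval x P, h⟩)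

theorem zero_mem_L (x : M) (m : ℕ) : (0 : M) ∈ L x m :=
  ⟨zero_mem _, by rw [zero_mul]; exact zero_mem _⟩

theorem add_mem_L {x y z : M} {m : ℕ} (hy : y ∈ L x m) (hz : z ∈ L x m) : y + z ∈ L x m :=
  ⟨add_mem hy.1 hz.1, by rw [add_mul]; exact add_mem hy.2 hz.2⟩

theorem sub_mem_L {x y z : M} {m : ℕ} (hy : y ∈ L x m) (hz : z ∈ L x m) : y - z ∈ L x m :=
  ⟨sub_mem hy.1 hz.1, by rw [sub_mul]; exact sub_mem hy.2 hz.2⟩

theorem sum_mem_L {x : M} {m : ℕ} {ι : Type} (s : Finset ι) (f : ι → M)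
    (h : ∀ i ∈ s, f i ∈ L x m) : ∑ i ∈ s, f i ∈ L x m := by
  classical
  induction s using Finset.induction_on with
  | empty => rw [Finset.sum_empty]; exact zero_mem_L x m
  | insert a s ha ih =>
    rw [Finset.sum_insert ha]
    exact add_mem_L (h a (Finset.mem_insert_self _ _))
      (ih fun i hi => h i (Finset.mem_insert_of_mem hi))

/-- exchange of one element of a basis -/
theorem exchange {x : M} {n : ℕ} {w : Fin n → M} (hw : Bas x n w) (u : Fin n → ℂ[X])
    (i₀ : Fin n) (γ : ℂ) (hγ : γ ≠ 0) (hu : u i₀ = C γ) (w' : M)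
    (hw' : w' = ∑ i, aeval x (u i) * w i) : Bas x n (Function.update w i₀ w') := by
  classical
  have hsplit : ∀ (c : Fin n → ℂ[X]) (v : Fin n → M), ∑ i, aeval x (c i) * v i
      = aeval x (c i₀) * v i₀ + ∑ i ∈ Finset.univ.erase i₀, aeval x (c i) * v i := by
    intro c v
    exact (Finset.add_sum_erase Finset.univ (fun i => aeval x (c i) * v i)
      (Finset.mem_univ i₀)).symm
  have hw'mem : w' ∈ IntC x := by
    rw [hw']
    exact sum_mem fun i _ => mul_mem (aeval_mem_IntC x _) (hw.mem i)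
  have hupd : ∀ (c : Fin n → ℂ[X]), ∑ i ∈ Finset.univ.erase i₀,
      aeval x (c i) * Function.update w i₀ w' i
      = ∑ i ∈ Finset.univ.erase i₀, aeval x (c i) * w i := by
    intro c
    refine Finset.sum_congr rfl fun i hi => ?_
    rw [Function.update_of_ne (Finset.ne_of_mem_erase hi)]
  have hCγ : aeval x (C γ : ℂ[X]) * aeval x (C γ⁻¹ : ℂ[X]) = 1 := by
    rw [← map_mul, ← C_mul, mul_inv_cancel₀ hγ, C_1, map_one]
  refine ⟨?_, ?_, ?_⟩
  · intro i
    by_cases hi : i = i₀
    · rw [hi, Function.update_self]; exact hw'mem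
    · rw [Function.update_of_ne hi]; exact hw.mem i
  · intro r hr
    obtain ⟨c, hc⟩ := hw.span r hr
    refine ⟨fun i => if i = i₀ then C γ⁻¹ * c i₀ else c i - C γ⁻¹ * c i₀ * u i, ?_⟩
    rw [hsplit, hupd, Function.update_self, if_pos rfl]
    have h1 : ∑ i ∈ Finset.univ.erase i₀,
        aeval x (if i = i₀ then C γ⁻¹ * c i₀ else c i - C γ⁻¹ * c i₀ * u i) * w i
        = ∑ i ∈ Finset.univ.erase i₀, aeval x (c i) * w i
          - aeval x (C γ⁻¹ : ℂ[X]) * aeval x (c i₀)
            * ∑ i ∈ Finset.univ.erase i₀, aeval x (u i) * w i := by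
      rw [Finset.mul_sum, ← Finset.sum_sub_distrib]
      refine Finset.sum_congr rfl fun i hi => ?_
      rw [if_neg (Finset.ne_of_mem_erase hi), map_sub, map_mul, map_mul]
      ring
    rw [h1, hc, hsplit c w, hw', hsplit u w, hu, map_mul]
    linear_combination (-(aeval x (c i₀)) * w i₀) * hCγ
  · intro c hc
    have h1 : ∑ i, aeval x (c i₀ * u i + if i = i₀ then 0 else c i) * w i = 0 := by
      rw [hsplit, if_pos rfl, add_zero]
      have h2 : ∑ i ∈ Finset.univ.erase i₀, aeval x (c i₀ * u i + if i = i₀ then 0 else c i) * w i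
          = aeval x (c i₀) * ∑ i ∈ Finset.univ.erase i₀, aeval x (u i) * w i
            + ∑ i ∈ Finset.univ.erase i₀, aeval x (c i) * w i := by
        rw [Finset.mul_sum, ← Finset.sum_add_distrib]
        refine Finset.sum_congr rfl fun i hi => ?_
        rw [if_neg (Finset.ne_of_mem_erase hi), map_add, map_mul]
        ring
      rw [h2]
      rw [hsplit, hupd, Function.update_self, hw', hsplit u w] at hc
      rw [map_mul]
      linear_combination hc
    have h2 := hw.ind _ h1
    have h3 : c i₀ = 0 := by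
      have h4 := h2 i₀
      rw [if_pos rfl, add_zero, hu] at h4
      rcases mul_eq_zero.1 h4 with h5 | h5
      · exact h5
      · exact absurd (C_eq_zero.1 h5) hγ
    intro i
    by_cases hi : i = i₀
    · rw [hi]; exact h3
    · have h4 := h2 i
      rw [if_neg hi, h3, zero_mul, zero_add] at h4
      exact h4

end RED

theorem p_RED (hF : stmt_FREE) (h1 : stmt_CON1) (h2 : stmt_CON2) : stmt_RED := by
  classical
  intro M _ _ x hx
  obtain ⟨c1, -, c3, c4, -, c6, -⟩ := h1 M x hx.1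
  obtain ⟨-, -, d3, -, -⟩ := h2 M x hx
  have hx0 : x ≠ 0 := by
    rintro rfl
    exact hx.1 isAlgebraic_zero
  let S : Set ℕ := {s | ∃ (w : Fin (dg x) → M) (d : Fin (dg x) → ℕ), Bas x (dg x) w ∧
    (∀ i, w i ∈ L x (d i)) ∧ ∑ i, d i = s}
  have hS : S.Nonempty := by
    obtain ⟨w, hw⟩ := hF M x hx
    choose d hd using fun i => c1 (w i) (hw.mem i)
    exact ⟨_, w, d, hw, hd, rfl⟩
  obtain ⟨w, d, hw, hd, hs⟩ := Nat.sInf_mem hS
  have hmin : ∀ (w' : Fin (dg x) → M) (d' : Fin (dg x) → ℕ), Bas x (dg x) w' →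
      (∀ i, w' i ∈ L x (d' i)) → ∑ i, d i ≤ ∑ i, d' i := by
    intro w' d' h h'
    rw [hs]
    exact Nat.sInf_le ⟨w', d', h, h', rfl⟩
  refine ⟨w, d, { toBas := hw, deg := hd, red := ?_ }⟩
  intro c m hy
  by_contra hcon
  push Not at hcon
  obtain ⟨i1, hi1, hi1'⟩ := hcon
  obtain ⟨i2, hi2, hmax⟩ := (Finset.univ.filter fun i => c i ≠ 0).exists_max_image
    (fun i => (c i).natDegree + d i) ⟨i1, by simp [hi1]⟩
  obtain ⟨m', hm'⟩ : ∃ m', m' = (c i2).natDegree + d i2 := ⟨_, rfl⟩
  have hmax' : ∀ i, c i ≠ 0 → (c i).natDegree + d i ≤ m' := by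
    intro i hi
    rw [hm']
    exact hmax i (by simp [hi])
  have hmm : m < m' := lt_of_lt_of_le hi1' (hmax' i1 hi1)
  obtain ⟨I, hI⟩ : ∃ I : Finset (Fin (dg x)),
      I = Finset.univ.filter fun i => c i ≠ 0 ∧ (c i).natDegree + d i = m' := ⟨_, rfl⟩
  have hmemI : ∀ i, i ∈ I ↔ c i ≠ 0 ∧ (c i).natDegree + d i = m' := by
    intro i
    rw [hI]
    simp
  obtain ⟨i₀, hi₀, hmaxe⟩ := I.exists_max_image d ⟨i2, (hmemI i2).2
    ⟨(Finset.mem_filter.1 hi2).2, hm'.symm⟩⟩
  obtain ⟨e, he⟩ : ∃ e, e = d i₀ := ⟨_, rfl⟩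
  rw [← he] at hmaxe
  have hi₀' := (hmemI i₀).1 hi₀
  obtain ⟨u, hu⟩ : ∃ u : Fin (dg x) → ℂ[X], u = fun i =>
    if i ∈ I then C (c i).leadingCoeff * X ^ (e - d i) else 0 := ⟨_, rfl⟩
  obtain ⟨w', hw'⟩ : ∃ w' : M, w' = ∑ i, aeval x (u i) * w i := ⟨_, rfl⟩
  have hu0 : u i₀ = C (c i₀).leadingCoeff := by
    rw [hu]
    dsimp only
    rw [if_pos hi₀, he, Nat.sub_self, pow_zero, mul_one]
  have hγ : (c i₀).leadingCoeff ≠ 0 := leadingCoeff_ne_zero.2 hi₀'.1
  -- the element `x ^ (m' - e) * w'`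
  have hz : x ^ (m' - e) * w' ∈ L x (m' - 1) := by
    have h3 : x ^ (m' - e) * w' = ∑ i, aeval x (c i) * w i
        - ∑ i, aeval x (if i ∈ I then (c i).eraseLead else c i) * w i := by
      rw [hw', Finset.mul_sum, ← Finset.sum_sub_distrib]
      refine Finset.sum_congr rfl fun i _ => ?_
      rw [hu]
      dsimp only
      by_cases hi : i ∈ I
      · rw [if_pos hi, if_pos hi]
        have h4 := (hmemI i).1 hi
        have h5 := hmaxe i hi
        have h6 : (m' - e) + (e - d i) = (c i).natDegree := by omega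
        have h7 : aeval x (c i) = aeval x (c i).eraseLead
            + aeval x (C (c i).leadingCoeff : ℂ[X]) * x ^ (c i).natDegree := by
          conv_lhs => rw [← eraseLead_add_C_mul_X_pow (c i)]
          rw [map_add, map_mul, map_pow, aeval_X]
        rw [h7, map_mul, map_pow, aeval_X, ← h6, pow_add]
        ring
      · rw [if_neg hi, if_neg hi, map_zero]
        ring
    rw [h3]
    refine RED.sub_mem_L (c4 m (m' - 1) _ (by omega) hy) (RED.sum_mem_L _ _ fun i _ => ?_)
    by_cases hr : (if i ∈ I then (c i).eraseLead else c i) = 0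
    · rw [hr, map_zero, zero_mul]
      exact RED.zero_mem_L x _
    · have hdeg : (if i ∈ I then (c i).eraseLead else c i).natDegree + d i ≤ m' - 1 := by
        by_cases hi : i ∈ I
        · rw [if_pos hi] at hr ⊢
          have h4 := (hmemI i).1 hi
          rcases (c i).eraseLead_natDegree_lt_or_eraseLead_eq_zero with h5 | h5
          · omega
          · exact absurd h5 hr
        · rw [if_neg hi] at hr ⊢
          have h4 := hmax' i hr
          have h5 : (c i).natDegree + d i ≠ m' := fun h => hi ((hmemI i).2 ⟨hr, h⟩)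
          omega
      exact c4 _ _ _ hdeg (c6 _ _ _ _ (c3 _ _ le_rfl) (hd i))
  have hw'mem : w' ∈ IntC x := by
    rw [hw']
    exact sum_mem fun i _ => mul_mem (RED.aeval_mem_IntC x _) (hw.mem i)
  by_cases he0 : e = 0
  · have h3 : w' = 0 := by
      refine d3 w' hw'mem ?_
      have h4 := hz.2
      have h5 : x ^ (m' - e) * w' * x⁻¹ ^ (m' - 1) = w' * x := by
        rw [he0, Nat.sub_zero]
        have h6 : m' = (m' - 1) + 1 := by omega
        calc x ^ m' * w' * x⁻¹ ^ (m' - 1) = x ^ ((m' - 1) + 1) * w' * x⁻¹ ^ (m' - 1) := by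
              rw [← h6]
          _ = (x ^ (m' - 1) * x⁻¹ ^ (m' - 1)) * (w' * x) := by rw [pow_succ]; ring
          _ = w' * x := by rw [← mul_pow, mul_inv_cancel₀ hx0, one_pow, one_mul]
      rwa [h5] at h4
    rw [hw'] at h3
    have h4 := hw.ind u h3 i₀
    rw [hu0] at h4
    exact hγ (C_eq_zero.1 h4)
  · have h3 : w' ∈ L x (e - 1) := by
      refine ⟨hw'mem, ?_⟩
      have h4 := hz.2
      have h5 : x ^ (m' - e) * w' * x⁻¹ ^ (m' - 1) = w' * x⁻¹ ^ (e - 1) := by
        have h6 : m' - 1 = (m' - e) + (e - 1) := by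
          have := hi₀'.2
          omega
        rw [h6, pow_add]
        calc x ^ (m' - e) * w' * (x⁻¹ ^ (m' - e) * x⁻¹ ^ (e - 1))
            = (x ^ (m' - e) * x⁻¹ ^ (m' - e)) * (w' * x⁻¹ ^ (e - 1)) := by ring
          _ = w' * x⁻¹ ^ (e - 1) := by
              rw [← mul_pow, mul_inv_cancel₀ hx0, one_pow, one_mul]
      rwa [h5] at h4
    have h4 := hmin (Function.update w i₀ w') (Function.update d i₀ (e - 1))
      (RED.exchange hw u i₀ _ hγ hu0 w' hw') (by
        intro i
        by_cases hi : i = i₀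
        · rw [hi, Function.update_self, Function.update_self]; exact h3
        · rw [Function.update_of_ne hi, Function.update_of_ne hi]; exact hd i)
    have h5 : ∑ i, Function.update d i₀ (e - 1) i
        = (e - 1) + ∑ i ∈ Finset.univ.erase i₀, d i := by
      rw [← Finset.add_sum_erase _ _ (Finset.mem_univ i₀), Function.update_self]
      congr 1
      refine Finset.sum_congr rfl fun i hi => ?_
      rw [Function.update_of_ne (Finset.ne_of_mem_erase hi)]
    have h6 : ∑ i, d i = e + ∑ i ∈ Finset.univ.erase i₀, d i := by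
      rw [← Finset.add_sum_erase _ _ (Finset.mem_univ i₀), he]
    omega

end Pool.MCL
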