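import Pool.Agent.Work.MP_f82ddf_cl.B_TRI

/-!
# Block RHO: reduction of `IntC x` modulo `x - c`, as matrices
-/

open Polynomial
open scoped IntermediateField.algebraAdjoinAdjoin

namespace Pool.MCL

namespace RHO

open TRI

variable {M : Type} [Field M] [Algebra ℂ M]

theorem uniq {x : M} {n : ℕ} {w : Fin n → M} (hw : Bas x n w) (a b : Fin n → ℂ[X])
    (h : ∑ i, aeval x (a i) * w i = ∑ i, aeval x (b i) * w i) (i : Fin n) : a i = b i := by
  have h1 : ∑ i, aeval x (a i - b i) * w i = 0 := by
    have h2 : ∀ i, aeval x (a i - b i) * w i = aeval x (a i) * w i - aeval x (b i) * w i := by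
      intro i
      rw [map_sub, sub_mul]
    rw [Finset.sum_congr rfl fun i _ => h2 i, Finset.sum_sub_distrib, h, sub_self]
  exact sub_eq_zero.1 (hw.ind _ h1 i)

theorem uniqM {x : M} {n : ℕ} {w : Fin n → M} (hw : Bas x n w) (r : M)
    (A B : Matrix (Fin n) (Fin n) ℂ[X])
    (hA : ∀ j, r * w j = ∑ i, aeval x (A i j) * w i)
    (hB : ∀ j, r * w j = ∑ i, aeval x (B i j) * w i) : A = B := by
  ext1 i j
  exact uniq hw (fun i => A i j) (fun i => B i j) ((hA j).symm.trans (hB j)) i

theorem exM {x : M} {n : ℕ} {w : Fin n → M} (hw : Bas x n w) (r : IntC x) :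
    ∃ A : Matrix (Fin n) (Fin n) ℂ[X], ∀ j, (r : M) * w j = ∑ i, aeval x (A i j) * w i := by
  have h : ∀ j, ∃ c : Fin n → ℂ[X], (r : M) * w j = ∑ i, aeval x (c i) * w i := fun j =>
    hw.span _ ((IntC x).mul_mem r.2 (hw.mem j))
  choose c hc using h
  exact ⟨fun i j => c j i, hc⟩

/-- The matrix of the multiplication by `r`. -/
noncomputable def mat {x : M} {n : ℕ} {w : Fin n → M} (hw : Bas x n w) (r : IntC x) :
    Matrix (Fin n) (Fin n) ℂ[X] := (exM hw r).choose

theorem mat_spec {x : M} {n : ℕ} {w : Fin n → M} (hw : Bas x n w) (r : IntC x) (j : Fin n) :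
    (r : M) * w j = ∑ i, aeval x (mat hw r i j) * w i := (exM hw r).choose_spec j

theorem mat_eq {x : M} {n : ℕ} {w : Fin n → M} (hw : Bas x n w) (r : IntC x)
    (A : Matrix (Fin n) (Fin n) ℂ[X])
    (hA : ∀ j, (r : M) * w j = ∑ i, aeval x (A i j) * w i) : mat hw r = A :=
  uniqM hw r _ _ (mat_spec hw r) hA

theorem mat_add {x : M} {n : ℕ} {w : Fin n → M} (hw : Bas x n w) (r s : IntC x) :
    mat hw (r + s) = mat hw r + mat hw s := by
  apply mat_eq
  intro j
  have h : ∀ i, aeval x ((mat hw r + mat hw s) i j) * w i =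
      aeval x (mat hw r i j) * w i + aeval x (mat hw s i j) * w i := by
    intro i
    rw [Matrix.add_apply, map_add, add_mul]
  rw [Finset.sum_congr rfl fun i _ => h i, Finset.sum_add_distrib, ← mat_spec, ← mat_spec,
    ← add_mul]
  rfl

theorem mat_mul {x : M} {n : ℕ} {w : Fin n → M} (hw : Bas x n w) (r s : IntC x) :
    mat hw (r * s) = mat hw r * mat hw s := by
  apply mat_eq
  intro j
  have h : ∀ i, aeval x ((mat hw r * mat hw s) i j) * w i =
      ∑ k, aeval x (mat hw s k j) * (aeval x (mat hw r i k) * w i) := by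
    intro i
    rw [Matrix.mul_apply, map_sum, Finset.sum_mul]
    refine Finset.sum_congr rfl fun k _ => ?_
    rw [map_mul]
    ring
  rw [Finset.sum_congr rfl fun i _ => h i, Finset.sum_comm]
  have h2 : ∀ k, ∑ i, aeval x (mat hw s k j) * (aeval x (mat hw r i k) * w i) =
      (r : M) * (aeval x (mat hw s k j) * w k) := by
    intro k
    rw [← Finset.mul_sum, ← mat_spec]
    ring
  rw [Finset.sum_congr rfl fun k _ => h2 k, ← Finset.mul_sum, ← mat_spec, ← mul_assoc]
  rfl

theorem mat_const {x : M} {n : ℕ} {w : Fin n → M} (hw : Bas x n w) (a : ℂ) :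
    mat hw (algebraMap ℂ (IntC x) a) = algebraMap ℂ (Matrix (Fin n) (Fin n) ℂ[X]) a := by
  apply mat_eq
  intro j
  rw [Finset.sum_eq_single j]
  · rw [Matrix.algebraMap_matrix_apply, if_pos rfl, ← Polynomial.C_eq_algebraMap, aeval_C]
    rfl
  · intro i _ hij
    rw [Matrix.algebraMap_matrix_apply, if_neg hij, map_zero, zero_mul]
  · intro h
    exact absurd (Finset.mem_univ j) h

/-- The reduction modulo `x - c`. -/
noncomputable def rho {x : M} {n : ℕ} {w : Fin n → M} (hw : Bas x n w) (c : ℂ) :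
    IntC x →ₐ[ℂ] Matrix (Fin n) (Fin n) ℂ :=
  (Polynomial.aeval c : ℂ[X] →ₐ[ℂ] ℂ).mapMatrix.comp
    { toFun := mat hw
      map_one' := by
        have h := mat_const hw 1
        rwa [map_one, map_one] at h
      map_mul' := mat_mul hw
      map_zero' := by
        have h := mat_const hw 0
        rwa [map_zero, map_zero] at h
      map_add' := mat_add hw
      commutes' := mat_const hw }

theorem rho_apply {x : M} {n : ℕ} {w : Fin n → M} (hw : Bas x n w) (c : ℂ) (r : IntC x)
    (i j : Fin n) : rho hw c r i j = (mat hw r i j).eval c := by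
  change (Polynomial.aeval c : ℂ[X] →ₐ[ℂ] ℂ) (mat hw r i j) = _
  rw [coe_aeval_eq_eval]

end RHO

open TRI RHO in
theorem p_RHO (h1 : stmt_FREE) (_h2 : stmt_TRI) : stmt_RHO := by
  intro M _ _ x hx c
  obtain ⟨w, hw⟩ := h1 M x hx
  obtain ⟨hx1, hx2⟩ := hx
  refine ⟨rho hw c, ?_, ?_⟩
  · intro r hr
    have h3 : ∀ i j, ∃ D : ℂ[X], mat hw r i j = (X - C c) * D := by
      intro i j
      have h4 : (mat hw r i j).eval c = 0 := by
        rw [← rho_apply, hr]
        rfl
      obtain ⟨D, hD⟩ := dvd_iff_isRoot.2 h4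
      exact ⟨D, hD⟩
    choose D hD using h3
    obtain ⟨e, he⟩ := hw.span 1 (IntC x).one_mem
    have hmem : ∀ j, ∑ i, aeval x (D i j) * w i ∈ IntC x := fun j =>
      (IntC x).sum_mem fun i _ => (IntC x).mul_mem (isIntegral_algebraMap
        (x := (⟨aeval x (D i j), aeval_mem x (D i j)⟩ : Px x))) (hw.mem i)
    refine ⟨⟨∑ j, aeval x (e j) * ∑ i, aeval x (D i j) * w i,
      (IntC x).sum_mem fun j _ => (IntC x).mul_mem (isIntegral_algebraMap
        (x := (⟨aeval x (e j), aeval_mem x (e j)⟩ : Px x))) (hmem j)⟩, ?_⟩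
    have h5 : ∀ j, (r : M) * w j = (x - algebraMap ℂ M c) * ∑ i, aeval x (D i j) * w i := by
      intro j
      rw [mat_spec hw r j, Finset.mul_sum]
      refine Finset.sum_congr rfl fun i _ => ?_
      rw [hD i j, map_mul, map_sub, aeval_X, aeval_C, mul_assoc]
    have h6 : (r : M) = ∑ j, aeval x (e j) * ((r : M) * w j) := by
      conv_lhs => rw [← mul_one (r : M), he, Finset.mul_sum]
      refine Finset.sum_congr rfl fun j _ => ?_
      ring
    rw [h6, Finset.mul_sum]
    refine Finset.sum_congr rfl fun j _ => ?_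
    rw [h5 j]
    ring
  · intro r
    refine ⟨∑ i, mat hw r i i, ?_, ?_⟩
    · have h0 : 0 < dg x := Module.finrank_pos
      have : Nonempty (Fin (dg x)) := ⟨⟨0, h0⟩⟩
      have hli := li hw
      have hcard : Fintype.card (Fin (dg x)) = Module.finrank (Fx x) M := Fintype.card_fin _
      set b := basisOfLinearIndependentOfCardEqFinrank hli hcard with hb
      have hbw : ⇑b = w := coe_basisOfLinearIndependentOfCardEqFinrank hli hcard
      have h3 : ∀ i j, (Algebra.leftMulMatrix b (r : M) i j : M) = aeval x (mat hw r i j) := by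
        intro i j
        rw [Algebra.leftMulMatrix_eq_repr_mul]
        have h4 : (r : M) * b j = ∑ i,
            (⟨aeval x (mat hw r i j), Px_le (aeval_mem x (mat hw r i j))⟩ : Fx x) • b i := by
          rw [hbw, mat_spec hw r j]
          rfl
        rw [h4, b.repr_sum_self]
      unfold tr
      rw [Algebra.trace_eq_matrix_trace b, map_sum, Matrix.trace]
      rw [AddSubmonoidClass.coe_finsetSum]
      exact Finset.sum_congr rfl fun i _ => h3 i i
    · rw [Matrix.trace, eval_finsetSum]
      exact Finset.sum_congr rfl fun i _ => rho_apply hw c r i i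

end Pool.MCL
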