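import Pool.Agent.Work.MP_f82ddf_cl.Interface

set_option autoImplicit false

open Polynomial Topology Filter Metric Set
open Pool.Agent.Work.MP_f82ddf_nt Pool.Agent.Work.MP_f82ddf_nt.DQ

namespace Pool.MCL.SEQ

/-- A meromorphic point of the cubic on the unit ball with parameter `α`. -/
structure Pt (a b : ℂ) (α : ℝ) (s w : ℂ → ℂ) : Prop where
  pos : 0 < α
  ms : ∀ z ∈ ball (0 : ℂ) 1, MeromorphicAt s z
  mw : ∀ z ∈ ball (0 : ℂ) 1, MeromorphicAt w z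
  eq : ∀ z₀ ∈ ball (0 : ℂ) 1, ∀ᶠ z in 𝓝[≠] z₀, w z ^ 2 = s z ^ 3 + a * s z + b
  ls : Tendsto (fun z => z ^ 2 * s z) (𝓝[≠] 0) (𝓝 ((α : ℂ) ^ 2)⁻¹)
  lw : Tendsto (fun z => z ^ 3 * w z) (𝓝[≠] 0) (𝓝 ((α : ℂ) ^ 3)⁻¹)

theorem base (a b : ℂ) : ∃ (r : ℝ) (s w : ℂ → ℂ), Pt a b r s w := by
  have hcont : Continuous fun t : ℂ => 1 + a * t ^ 4 + b * t ^ 6 := by fun_prop
  have hopen : IsOpen ((fun t : ℂ => 1 + a * t ^ 4 + b * t ^ 6) ⁻¹' Complex.slitPlane) :=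
    Complex.isOpen_slitPlane.preimage hcont
  have h0 : (0 : ℂ) ∈ (fun t : ℂ => 1 + a * t ^ 4 + b * t ^ 6) ⁻¹' Complex.slitPlane := by
    simp
  obtain ⟨r, hr, hball⟩ := Metric.isOpen_iff.1 hopen 0 h0
  have hrC : (r : ℂ) ≠ 0 := by exact_mod_cast hr.ne'
  set η : ℂ → ℂ := fun t => (1 + a * t ^ 4 + b * t ^ 6) ^ (((2 : ℕ) : ℂ)⁻¹) with hη
  have hηsq : ∀ t, η t ^ 2 = 1 + a * t ^ 4 + b * t ^ 6 := fun t =>
    Complex.cpow_nat_inv_pow _ (by norm_num)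
  have hηan : ∀ z ∈ ball (0 : ℂ) 1, AnalyticAt ℂ (fun z => η (r * z)) z := by
    intro z hz
    have h1 : AnalyticAt ℂ (fun z : ℂ => 1 + a * (r * z) ^ 4 + b * (r * z) ^ 6) z := by
      fun_prop
    refine AnalyticAt.cpow h1 analyticAt_const ?_
    have : (r : ℂ) * z ∈ ball (0 : ℂ) r := by
      rw [mem_ball_zero_iff] at hz ⊢
      rw [norm_mul, Complex.norm_real, Real.norm_of_nonneg hr.le]
      nlinarith
    exact hball this
  refine ⟨r, fun z => ((r * z) ^ 2)⁻¹, fun z => ((r * z) ^ 3)⁻¹ * η (r * z), hr, ?_, ?_, ?_,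
    ?_, ?_⟩
  · intro z _
    have : AnalyticAt ℂ (fun z : ℂ => ((r : ℂ) * z) ^ 2) z := by fun_prop
    exact this.meromorphicAt.inv
  · intro z hz
    have : AnalyticAt ℂ (fun z : ℂ => ((r : ℂ) * z) ^ 3) z := by fun_prop
    exact this.meromorphicAt.inv.mul (hηan z hz).meromorphicAt
  · intro z₀ _
    have hne : ∀ᶠ z in 𝓝[≠] z₀, z ≠ 0 := by
      by_cases h : z₀ = 0
      · rw [h]; exact eventually_mem_nhdsWithin
      · exact eventually_nhdsWithin_of_eventually_nhds (isOpen_ne.eventually_mem h)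
    filter_upwards [hne] with z hz
    have hrz : (r : ℂ) * z ≠ 0 := mul_ne_zero hrC hz
    rw [mul_pow, hηsq]
    field_simp
  · have : (fun z : ℂ => z ^ 2 * ((r * z) ^ 2)⁻¹) =ᶠ[𝓝[≠] 0] fun _ => ((r : ℂ) ^ 2)⁻¹ := by
      filter_upwards [self_mem_nhdsWithin] with z hz
      have hz' : z ≠ 0 := hz
      field_simp
    exact tendsto_const_nhds.congr' this.symm
  · have : (fun z : ℂ => z ^ 3 * (((r * z) ^ 3)⁻¹ * η (r * z))) =ᶠ[𝓝[≠] 0]
        fun z => ((r : ℂ) ^ 3)⁻¹ * η (r * z) := by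
      filter_upwards [self_mem_nhdsWithin] with z hz
      have hz' : z ≠ 0 := hz
      field_simp
    have h2 : Tendsto (fun z : ℂ => ((r : ℂ) ^ 3)⁻¹ * η (r * z)) (𝓝[≠] 0)
        (𝓝 (((r : ℂ) ^ 3)⁻¹ * η (r * 0))) := by
      refine Tendsto.mul tendsto_const_nhds ?_
      exact ((hηan 0 (by simp)).continuousAt.tendsto).mono_left nhdsWithin_le_nhds
    have h3 : η (r * 0) = 1 := by
      simp [hη]
    rw [h3, mul_one] at h2
    exact h2.congr' this.symm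

theorem step {a b : ℂ} {α : ℝ} {s w : ℂ → ℂ} (h : Pt a b α s w) :
    ∃ s' w' : ℂ → ℂ, Pt a b (2 * α) s' w' := by
  have hα : (α : ℂ) ≠ 0 := by exact_mod_cast h.pos.ne'
  have hw0 : ∀ᶠ z in 𝓝[≠] (0 : ℂ), w z ≠ 0 := by
    have := h.lw.eventually_ne (inv_ne_zero (pow_ne_zero 3 hα))
    filter_upwards [this] with z hz hw
    exact hz (by rw [hw, mul_zero])
  have hwne : ∀ z₀ ∈ ball (0 : ℂ) 1, ∀ᶠ z in 𝓝[≠] z₀, w z ≠ 0 := by
    intro z₀ hz₀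
    have hM : MeromorphicOn w (ball (0 : ℂ) 1) := fun z hz => h.mw z hz
    have h0 : meromorphicOrderAt w 0 ≠ ⊤ :=
      (meromorphicOrderAt_ne_top_iff_eventually_ne_zero (h.mw 0 (by simp))).2 hw0
    have := hM.meromorphicOrderAt_ne_top_of_isPreconnected (x := 0) (y := z₀)
      (convex_ball _ _).isPreconnected (by simp) hz₀ h0
    exact (meromorphicOrderAt_ne_top_iff_eventually_ne_zero (h.mw z₀ hz₀)).1 this
  set l : ℂ → ℂ := fun z => (3 * s z ^ 2 + a) / (2 * w z) with hl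
  set s' : ℂ → ℂ := fun z => l z ^ 2 - 2 * s z with hs'
  set w' : ℂ → ℂ := fun z => l z * (s z - s' z) - w z with hw'
  have ml : ∀ z ∈ ball (0 : ℂ) 1, MeromorphicAt l z := by
    intro z hz
    refine MeromorphicAt.div ?_ ?_
    · exact ((MeromorphicAt.const 3 z).mul ((h.ms z hz).pow 2)).add (MeromorphicAt.const a z)
    · exact (MeromorphicAt.const 2 z).mul (h.mw z hz)
  have ms' : ∀ z ∈ ball (0 : ℂ) 1, MeromorphicAt s' z := fun z hz =>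
    ((ml z hz).pow 2).sub ((MeromorphicAt.const 2 z).mul (h.ms z hz))
  have mw' : ∀ z ∈ ball (0 : ℂ) 1, MeromorphicAt w' z := fun z hz =>
    ((ml z hz).mul ((h.ms z hz).sub (ms' z hz))).sub (h.mw z hz)
  have tl : Tendsto (fun z => z * l z) (𝓝[≠] 0) (𝓝 (3 / (2 * (α : ℂ)))) := by
    have hz4 : Tendsto (fun z : ℂ => z ^ 4) (𝓝[≠] 0) (𝓝 0) := by
      have : Tendsto (fun z : ℂ => z ^ 4) (𝓝 0) (𝓝 ((0 : ℂ) ^ 4)) := (continuous_pow 4).tendsto 0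
      simp only [ne_eq, OfNat.ofNat_ne_zero, not_false_eq_true, zero_pow] at this
      exact this.mono_left nhdsWithin_le_nhds
    have h1 : Tendsto (fun z => (3 * (z ^ 2 * s z) ^ 2 + a * z ^ 4) / (2 * (z ^ 3 * w z)))
        (𝓝[≠] 0) (𝓝 ((3 * (((α : ℂ) ^ 2)⁻¹) ^ 2 + a * 0) / (2 * ((α : ℂ) ^ 3)⁻¹))) := by
      refine Tendsto.div ?_ ?_ ?_
      · exact ((h.ls.pow 2).const_mul 3).add (hz4.const_mul a)
      · exact h.lw.const_mul 2
      · exact mul_ne_zero two_ne_zero (inv_ne_zero (pow_ne_zero 3 hα))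
    have h2 : (3 * (((α : ℂ) ^ 2)⁻¹) ^ 2 + a * 0) / (2 * ((α : ℂ) ^ 3)⁻¹) = 3 / (2 * (α : ℂ)) := by
      field_simp
      ring
    rw [h2] at h1
    refine h1.congr' ?_
    filter_upwards [self_mem_nhdsWithin, hw0] with z hz hwz
    have hz' : z ≠ 0 := hz
    simp only [hl]
    field_simp
  have ts : Tendsto (fun z => z ^ 2 * s' z) (𝓝[≠] 0) (𝓝 ((((2 * α : ℝ)) : ℂ) ^ 2)⁻¹) := by
    have h1 := (tl.pow 2).sub (h.ls.const_mul 2)
    have h2 : (3 / (2 * (α : ℂ))) ^ 2 - 2 * ((α : ℂ) ^ 2)⁻¹ = ((((2 * α : ℝ)) : ℂ) ^ 2)⁻¹ := by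
      push_cast
      field_simp
      ring
    rw [h2] at h1
    refine h1.congr fun z => ?_
    simp only [hs']
    ring
  have tw : Tendsto (fun z => z ^ 3 * w' z) (𝓝[≠] 0) (𝓝 ((((2 * α : ℝ)) : ℂ) ^ 3)⁻¹) := by
    have h1 := (tl.mul (h.ls.sub ts)).sub h.lw
    have h2 : 3 / (2 * (α : ℂ)) * (((α : ℂ) ^ 2)⁻¹ - ((((2 * α : ℝ)) : ℂ) ^ 2)⁻¹)
        - ((α : ℂ) ^ 3)⁻¹ = ((((2 * α : ℝ)) : ℂ) ^ 3)⁻¹ := by
      push_cast
      field_simp
      ring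
    rw [h2] at h1
    refine h1.congr fun z => ?_
    simp only [hw']
    ring
  refine ⟨s', w', mul_pos two_pos h.pos, ms', mw', ?_, ts, tw⟩
  intro z₀ hz₀
  filter_upwards [h.eq z₀ hz₀, hwne z₀ hz₀] with z he hwz
  have e2 : 2 * w z * l z = 3 * s z ^ 2 + a := by
    simp only [hl]
    field_simp
  have e3 : s' z = l z ^ 2 - 2 * s z := rfl
  have e4 : w' z = l z * (s z - s' z) - w z := rfl
  rw [e4]
  have e5 : (l z * (s z - s' z) - w z) ^ 2 - (s' z ^ 3 + a * s' z + b)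
      = (w z ^ 2 - (s z ^ 3 + a * s z + b)) + (s' z - s z) * (2 * w z * l z - (3 * s z ^ 2 + a))
        - (s' z - s z) ^ 2 * (s' z - (l z ^ 2 - 2 * s z)) := by ring
  rw [he, e2, ← e3] at e5
  have : (l z * (s z - s' z) - w z) ^ 2 - (s' z ^ 3 + a * s' z + b) = 0 := by
    rw [e5]; ring
  exact sub_eq_zero.1 this

theorem all (a b : ℂ) : ∃ r : ℝ, 0 < r ∧ ∀ j : ℕ, ∃ s w : ℂ → ℂ, Pt a b (2 ^ j * r) s w := by
  obtain ⟨r, s, w, h⟩ := base a b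
  refine ⟨r, h.pos, fun j => ?_⟩
  induction j with
  | zero => exact ⟨s, w, by simpa using h⟩
  | succ j ih =>
    obtain ⟨s, w, h⟩ := ih
    obtain ⟨s', w', h'⟩ := step h
    refine ⟨s', w', ?_⟩
    have : (2 : ℝ) ^ (j + 1) * r = 2 * (2 ^ j * r) := by ring
    rw [this]
    exact h'

end Pool.MCL.SEQ

namespace Pool.MCL

theorem p_SEQ : stmt_SEQ := by
  intro a b N
  obtain ⟨r, hr, hall⟩ := SEQ.all a b
  obtain ⟨j, hj⟩ := pow_unbounded_of_one_lt ((N : ℝ) / r) (one_lt_two : (1 : ℝ) < 2)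
  obtain ⟨s, w, h⟩ := hall j
  refine ⟨s, w, 2 ^ j * r, ?_, fun z hz => ⟨h.ms z hz, h.mw z hz⟩, h.eq, h.ls, h.lw⟩
  rwa [div_lt_iff₀ hr] at hj

end Pool.MCL
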