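import Pool.Agent.Work.MP_f82ddf_cl.Interface

/-!
# Block SPR: descent from the complex numbers to the algebraic closure of `K`
-/

open Polynomial Topology Filter Metric Set
open Pool.Agent.Work.MP_f82ddf_nt Pool.Agent.Work.MP_f82ddf_nt.DQ
open scoped Differential

namespace Pool.MCL

namespace SPR

/-- A nontrivial algebra of finite type has a point over the algebraic closure. -/
theorem exists_point (K B : Type) [Field K] [CommRing B] [Nontrivial B] [Algebra K B]
    [Algebra.FiniteType K B] : Nonempty (B →ₐ[K] AlgebraicClosure K) := by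
  obtain ⟨m, hm⟩ := Ideal.exists_maximal B
  let : Field (B ⧸ m) := Ideal.Quotient.field m
  have hft : Algebra.FiniteType K (B ⧸ m) := inferInstance
  have hfin : Module.Finite K (B ⧸ m) := finite_of_finite_type_of_isJacobsonRing K (B ⧸ m)
  have halg : Algebra.IsAlgebraic K (B ⧸ m) := Algebra.IsAlgebraic.of_finite K (B ⧸ m)
  exact ⟨(IsAlgClosed.lift : (B ⧸ m) →ₐ[K] AlgebraicClosure K).comp (Ideal.Quotient.mkₐ K m)⟩

/-- Lifting a polynomial to a subalgebra which contains its coefficients. -/
theorem lift_poly {K : Type} [Field K] [Algebra K ℂ] (B : Subalgebra K ℂ) (P : ℂ[X])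
    (h : ∀ n, P.coeff n ∈ B) : ∃ Q : (B)[X], Q.map (algebraMap B ℂ) = P := by
  have h1 : P ∈ Polynomial.lifts (algebraMap B ℂ) := by
    rw [Polynomial.lifts_iff_coeff_lifts]
    intro n
    exact ⟨⟨P.coeff n, h n⟩, rfl⟩
  rw [Polynomial.mem_lifts] at h1
  exact h1

end SPR

theorem p_SPR : stmt_DIV → stmt_SPR := by
  intro hDIV K _ n S σ hC
  let : Algebra K ℂ := σ.toAlgebra
  have hσ : algebraMap K ℂ = σ := rfl
  obtain ⟨a, b, p, q, hV, i, j, s, w, s', w', h1, h2, hne⟩ := hC
  set δ : ℂ := cubicVal p q s w i * cubicVal p q s' w' j - cubicVal p q s w j * cubicVal p q s' w' i with hδ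
  have hδ0 : δ ≠ 0 := sub_ne_zero.mpr hne
  classical
  let T : Finset ℂ := {a, b, s, w, s', w', δ⁻¹} ∪
    (Finset.univ.biUnion fun i : Fin (n + 1) => (p i).coeffs ∪ (q i).coeffs)
  let B : Subalgebra K ℂ := Algebra.adjoin K (T : Set ℂ)
  have hTB : ∀ z ∈ T, z ∈ B := fun z hz => Algebra.subset_adjoin (Finset.mem_coe.mpr hz)
  have hsm : ∀ z ∈ ({a, b, s, w, s', w', δ⁻¹} : Finset ℂ), z ∈ B :=
    fun z hz => hTB z (Finset.mem_union_left _ hz)
  have hcoeff : ∀ (P : ℂ[X]), P.coeffs ⊆ T → ∀ m, P.coeff m ∈ B := by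
    intro P hP m
    by_cases h0 : P.coeff m = 0
    · rw [h0]
      exact B.zero_mem
    · exact hTB _ (hP (Polynomial.coeff_mem_coeffs h0))
  have hpT : ∀ k, (p k).coeffs ⊆ T := by
    intro k z hz
    refine Finset.mem_union_right _ (Finset.mem_biUnion.mpr ⟨k, Finset.mem_univ _, ?_⟩)
    exact Finset.mem_union_left _ hz
  have hqT : ∀ k, (q k).coeffs ⊆ T := by
    intro k z hz
    refine Finset.mem_union_right _ (Finset.mem_biUnion.mpr ⟨k, Finset.mem_univ _, ?_⟩)
    exact Finset.mem_union_right _ hz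
  choose pB hpB using fun k => SPR.lift_poly B (p k) (hcoeff _ (hpT k))
  choose qB hqB using fun k => SPR.lift_poly B (q k) (hcoeff _ (hqT k))
  have hft : Algebra.FiniteType K B := by
    rw [← Subalgebra.fg_iff_finiteType]
    exact Subalgebra.fg_adjoin_finset T
  obtain ⟨θ⟩ := SPR.exists_point K B
  -- the elements of B
  let aB : B := ⟨a, hsm a (by simp)⟩
  let bB : B := ⟨b, hsm b (by simp)⟩
  let sB : B := ⟨s, hsm s (by simp)⟩
  let wB : B := ⟨w, hsm w (by simp)⟩
  let sB' : B := ⟨s', hsm s' (by simp)⟩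
  let wB' : B := ⟨w', hsm w' (by simp)⟩
  let dB : B := ⟨δ⁻¹, hsm δ⁻¹ (by simp)⟩
  let ι : B →+* ℂ := algebraMap B ℂ
  have hι : Function.Injective ι := Subtype.val_injective
  let t : B →+* AlgebraicClosure K := θ.toRingHom
  have hιK : ι.comp (algebraMap K B) = σ := rfl
  have htK : t.comp (algebraMap K B) = algebraMap K (AlgebraicClosure K) := θ.comp_algebraMap
  let p' : Fin (n + 1) → (AlgebraicClosure K)[X] := fun k => (pB k).map t
  let q' : Fin (n + 1) → (AlgebraicClosure K)[X] := fun k => (qB k).map t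
  -- the value in B
  let vB : B → B → Fin (n + 1) → B := fun x y k => (pB k).eval x + (qB k).eval x * y
  have hvι : ∀ x y k, ι (vB x y k) = cubicVal p q (ι x) (ι y) k := by
    intro x y k
    simp only [vB, cubicVal, map_add, map_mul]
    rw [← hpB k, ← hqB k, Polynomial.eval_map, Polynomial.eval_map, Polynomial.eval₂_at_apply,
      Polynomial.eval₂_at_apply]
  have hvt : ∀ x y k, t (vB x y k) = cubicVal p' q' (t x) (t y) k := by
    intro x y k
    simp only [vB, cubicVal, map_add, map_mul, p', q']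
    rw [Polynomial.eval_map, Polynomial.eval_map, Polynomial.eval₂_at_apply,
      Polynomial.eval₂_at_apply]
  have hcub : ∀ x y : B, OnCubic a b (ι x) (ι y) → OnCubic (t aB) (t bB) (t x) (t y) := by
    intro x y h
    have h3 : y ^ 2 = x ^ 3 + aB * x + bB := by
      apply hι
      rw [map_pow, map_add, map_add, map_mul, map_pow]
      exact h
    have h4 := congrArg t h3
    rw [map_pow, map_add, map_add, map_mul, map_pow] at h4
    exact h4
  refine ⟨t aB, t bB, p', q', ?_, i, j, t sB, t wB, t sB', t wB', hcub sB wB h1, hcub sB' wB' h2, ?_⟩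
  · intro F hF x y hxy
    have h3 : mu a b ∣ sbt σ p q F := by
      refine hDIV ℂ a b _ (fun s w hsw => ?_)
      rw [ev_sbt_id]
      exact hV F hF s w hsw
    let H : (B)[X][X] := sbt (algebraMap K B) pB qB F
    have h4 : H.map (mapRingHom ι) = sbt σ p q F := by
      change (sbt (algebraMap K B) pB qB F).map (mapRingHom ι) = _
      rw [sbt_map, hιK]
      congr 1
      · funext k
        exact hpB k
      · funext k
        exact hqB k
    have h5 : H %ₘ mu aB bB = 0 := by
      apply Polynomial.map_injective (mapRingHom ι) (Polynomial.map_injective ι hι)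
      rw [Polynomial.map_modByMonic _ (mu_monic aB bB), Polynomial.map_zero, h4, mu_map]
      exact (Polynomial.modByMonic_eq_zero_iff_dvd (mu_monic _ _)).mpr h3
    obtain ⟨G, hG⟩ := (Polynomial.modByMonic_eq_zero_iff_dvd (mu_monic aB bB)).mp h5
    have h6 : sbt (algebraMap K (AlgebraicClosure K)) p' q' F =
        mu (t aB) (t bB) * G.map (mapRingHom t) := by
      rw [← mu_map, ← Polynomial.map_mul, ← hG]
      change _ = (sbt (algebraMap K B) pB qB F).map (mapRingHom t)
      rw [sbt_map, htK]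
    rw [← ev_sbt_id, h6, ev_mul, ev_mu]
    have h7 : y ^ 2 - (x ^ 3 + (RingHom.id _) (t aB) * x + (RingHom.id _) (t bB)) = 0 := by
      rw [sub_eq_zero]
      exact hxy
    rw [h7, zero_mul]
  · rw [← hvt, ← hvt, ← hvt, ← hvt, ← sub_ne_zero, ← map_mul, ← map_mul, ← map_sub]
    have h3 : (vB sB wB i * vB sB' wB' j - vB sB wB j * vB sB' wB' i) * dB = 1 := by
      apply hι
      rw [map_mul, map_sub, map_mul, map_mul, hvι, hvι, hvι, hvι, map_one]
      exact mul_inv_cancel₀ hδ0
    intro h4
    have h5 := congrArg t h3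
    rw [map_mul, h4, zero_mul, map_one] at h5
    exact zero_ne_one h5

end Pool.MCL
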