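import Pool.Agent.Work.MP_f82ddf_cl.Interface

/-!
# Block SUB (helper54): the field generated by the coordinates
-/

open Polynomial Topology Filter Metric Set
open Pool.Agent.Work.MP_f82ddf_nt Pool.Agent.Work.MP_f82ddf_nt.DQ
open scoped Differential

namespace Pool.MCL

namespace SUB

/-- a family of two elements is independent if the first is transcendental and the second is
transcendental over the field generated by the first -/
theorem indep_pair {M : Type} [Field M] [Algebra ℂ M] {y z : M} (hy : Transcendental ℂ y)
    (hz : Transcendental (Fx y) z) : AlgebraicIndependent ℂ ![y, z] := by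
  have htr : Transcendental (Algebra.adjoin ℂ {y}) z :=
    fun h => hz (IntermediateField.isAlgebraic_adjoin_iff.2 h)
  have h1 : AlgebraicIndependent ℂ (fun _ : Unit => y) :=
    algebraicIndependent_unique_type_iff.2 hy
  have hr : Set.range (fun _ : Unit => y) = {y} := Set.range_const
  have h2 : AlgebraicIndependent ℂ (fun o : Option Unit => o.elim z (fun _ => y)) := by
    rw [h1.option_iff_transcendental z, hr]
    exact htr
  have h3 := h2.comp (fun k : Fin 2 => if k = 0 then some () else none) (by
    intro a b hab
    fin_cases a <;> fin_cases b <;> simp_all)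
  have h4 : ![y, z] = (fun o : Option Unit => o.elim z (fun _ => y)) ∘
      (fun k : Fin 2 => if k = 0 then some () else none) := by
    funext k
    fin_cases k <;> rfl
  rw [h4]
  exact h3

end SUB

theorem p_SUB : stmt_SUB := by
  intro n x l hx hdep
  let M := IntermediateField.adjoin ℂ (Set.range x)
  let x' : Fin (n + 1) → M :=
    fun j => ⟨x j, IntermediateField.subset_adjoin _ _ ⟨j, rfl⟩⟩
  have hval : ∀ i j, ¬ AlgebraicIndependent ℂ ![x' i, x' j] := by
    intro i j h
    apply hdep i j
    have h1 := h.map' (f := M.val) M.val.injective
    have h2 : ![x i, x j] = M.val ∘ ![x' i, x' j] := by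
      funext k
      fin_cases k <;> rfl
    rw [h2]
    exact h1
  have htr : Transcendental ℂ (x' l) := by
    intro halg
    have h2 : IsIntegral ℂ (x' l) := IsAlgebraic.isIntegral halg
    obtain ⟨c, hc⟩ := minpoly.mem_range_of_degree_eq_one ℂ (x' l)
      (IsAlgClosed.degree_eq_one_of_irreducible ℂ (minpoly.irreducible h2))
    apply hx c
    have h3 := congrArg Subtype.val hc
    exact h3.symm
  refine ⟨x' l, htr, ?_⟩
  have halg : ∀ j, IsAlgebraic (Fx (x' l)) (x' j) := by
    intro j
    by_contra hcon
    exact hval l j (SUB.indep_pair htr hcon)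
  have htop0 : IntermediateField.adjoin ℂ (Set.range x') = ⊤ := by
    apply IntermediateField.map_injective M.val
    rw [IntermediateField.adjoin_map, ← AlgHom.fieldRange_eq_map, IntermediateField.fieldRange_val,
      ← Set.range_comp]
    rfl
  have htop : IntermediateField.adjoin (Fx (x' l)) (Set.range x') = ⊤ :=
    IntermediateField.adjoin_eq_top_of_adjoin_eq_top ℂ htop0
  have hfin : FiniteDimensional (Fx (x' l))
      (IntermediateField.adjoin (Fx (x' l)) (Set.range x')) := by
    apply IntermediateField.finiteDimensional_adjoin
    rintro z ⟨j, rfl⟩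
    exact (halg j).isIntegral
  rw [htop] at hfin
  exact IntermediateField.topEquiv.toLinearEquiv.finiteDimensional

end Pool.MCL
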