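import Pool.Agent.Work.MP_f82ddf_cl.Interface

/-!
# Block TRI: properties of the trace
-/

open Polynomial
open scoped IntermediateField.algebraAdjoinAdjoin

namespace Pool.MCL

namespace TRI

variable {M : Type} [Field M] [Algebra ℂ M]

theorem tr_congr {E E' : IntermediateField ℂ M} (h : E = E') (y : M) :
    (Algebra.trace E M y : M) = (Algebra.trace E' M y : M) := by
  subst h
  rfl

theorem Fx_inv_le (x : M) : Fx x⁻¹ ≤ Fx x := by
  unfold Fx
  rw [IntermediateField.adjoin_simple_le_iff]
  exact inv_mem (IntermediateField.mem_adjoin_simple_self ℂ x)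

theorem Fx_inv (x : M) : Fx x⁻¹ = Fx x := by
  apply le_antisymm (Fx_inv_le x)
  have h := Fx_inv_le x⁻¹
  rwa [inv_inv] at h

theorem aeval_mem (x : M) (P : ℂ[X]) : aeval x P ∈ Px x := by
  unfold Px
  rw [Algebra.adjoin_singleton_eq_range_aeval]
  exact ⟨P, rfl⟩

theorem mem_Px {x y : M} (h : y ∈ Px x) : ∃ P : ℂ[X], aeval x P = y := by
  unfold Px at h
  rw [Algebra.adjoin_singleton_eq_range_aeval] at h
  exact h

theorem Px_le {x y : M} (h : y ∈ Px x) : y ∈ Fx x :=
  IntermediateField.algebra_adjoin_le_adjoin ℂ {x} h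

theorem tr_mul {x a : M} (ha : a ∈ Fx x) (y : M) : tr x (a * y) = a * tr x y := by
  unfold tr
  have h : a * y = (⟨a, ha⟩ : Fx x) • y := rfl
  rw [h, map_smul]
  rfl

instance pir (x : M) : IsPrincipalIdealRing (Px x) := by
  unfold Px
  rw [Algebra.adjoin_singleton_eq_range_aeval]
  exact IsPrincipalIdealRing.of_surjective ((aeval x).rangeRestrict : ℂ[X] →ₐ[ℂ] _)
    (AlgHom.rangeRestrict_surjective _)

theorem aeval_inj {x : M} (hx : Transcendental ℂ x) {P : ℂ[X]} (h : aeval x P = 0) : P = 0 :=
  transcendental_iff.1 hx P h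

theorem li {x : M} {n : ℕ} {w : Fin n → M} (hw : Bas x n w) :
    LinearIndependent (Fx x) w := by
  have h : LinearIndependent (Px x) w := by
    rw [Fintype.linearIndependent_iff]
    intro g hg i
    choose c hc using fun i => mem_Px (g i).2
    have h1 : ∑ i, aeval x (c i) * w i = 0 := by
      rw [← hg]
      refine Finset.sum_congr rfl fun i _ => ?_
      rw [hc i]
      rfl
    have h2 := hw.ind c h1 i
    apply Subtype.ext
    rw [← hc i, h2, map_zero]
    rfl
  exact (LinearIndependent.iff_fractionRing (Px x) (Fx x)).1 h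

end TRI

open TRI in
theorem p_TRI : stmt_TRI := by
  intro M _ _ x hx
  obtain ⟨hx1, hx2⟩ := hx
  refine ⟨fun y => tr_congr (Fx_inv x) y, ?_, ?_, ?_, ?_, ?_⟩
  · intro y z
    unfold tr
    rw [map_add]
    rfl
  · intro P y
    exact tr_mul (Px_le (aeval_mem x P)) y
  · intro j y
    exact tr_mul (zpow_mem (IntermediateField.mem_adjoin_simple_self ℂ x) j) y
  · intro r hr
    have h1 : IsIntegral (Px x) (Algebra.trace (Fx x) M r) := Algebra.isIntegral_trace hr
    obtain ⟨a, ha⟩ := IsIntegrallyClosed.isIntegral_iff.1 h1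
    unfold tr
    rw [← ha]
    exact a.2
  · intro w hw
    have h0 : 0 < dg x := Module.finrank_pos
    have : Nonempty (Fin (dg x)) := ⟨⟨0, h0⟩⟩
    have hli := li hw
    have hcard : Fintype.card (Fin (dg x)) = Module.finrank (Fx x) M := Fintype.card_fin _
    set b := basisOfLinearIndependentOfCardEqFinrank hli hcard with hb
    have hbw : ⇑b = w := coe_basisOfLinearIndependentOfCardEqFinrank hli hcard
    refine ⟨fun i => b.traceDual i, ?_, ?_⟩
    · intro i j
      have h1 := b.trace_mul_traceDual i j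
      rw [hbw] at h1
      unfold tr
      rw [h1]
      split_ifs <;> rfl
    · intro c hc i
      have h1 := Fintype.linearIndependent_iff.1 b.traceDual.linearIndependent
        (fun i => (⟨aeval x (c i), Px_le (aeval_mem x (c i))⟩ : Fx x)) hc i
      exact aeval_inj hx1 (congrArg Subtype.val h1)

end Pool.MCL
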