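import Pool.Agent.Work.MP_f82ddf_cl.Interface

open Polynomial

namespace Pool.MCL

namespace WEI

variable {M : Type} [Field M] [Algebra ℂ M]

theorem sub_ne {t : M} (ht : Transcendental ℂ t) (α : ℂ) : t - algebraMap ℂ M α ≠ 0 := by
  intro h
  apply ht
  rw [sub_eq_zero.mp h]
  exact isAlgebraic_algebraMap α

/-- the cubic from a simple root -/
theorem simple (t Y : M) (Q₁ : ℂ[X]) (α : ℂ) (ht : Transcendental ℂ t) (hd : Q₁.natDegree ≤ 3)
    (hY : Y ^ 2 = (t - algebraMap ℂ M α) * aeval t Q₁) (hα : Q₁.eval α ≠ 0)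
    (htop : IntermediateField.adjoin ℂ {t, Y} = ⊤) : Cub M := by
  set A := algebraMap ℂ M with hA
  set u := t - A α with hu
  have hu0 : u ≠ 0 := sub_ne ht α
  set R := Q₁.comp (X + C α) with hR
  have hRd : R.natDegree < 4 := by
    rw [hR, natDegree_comp, natDegree_X_add_C, mul_one]
    omega
  have hRt : aeval t Q₁ = aeval u R := by
    rw [hR, aeval_comp]
    congr 1
    simp [hu, hA]
  have hR0 : R.coeff 0 ≠ 0 := by
    rw [coeff_zero_eq_eval_zero, hR, eval_comp]
    simpa using hα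
  rw [hRt, aeval_eq_sum_range' hRd] at hY
  simp only [Finset.sum_range_succ, Finset.sum_range_zero, zero_add, pow_zero, pow_one,
    Algebra.smul_def] at hY
  set q₀ := R.coeff 0 with hq₀
  set q₁ := R.coeff 1 with hq₁
  set q₂ := R.coeff 2 with hq₂
  set q₃ := R.coeff 3 with hq₃
  have hAq : A q₀ ≠ 0 := by
    intro h
    exact hR0 ((map_eq_zero A).mp h)
  have : CharZero M := charZero_of_injective_algebraMap (algebraMap ℂ M).injective
  set s : M := A q₀ / u + A (q₁ / 3) with hs
  set w : M := A q₀ * Y / u ^ 2 with hw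
  have hsu : s - A (q₁ / 3) = A q₀ / u := by rw [hs]; ring
  have hu2 : u = A q₀ / (s - A (q₁ / 3)) := by
    rw [hsu]
    field_simp
  refine ⟨q₀ * q₂ - q₁ ^ 2 / 3, 2 * q₁ ^ 3 / 27 - q₀ * q₁ * q₂ / 3 + q₀ ^ 2 * q₃, s, w, ?_, ?_, ?_⟩
  · unfold OnCubic
    have hwY : w ^ 2 = A q₀ ^ 2 * Y ^ 2 / u ^ 4 := by rw [hw]; ring
    rw [hwY, hY, hs]
    simp only [← hA, map_add, map_sub, map_mul, map_div₀, map_pow, map_ofNat]
    field_simp
    ring
  · intro halg
    apply ht
    have h1 : IsAlgebraic ℂ u := by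
      rw [hu2, div_eq_mul_inv]
      exact (isAlgebraic_algebraMap q₀).mul ((halg.sub (isAlgebraic_algebraMap _)).inv)
    have h2 : t = u + A α := by rw [hu]; ring
    rw [h2]
    exact h1.add (isAlgebraic_algebraMap α)
  · rw [eq_top_iff, ← htop, IntermediateField.adjoin_le_iff]
    have hsm : s ∈ IntermediateField.adjoin ℂ ({s, w} : Set M) :=
      IntermediateField.subset_adjoin _ _ (by simp)
    have hwm : w ∈ IntermediateField.adjoin ℂ ({s, w} : Set M) :=
      IntermediateField.subset_adjoin _ _ (by simp)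
    have hAm : ∀ c : ℂ, A c ∈ IntermediateField.adjoin ℂ ({s, w} : Set M) := fun c =>
      IntermediateField.algebraMap_mem _ c
    have hum : u ∈ IntermediateField.adjoin ℂ ({s, w} : Set M) := by
      rw [hu2]
      exact div_mem (hAm _) (sub_mem hsm (hAm _))
    have htm : t ∈ IntermediateField.adjoin ℂ ({s, w} : Set M) := by
      have h2 : t = u + A α := by rw [hu]; ring
      rw [h2]
      exact add_mem hum (hAm _)
    have hYm : Y ∈ IntermediateField.adjoin ℂ ({s, w} : Set M) := by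
      have h2 : Y = w * u ^ 2 / A q₀ := by
        rw [hw]
        field_simp
      rw [h2]
      exact div_mem (mul_mem hwm (pow_mem hum 2)) (hAm _)
    intro z hz
    rcases hz with rfl | hz
    · exact htm
    · rw [Set.mem_singleton_iff] at hz
      rw [hz]
      exact hYm

theorem main (t : M) (ht : Transcendental ℂ t) : ∀ (n : ℕ) (Y : M) (Q : ℂ[X]), Q.natDegree = n →
    Q.natDegree ≤ 4 → Y ^ 2 = aeval t Q → Y ∉ Fx t →
    IntermediateField.adjoin ℂ {t, Y} = ⊤ → Cub M := by
  intro n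
  induction n using Nat.strong_induction_on with
  | _ n ih =>
  intro Y Q hn hQ hY hYF htop
  have hAF : ∀ c : ℂ, algebraMap ℂ M c ∈ Fx t := fun c => IntermediateField.algebraMap_mem _ c
  have htF : t ∈ Fx t := IntermediateField.mem_adjoin_simple_self ℂ t
  have hdeg : Q.degree ≠ 0 := by
    intro h0
    obtain ⟨c, hc⟩ : ∃ c : ℂ, Q = C c := ⟨Q.coeff 0, eq_C_of_degree_le_zero (le_of_eq h0)⟩
    obtain ⟨d, hd⟩ := IsAlgClosed.exists_pow_nat_eq c (n := 2) (by norm_num)
    rw [hc, aeval_C, ← hd, map_pow] at hY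
    rcases sq_eq_sq_iff_eq_or_eq_neg.mp hY with h | h
    · exact hYF (h ▸ hAF d)
    · exact hYF (h ▸ neg_mem (hAF d))
  have hQ0 : Q ≠ 0 := by
    intro h
    rw [h, map_zero] at hY
    have : Y = 0 := by simpa using hY
    exact hYF (this ▸ zero_mem _)
  obtain ⟨α, hα⟩ := IsAlgClosed.exists_root Q hdeg
  obtain ⟨Q₁, hQ₁⟩ := dvd_iff_isRoot.mpr hα
  have hQ₁0 : Q₁ ≠ 0 := by
    intro h
    apply hQ0
    rw [hQ₁, h, mul_zero]
  have hd1 : Q.natDegree = 1 + Q₁.natDegree := by
    rw [hQ₁, natDegree_mul (X_sub_C_ne_zero α) hQ₁0, natDegree_X_sub_C]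
  have hY1 : Y ^ 2 = (t - algebraMap ℂ M α) * aeval t Q₁ := by
    rw [hY, hQ₁]
    simp
  by_cases hr : Q₁.eval α = 0
  · obtain ⟨Q₂, hQ₂⟩ := dvd_iff_isRoot.mpr hr
    have hQ₂0 : Q₂ ≠ 0 := by
      intro h
      apply hQ₁0
      rw [hQ₂, h, mul_zero]
    have hd2 : Q₁.natDegree = 1 + Q₂.natDegree := by
      rw [hQ₂, natDegree_mul (X_sub_C_ne_zero α) hQ₂0, natDegree_X_sub_C]
    have hu0 : t - algebraMap ℂ M α ≠ 0 := sub_ne ht α
    have hum : t - algebraMap ℂ M α ∈ Fx t := sub_mem htF (hAF α)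
    have hY2 : (Y / (t - algebraMap ℂ M α)) ^ 2 = aeval t Q₂ := by
      rw [div_pow, hY1, hQ₂]
      simp only [map_mul, map_sub, aeval_X, aeval_C]
      field_simp
    have hback : Y = Y / (t - algebraMap ℂ M α) * (t - algebraMap ℂ M α) := by
      field_simp
    refine ih Q₂.natDegree (by omega) (Y / (t - algebraMap ℂ M α)) Q₂ rfl (by omega) hY2 ?_ ?_
    · intro h
      apply hYF
      rw [hback]
      exact mul_mem h hum
    · rw [eq_top_iff, ← htop, IntermediateField.adjoin_le_iff]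
      have htm : t ∈ IntermediateField.adjoin ℂ ({t, Y / (t - algebraMap ℂ M α)} : Set M) :=
        IntermediateField.subset_adjoin _ _ (by simp)
      have hYm : Y / (t - algebraMap ℂ M α) ∈
          IntermediateField.adjoin ℂ ({t, Y / (t - algebraMap ℂ M α)} : Set M) :=
        IntermediateField.subset_adjoin _ _ (by simp)
      intro z hz
      rcases hz with rfl | hz
      · exact htm
      · rw [Set.mem_singleton_iff] at hz
        have h5 := mul_mem hYm (sub_mem htm (IntermediateField.algebraMap_mem _ α))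
        rw [← hback] at h5
        rw [hz]
        exact h5
  · exact simple t Y Q₁ α ht (by omega) hY1 hr htop

end WEI

theorem p_WEI : stmt_WEI := by
  intro M _ _ t Y Q ht hQ hY hYF htop
  exact WEI.main t ht Q.natDegree Y Q rfl hQ hY hYF htop

end Pool.MCL
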