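import Pool.Agent.Work.MP_f82ddf_cl.Interface
set_option autoImplicit false

/-! # MP_f82ddf_nt part P6, block ZER (helper87) -/

open Polynomial Topology Filter Metric Set
open Pool.Agent.Work.MP_f82ddf_nt Pool.Agent.Work.MP_f82ddf_nt.DQ
open scoped Differential

namespace Pool.MCL

namespace ZER

open scoped IntermediateField.algebraAdjoinAdjoin

variable {M : Type} [Field M] [Algebra ℂ M]

theorem mem_Px {x y : M} (h : y ∈ Px x) : ∃ P : ℂ[X], y = aeval x P := by
  unfold Px at h
  rw [Algebra.adjoin_singleton_eq_range_aeval] at h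
  obtain ⟨P, hP⟩ := h
  exact ⟨P, hP.symm⟩

theorem closed (x : M) (hx : Transcendental ℂ x) : IsIntegrallyClosed (Px x) := by
  have h1 : Function.Injective (aeval x : ℂ[X] →ₐ[ℂ] M) := transcendental_iff_injective.mp hx
  have e := (AlgEquiv.ofInjective (aeval x : ℂ[X] →ₐ[ℂ] M) h1).toRingEquiv
  rw [← Algebra.adjoin_singleton_eq_range_aeval] at e
  exact IsIntegrallyClosed.of_equiv e

theorem int_mem {x y : M} (hx : Transcendental ℂ x) (h1 : y ∈ IntC x) (h2 : y ∈ Fx x) :
    y ∈ Px x := by
  have := closed x hx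
  have h3 : IsIntegral (Px x) y := h1
  have h4 : IsIntegral (Px x) (⟨y, h2⟩ : Fx x) :=
    (isIntegral_algebraMap_iff (R := Px x) (A := Fx x) (B := M)
      (algebraMap (Fx x) M).injective).mp h3
  obtain ⟨z, hz⟩ := IsIntegrallyClosed.algebraMap_eq_of_integral h4
  have h5 : (z : M) = y := congrArg Subtype.val hz
  rw [← h5]
  exact z.2

end ZER

theorem p_ZER (hCON1 : stmt_CON1) (hCON2 : stmt_CON2) : stmt_ZER := by
  intro M _ _ x hx w d h
  obtain ⟨hc1, hc2, hc3, hc4, hc5, hc6, hc7⟩ := hCON1 M x hx.1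
  obtain ⟨hd1, hd2, hd3, hd4, hd5⟩ := hCON2 M x hx
  have h1 : (1 : M) ∈ L x 0 := by
    have := hc3 1 0 (by simp)
    rwa [map_one] at this
  obtain ⟨c, hc⟩ := h.span 1 h1.1
  have h2 : ∃ i, c i ≠ 0 := by
    by_contra hh
    push Not at hh
    apply one_ne_zero (α := M)
    rw [hc]
    apply Finset.sum_eq_zero
    intro i _
    rw [hh i, map_zero, zero_mul]
  obtain ⟨i₀, hi₀⟩ := h2
  have h3 : d i₀ = 0 := by
    have := h.red c 0 (by rw [← hc]; exact h1) i₀ hi₀
    omega
  have hcon : ∀ i, d i = 0 → ∃ a : ℂ, w i = algebraMap ℂ M a := by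
    intro i hi
    have h4 := h.deg i
    rw [hi] at h4
    refine hd2 (w i) h4.1 ?_
    have h5 := h4.2
    rwa [pow_zero, mul_one] at h5
  have hind : ∀ (i j : Fin (dg x)) (P : ℂ[X]), i ≠ j → w i = aeval x P * w j → False := by
    intro i j P hij hw
    have h6 := h.ind (fun l => if l = i then 1 else if l = j then -P else 0) (by
      have h7 : ∀ l, aeval x (if l = i then (1 : ℂ[X]) else if l = j then -P else 0) * w l =
          (if l = i then w i else 0) + (if l = j then - (aeval x P * w j) else 0) := by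
        intro l
        by_cases hl : l = i
        · subst hl
          rw [if_pos rfl, if_pos rfl, if_neg hij, map_one, one_mul, add_zero]
        · rw [if_neg hl, if_neg hl, zero_add]
          by_cases hl2 : l = j
          · subst hl2
            rw [if_pos rfl, if_pos rfl, map_neg, neg_mul]
          · rw [if_neg hl2, if_neg hl2, map_zero, zero_mul]
      rw [Finset.sum_congr rfl fun l _ => h7 l, Finset.sum_add_distrib, Finset.sum_ite_eq',
        Finset.sum_ite_eq', if_pos (Finset.mem_univ _), if_pos (Finset.mem_univ _), hw]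
      ring) i
    simp only [if_true] at h6
    exact one_ne_zero h6
  have hne : ∀ i, w i ≠ 0 := by
    intro i hi
    have h6 := h.ind (fun l => if l = i then 1 else 0) (by
      apply Finset.sum_eq_zero
      intro l _
      by_cases hl : l = i
      · rw [hl, hi, mul_zero]
      · simp only [if_neg hl, map_zero, zero_mul]) i
    simp only [if_true] at h6
    exact one_ne_zero h6
  obtain ⟨a, ha⟩ := hcon i₀ h3
  have ha0 : a ≠ 0 := by
    intro h0
    apply hne i₀
    rw [ha, h0, map_zero]
  have hfx : ∀ i, i ≠ i₀ → w i ∉ Fx x := by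
    intro i hi hmem
    obtain ⟨P, hP⟩ := ZER.mem_Px (ZER.int_mem hx.1 (h.mem i) hmem)
    refine hind i i₀ (P * C a⁻¹) hi ?_
    rw [map_mul, aeval_C, ha, mul_assoc, ← map_mul, inv_mul_cancel₀ ha0, map_one, mul_one]
    exact hP
  refine ⟨i₀, h3, ⟨a, ha0, ha⟩, fun i hi => ⟨?_, hfx i hi⟩⟩
  by_contra hlt
  have h0 : d i = 0 := by omega
  obtain ⟨b, hb⟩ := hcon i h0
  apply hfx i hi
  rw [hb]
  exact (Fx x).algebraMap_mem b

end Pool.MCL
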