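import Pool.Agent.Work.MP_f82ddf_cl.B_ALG
import Pool.Agent.Work.MP_f82ddf_cl.B_ANA
import Pool.Agent.Work.MP_f82ddf_cl.B_ARC
import Pool.Agent.Work.MP_f82ddf_cl.B_BRU
import Pool.Agent.Work.MP_f82ddf_cl.B_CLM
import Pool.Agent.Work.MP_f82ddf_cl.B_CMP
import Pool.Agent.Work.MP_f82ddf_cl.B_CON1
import Pool.Agent.Work.MP_f82ddf_cl.B_CON2
import Pool.Agent.Work.MP_f82ddf_cl.B_DAT
import Pool.Agent.Work.MP_f82ddf_cl.B_DBL
import Pool.Agent.Work.MP_f82ddf_cl.B_DG1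
import Pool.Agent.Work.MP_f82ddf_cl.B_DIV
import Pool.Agent.Work.MP_f82ddf_cl.B_DSC
import Pool.Agent.Work.MP_f82ddf_cl.B_DVR
import Pool.Agent.Work.MP_f82ddf_cl.B_ECU
import Pool.Agent.Work.MP_f82ddf_cl.B_FREE
import Pool.Agent.Work.MP_f82ddf_cl.B_IND
import Pool.Agent.Work.MP_f82ddf_cl.B_INF
import Pool.Agent.Work.MP_f82ddf_cl.B_NCO
import Pool.Agent.Work.MP_f82ddf_cl.B_NIL
import Pool.Agent.Work.MP_f82ddf_cl.B_ODD
import Pool.Agent.Work.MP_f82ddf_cl.B_OMG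
import Pool.Agent.Work.MP_f82ddf_cl.B_P6A
import Pool.Agent.Work.MP_f82ddf_cl.B_P6B
import Pool.Agent.Work.MP_f82ddf_cl.B_P6C
import Pool.Agent.Work.MP_f82ddf_cl.B_PEN
import Pool.Agent.Work.MP_f82ddf_cl.B_QUA
import Pool.Agent.Work.MP_f82ddf_cl.B_RED
import Pool.Agent.Work.MP_f82ddf_cl.B_RHO
import Pool.Agent.Work.MP_f82ddf_cl.B_SEQ
import Pool.Agent.Work.MP_f82ddf_cl.B_SPR
import Pool.Agent.Work.MP_f82ddf_cl.B_SUB
import Pool.Agent.Work.MP_f82ddf_cl.B_TAM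
import Pool.Agent.Work.MP_f82ddf_cl.B_TRI
import Pool.Agent.Work.MP_f82ddf_cl.B_WEI
import Pool.Agent.Work.MP_f82ddf_cl.B_ZER

/-!
# Entire curves of algebraic dimension one: assembly
-/

namespace Pool.MCL

theorem all_TRI : stmt_TRI := p_TRI
theorem all_CON1 : stmt_CON1 := p_CON1
theorem all_CON2 : stmt_CON2 := p_CON2
theorem all_FREE : stmt_FREE := p_FREE
theorem all_RED : stmt_RED := p_RED all_FREE all_CON1 all_CON2
theorem all_OMG : stmt_OMG := p_OMG all_TRI all_CON1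
theorem all_ZER : stmt_ZER := p_ZER all_CON1 all_CON2
theorem all_PEN : stmt_PEN := p_PEN all_CON1 all_CON2
theorem all_QUA : stmt_QUA := p_QUA all_CON1 all_CON2 all_ZER
theorem all_ALG : stmt_ALG := p_ALG all_RED all_OMG all_ZER all_PEN p_DG1 all_QUA p_WEI
theorem all_RHO : stmt_RHO := p_RHO all_FREE all_TRI
theorem all_TAM : stmt_TAM := p_TAM all_TRI all_RHO p_NIL p_DVR
theorem all_ANA : stmt_ANA := p_ANA all_TAM all_CON2
/-- Picard's theorem: function fields of meromorphic functions have genus at most one. -/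
theorem all_CLM : stmt_CLM := p_CLM all_ALG all_ANA
theorem all_IND : stmt_IND := p_IND p_ODD
theorem all_NCO : stmt_NCO := p_NCO p_ODD
theorem all_DAT : stmt_DAT := p_DAT p_DIV all_IND all_NCO
theorem all_SPR : stmt_SPR := p_SPR p_DIV
theorem all_P6A : stmt_P6A := p_P6A all_CLM p_SUB all_DAT all_SPR
theorem all_DBL : stmt_DBL := p_DBL p_ARC
theorem all_INF : stmt_INF := p_INF all_DBL p_ODD
theorem all_ECU : stmt_ECU := p_ECU p_BRU (p_DSC p_SEQ)
theorem all_CMP : stmt_CMP := p_CMP p_DIV all_IND all_ECU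
theorem all_P6B : stmt_P6B := p_P6B all_INF all_CMP
theorem all_P6C : stmt_P6C := p_P6C all_P6A all_P6B

end Pool.MCL
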