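import Pool.Agent.Work.MP_f82ddf_cl.Interface

namespace Pool.MCL

theorem p_ALG (h1 : stmt_RED) (h2 : stmt_OMG) (h3 : stmt_ZER) (h4 : stmt_PEN) (h5 : stmt_DG1)
    (h6 : stmt_QUA) (h7 : stmt_WEI) : stmt_ALG := by
  classical
  intro M _ _ hex
  obtain ⟨x, hx, hmin⟩ : ∃ x : M, FF x ∧ ∀ y : M, FF y → dg x ≤ dg y := by
    have h : ∃ m, ∃ x : M, FF x ∧ dg x = m := by
      obtain ⟨x, hx⟩ := hex
      exact ⟨_, x, hx, rfl⟩
    obtain ⟨x, hx, hxm⟩ := Nat.find_spec h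
    refine ⟨x, hx, fun y hy => ?_⟩
    rw [hxm]
    exact Nat.find_min' h ⟨y, hy, rfl⟩
  obtain ⟨w, d, hR⟩ := h1 M x hx
  by_cases hB : Big d
  · exact Or.inl ⟨x, hx, h2 M x hx w d hR hB⟩
  right
  have hpos : 0 < dg x := by
    have := hx.2
    exact Module.finrank_pos
  rcases Nat.lt_or_ge (dg x) 3 with h | h
  · have h8 : dg x = 1 ∨ dg x = 2 := by omega
    rcases h8 with h8 | h8
    · exact h5 M x hx h8
    · obtain ⟨Y, Q, hQ, hY, hY2, hY3⟩ := h6 M x hx h8 w d hR hB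
      exact h7 M x Y Q hx.1 hQ hY hY2 hY3
  · exfalso
    obtain ⟨i₀, hi₀, -, hi⟩ := h3 M x hx w d hR
    have h9 : ∃ i j : Fin (dg x), i ≠ j ∧ i ≠ i₀ ∧ j ≠ i₀ := by
      have hc : 1 < (Finset.univ.erase i₀).card := by
        rw [Finset.card_erase_of_mem (Finset.mem_univ _), Finset.card_univ, Fintype.card_fin]
        omega
      obtain ⟨i, hi1, j, hj1, hij⟩ := Finset.one_lt_card.1 hc
      exact ⟨i, j, hij, (Finset.mem_erase.1 hi1).1, (Finset.mem_erase.1 hj1).1⟩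
    obtain ⟨i, j, hij, hi1, hj1⟩ := h9
    have h10 : ∃ k, k ≠ i₀ ∧ d k ≤ 1 := by
      by_contra hcon
      push Not at hcon
      exact hB (Or.inr ⟨i, j, hij, hcon i hi1, hcon j hj1⟩)
    obtain ⟨k, hk, hk1⟩ := h10
    have h11 := hi k hk
    have h12 : d k = 1 := by omega
    have h13 : w k ∈ L x 1 := by
      have := hR.deg k
      rwa [h12] at this
    obtain ⟨t, ht, htx⟩ := h4 M x hx (w k) h13 h11.2
    exact absurd (hmin t ht) (by omega)

end Pool.MCL
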