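import Pool.Agent.Work.MP_f82ddf_cl.Interface

/-! Block DG1 of P6 (MP_f82ddf_cl): degree one. -/

open Polynomial Topology Filter Metric Set
open Pool.Agent.Work.MP_f82ddf_nt Pool.Agent.Work.MP_f82ddf_nt.DQ
open scoped Differential

namespace Pool.MCL

theorem p_DG1 : stmt_DG1 := by
  intro M _ _ t ht hd
  have htop : Fx t = ⊤ := IntermediateField.finrank_eq_one_iff_eq_top.1 hd
  have ht0 : t ≠ 0 := fun h => ht.1 (by rw [h]; exact isAlgebraic_zero)
  refine ⟨0, 0, t ^ 2, t ^ 3, ?_, ht.1.pow (by norm_num), ?_⟩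
  · unfold OnCubic
    rw [map_zero]
    ring
  · rw [eq_top_iff, ← htop]
    unfold Fx
    rw [IntermediateField.adjoin_simple_le_iff]
    have h1 : t ^ 2 ∈ IntermediateField.adjoin ℂ {t ^ 2, t ^ 3} :=
      IntermediateField.subset_adjoin _ _ (by simp)
    have h2 : t ^ 3 ∈ IntermediateField.adjoin ℂ {t ^ 2, t ^ 3} :=
      IntermediateField.subset_adjoin _ _ (by simp)
    have h3 : t = t ^ 3 / t ^ 2 := by
      field_simp
    have h4 := div_mem h2 h1
    rw [← h3] at h4
    exact h4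

end Pool.MCL
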