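import Pool.Agent.Work.MP_f82ddf_cl.Interface

/-! # Block OMG (helper58): two independent regular differentials from a reduced basis -/

open Polynomial Topology Filter Metric Set
open Pool.Agent.Work.MP_f82ddf_nt Pool.Agent.Work.MP_f82ddf_nt.DQ
open scoped Differential

namespace Pool.MCL

namespace OMG

variable {M : Type} [Field M] [Algebra ℂ M]

private theorem tr_sum (x : M) {ι : Type} (S : Finset ι) (f : ι → M) :
    tr x (∑ i ∈ S, f i) = ∑ i ∈ S, tr x (f i) := by
  unfold tr
  rw [map_sum]
  exact AddSubmonoidClass.coe_finsetSum _ _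

private theorem low (x : M) (hx : x ≠ 0) (c : ℂ[X]) (n : ℕ) (h : c.natDegree ≤ n) :
    x⁻¹ ^ n * aeval x c ∈ Px x⁻¹ := by
  have hx' : x⁻¹ ∈ Px x⁻¹ := Algebra.self_mem_adjoin_singleton ℂ x⁻¹
  rw [aeval_eq_sum_range' (Nat.lt_succ_of_le h), Finset.mul_sum]
  refine Subalgebra.sum_mem _ fun i hi => ?_
  have hi' : i ≤ n := Nat.lt_succ_iff.1 (Finset.mem_range.1 hi)
  have h1 : x⁻¹ ^ n * c.coeff i • x ^ i = c.coeff i • x⁻¹ ^ (n - i) := by
    rw [mul_smul_comm]
    congr 1
    obtain ⟨m, rfl⟩ := Nat.exists_eq_add_of_le hi'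
    rw [Nat.add_sub_cancel_left, pow_add, mul_comm (x⁻¹ ^ i), mul_assoc, ← mul_pow, inv_mul_cancel₀ hx,
      one_pow, mul_one]
  rw [h1]
  exact Subalgebra.smul_mem _ (Subalgebra.pow_mem _ hx' _) _

end OMG

open OMG in
theorem p_OMG (h1 : stmt_TRI) (h2 : stmt_CON1) : stmt_OMG := by
  intro M _ _ x hx w d hw hbig
  have hx0 : x ≠ 0 := by
    intro h
    apply hx.1
    rw [h]
    exact isAlgebraic_zero
  obtain ⟨t1, t2, t3, t4, t5, t6⟩ := h1 M x hx
  obtain ⟨-, c2, -⟩ := h2 M x hx.1
  obtain ⟨w', hw1, hw2⟩ := t6 w hw.toBas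
  -- the trace against the dual basis
  have key : ∀ (i : Fin (dg x)) (c : Fin (dg x) → ℂ[X]),
      tr x (w' i * ∑ l, aeval x (c l) * w l) = aeval x (c i) := by
    intro i c
    have e1 : w' i * ∑ l, aeval x (c l) * w l = ∑ l, aeval x (c l) * (w l * w' i) := by
      rw [Finset.mul_sum]
      refine Finset.sum_congr rfl fun l _ => ?_
      ring
    rw [e1, tr_sum]
    have e2 : ∀ l ∈ (Finset.univ : Finset (Fin (dg x))), tr x (aeval x (c l) * (w l * w' i)) =
        if l = i then aeval x (c l) else 0 := by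
      intro l _
      rw [t3, hw1]
      split_ifs with h
      · rw [mul_one]
      · rw [mul_zero]
    rw [Finset.sum_congr rfl e2, Finset.sum_ite_eq' Finset.univ i]
    rw [if_pos (Finset.mem_univ i)]
  have claim : ∀ (i : Fin (dg x)) (k : ℕ), k + 2 ≤ d i → x ^ k * w' i ∈ Om x := by
    intro i k hk
    constructor
    · intro r hr
      obtain ⟨c, hc⟩ := hw.span r hr
      have e1 : x ^ k * w' i * r = aeval x (X ^ k : ℂ[X]) * (w' i * ∑ l, aeval x (c l) * w l) := by
        rw [hc, map_pow, aeval_X, mul_assoc]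
      rw [e1, t3, key, ← map_mul]
      exact Polynomial.aeval_mem_adjoin_singleton ℂ x
    · intro r hr
      rw [t1]
      obtain ⟨j, hj⟩ := c2 r hr
      have hL : x ^ j * r ∈ L x j := by
        refine ⟨hj, ?_⟩
        have : x ^ j * r * x⁻¹ ^ j = r := by
          rw [mul_comm (x ^ j) r, mul_assoc, ← mul_pow, mul_inv_cancel₀ hx0, one_pow, mul_one]
        rw [this]
        exact hr
      obtain ⟨c, hc⟩ := hw.span _ hj
      have e1 : x ^ 2 * (x ^ k * w' i) * r =
          x ^ ((k : ℤ) + 2 - j) * (w' i * ∑ l, aeval x (c l) * w l) := by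
        rw [← hc, zpow_sub₀ hx0, zpow_natCast]
        have : x ^ ((k : ℤ) + 2) = x ^ (k + 2) := by
          rw [← zpow_natCast]
          push_cast
          rfl
        rw [this]
        have hxj : x ^ j ≠ 0 := pow_ne_zero _ hx0
        field_simp
        ring
      rw [e1, t4, key]
      by_cases hci : c i = 0
      · rw [hci, map_zero, mul_zero]
        exact Subalgebra.zero_mem _
      · have h3 := hw.red c j (by rw [← hc]; exact hL) i hci
        obtain ⟨n, hn⟩ := Nat.exists_eq_add_of_le (show k + 2 ≤ j by omega)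
        have e2 : x ^ ((k : ℤ) + 2 - j) = x⁻¹ ^ n := by
          have : (k : ℤ) + 2 - j = -(n : ℤ) := by
            rw [hn]
            push_cast
            ring
          rw [this, zpow_neg, zpow_natCast, inv_pow]
        rw [e2]
        exact low x hx0 (c i) n (by omega)
  rcases hbig with ⟨i, hi⟩ | ⟨i, j, hij, hi, hj⟩
  · refine ⟨x ^ 0 * w' i, claim i 0 (by omega), x ^ 1 * w' i, claim i 1 (by omega), ?_⟩
    intro a b hab
    have e3 := hw2 (fun l => if l = i then C a + C b * X else 0) (by
      rw [Finset.sum_eq_single i]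
      · rw [if_pos rfl, map_add, map_mul, aeval_C, aeval_C, aeval_X]
        rw [← hab, Algebra.smul_def, Algebra.smul_def]
        ring
      · intro l _ hl
        rw [if_neg hl, map_zero, zero_mul]
      · intro h
        exact absurd (Finset.mem_univ i) h) i
    rw [if_pos rfl] at e3
    have e4 := congrArg (fun p => coeff p 0) e3
    have e5 := congrArg (fun p => coeff p 1) e3
    simp only [coeff_add, coeff_C_zero, coeff_C_mul, coeff_X_zero, mul_zero, add_zero, coeff_zero] at e4
    simp only [coeff_add, coeff_C_mul, coeff_X_one, mul_one, coeff_zero, coeff_C_succ, zero_add] at e5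
    exact ⟨e4, e5⟩
  · refine ⟨x ^ 0 * w' i, claim i 0 (by omega), x ^ 0 * w' j, claim j 0 (by omega), ?_⟩
    intro a b hab
    have e3 := hw2 (fun l => (if l = i then C a else 0) + (if l = j then C b else 0)) (by
      have : ∀ l : Fin (dg x), aeval x ((if l = i then C a else 0) + (if l = j then C b else 0)) * w' l =
          (if l = i then algebraMap ℂ M a * w' l else 0) + (if l = j then algebraMap ℂ M b * w' l else 0) := by
        intro l
        rw [map_add, add_mul]
        congr 1
        · split_ifs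
          · rw [aeval_C]
          · rw [map_zero, zero_mul]
        · split_ifs
          · rw [aeval_C]
          · rw [map_zero, zero_mul]
      rw [Finset.sum_congr rfl fun l _ => this l, Finset.sum_add_distrib, Finset.sum_ite_eq' Finset.univ i,
        Finset.sum_ite_eq' Finset.univ j, if_pos (Finset.mem_univ i), if_pos (Finset.mem_univ j)]
      rw [← hab, Algebra.smul_def, Algebra.smul_def]
      ring)
    have e4 := e3 i
    have e5 := e3 j
    rw [if_pos rfl, if_neg hij, add_zero, C_eq_zero] at e4
    rw [if_pos rfl, if_neg hij.symm, zero_add, C_eq_zero] at e5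
    exact ⟨e4, e5⟩

end Pool.MCL
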