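import Pool.Agent.Work.MP_f82ddf_cl.Interface

/-!
# TAM: elements of the dual have mild poles
-/

set_option autoImplicit false

open Polynomial

namespace Pool.MCL

namespace TAM

variable {M : Type} [Field M] [Algebra ℂ M]

theorem mem_Px {x y : M} : y ∈ Px x ↔ ∃ P : ℂ[X], y = aeval x P := by
  rw [Px, Algebra.adjoin_singleton_eq_range_aeval]
  constructor
  · rintro ⟨P, hP⟩
    exact ⟨P, hP.symm⟩
  · rintro ⟨P, hP⟩
    exact ⟨P, hP.symm⟩

theorem aeval_mem (x : M) (P : ℂ[X]) : aeval x P ∈ IntC x := by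
  rw [mem_IntC]
  exact isIntegral_algebraMap (R := Px x) (A := M) (x := ⟨aeval x P, mem_Px.2 ⟨P, rfl⟩⟩)

/-- the monic relation of an integral element, with coefficients in `ℂ[X]` -/
theorem exists_monic {x r : M} (hr : r ∈ IntC x) :
    ∃ p : ℂ[X][X], p.Monic ∧ p.eval₂ (aeval x : ℂ[X] →ₐ[ℂ] M).toRingHom r = 0 := by
  obtain ⟨p, hp, hp0⟩ := mem_IntC.1 hr
  let ψ : ℂ[X] →+* Px x := ((aeval x : ℂ[X] →ₐ[ℂ] M).codRestrict (Px x)
    (fun P => mem_Px.2 ⟨P, rfl⟩)).toRingHom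
  have hψ : Function.Surjective ψ := by
    rintro ⟨y, hy⟩
    obtain ⟨P, rfl⟩ := mem_Px.1 hy
    exact ⟨P, rfl⟩
  obtain ⟨q, hq⟩ := Polynomial.map_surjective ψ hψ p
  obtain ⟨q', h1, -, h2⟩ := lifts_and_natDegree_eq_and_monic (f := ψ) (p := p) ⟨q, hq⟩ hp
  refine ⟨q', h2, ?_⟩
  rw [← h1, eval₂_map] at hp0
  exact hp0

/-- `y` and all its multiples have traces divisible by `x - c` -/
def T (x : M) (c : ℂ) (y : M) : Prop :=
  ∀ r ∈ IntC x, ∃ P : ℂ[X], tr x (y * r) = aeval x P ∧ P.eval c = 0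

theorem T_mul {x : M} {c : ℂ} {y z : M} (hy : T x c y) (hz : z ∈ IntC x) : T x c (z * y) := by
  intro r hr
  obtain ⟨P, hP⟩ := hy (z * r) (mul_mem hz hr)
  refine ⟨P, ?_⟩
  rw [← hP.1]
  refine ⟨?_, hP.2⟩
  congr 1
  ring

end TAM

open TAM in
theorem p_TAM (hTRI : stmt_TRI) (hRHO : stmt_RHO) (hNIL : stmt_NIL) (hDVR : stmt_DVR) :
    stmt_TAM := by
  intro M _ _ x hx b hb c
  obtain ⟨-, -, htr3, -⟩ := hTRI M x hx
  obtain ⟨ρ, hρ1, hρ2⟩ := hRHO M x hx c
  have hinj : Function.Injective (aeval x : ℂ[X] →ₐ[ℂ] M) :=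
    transcendental_iff_injective.1 hx.1
  set h : M := x - algebraMap ℂ M c with hh
  have hh' : h = aeval x (X - C c) := by rw [map_sub, aeval_X, aeval_C]
  have hh0 : h ≠ 0 := by
    rw [hh', ne_eq, ← map_zero (aeval x : ℂ[X] →ₐ[ℂ] M)]
    exact fun h1 => X_sub_C_ne_zero c (hinj h1)
  have hhR : h ∈ IntC x := by
    rw [hh']
    exact aeval_mem x _
  -- `y₀ = h b`
  have hy0 : T x c (h * b) := by
    intro r hr
    obtain ⟨Q, hQ⟩ := mem_Px.1 (hb r hr)
    refine ⟨(X - C c) * Q, ?_, by simp⟩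
    rw [mul_assoc, hh', htr3, hQ, map_mul]
  -- step (i)
  have hi : ∀ y ∈ IntC x, T x c y → ∃ N : ℕ, 1 ≤ N ∧ ∃ r' ∈ IntC x, y ^ N = h * r' := by
    intro y hy hT
    have h1 : ∀ k, 1 ≤ k → ((ρ ⟨y, hy⟩) ^ k).trace = 0 := by
      intro k hk
      obtain ⟨j, rfl⟩ : ∃ j, k = j + 1 := ⟨k - 1, by omega⟩
      obtain ⟨P, hP1, hP2⟩ := hT (y ^ j) (pow_mem hy j)
      obtain ⟨P', hP1', hP2'⟩ := hρ2 (⟨y, hy⟩ ^ (j + 1))
      have h2 : ((⟨y, hy⟩ ^ (j + 1) : IntC x) : M) = y * y ^ j := by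
        show y ^ (j + 1) = y * y ^ j
        rw [pow_succ']
      rw [h2, hP1] at hP1'
      rw [← map_pow, hP2', ← hinj hP1', hP2]
    obtain ⟨m, hm⟩ := hNIL _ _ h1
    obtain ⟨r', hr'⟩ := hρ1 (⟨y, hy⟩ ^ (m + 1)) (by rw [map_pow, pow_succ, hm, zero_mul])
    exact ⟨m + 1, by omega, r', r'.2, hr'⟩
  -- step (ii)
  let I : Ideal (IntC x) :=
    { carrier := {z | (z : M) * (h * b) ∈ IntC x}
      add_mem' := by
        intro z z' hz hz'
        show ((z : M) + (z' : M)) * (h * b) ∈ IntC x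
        rw [add_mul]
        exact add_mem hz hz'
      zero_mem' := by
        show ((0 : IntC x) : M) * (h * b) ∈ IntC x
        rw [ZeroMemClass.coe_zero, zero_mul]
        exact zero_mem _
      smul_mem' := by
        intro r z hz
        show ((r : M) * (z : M)) * (h * b) ∈ IntC x
        rw [mul_assoc]
        exact mul_mem r.2 hz }
  have hI : ∀ z : IntC x, z ∈ I ↔ (z : M) * (h * b) ∈ IntC x := fun z => Iff.rfl
  set H : IntC x := ⟨h, hhR⟩ with hH
  have htop : I ⊔ Ideal.span {H} = ⊤ := by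
    by_contra hne
    obtain ⟨P, hPm, hP⟩ := Ideal.exists_le_maximal _ hne
    have hHP : H ∈ P := hP (Ideal.mem_sup_right (Ideal.mem_span_singleton_self H))
    have hP0 : P ≠ ⊥ := by
      intro h0
      rw [h0, Ideal.mem_bot] at hHP
      exact hh0 (congrArg Subtype.val hHP)
    rcases hDVR M x hx P hPm hP0 (h * b) with ⟨z, hz, u, hu, hzu⟩ | ⟨z, u, hu, hzu⟩
    · apply hz
      apply hP
      apply Ideal.mem_sup_left
      rw [hI, hzu]
      exact u.2
    · have hT : T x c (u : M) := by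
        rw [← hzu]
        exact T_mul hy0 z.2
      obtain ⟨N, hN, r', hr', h1⟩ := hi u u.2 hT
      have h2 : u ^ N = H * ⟨r', hr'⟩ := Subtype.ext h1
      have h3 : u ^ N ∈ P := by
        rw [h2]
        exact P.mul_mem_right _ hHP
      exact hu (hPm.isPrime.mem_of_pow_mem N h3)
  -- step (iii)
  have h1 : (1 : IntC x) ∈ I ⊔ Ideal.span {H} := by
    rw [htop]
    exact Submodule.mem_top
  obtain ⟨z, hz, w, hw, hzw⟩ := Submodule.mem_sup.1 h1
  obtain ⟨r, rfl⟩ := Ideal.mem_span_singleton'.1 hw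
  obtain ⟨p, hp, hp0⟩ := exists_monic r.2
  let θ : ℂ[X] →+* IntC x := ((aeval x : ℂ[X] →ₐ[ℂ] M).codRestrict (IntC x)
    (fun P => aeval_mem x P)).toRingHom
  have hθ : ∀ P, ((θ P : IntC x) : M) = aeval x P := fun P => rfl
  have hθH : θ (X - C c) = H := Subtype.ext hh'.symm
  have hp1 : p.eval₂ θ r = 0 := by
    apply Subtype.ext
    have h2 : ((p.eval₂ θ r : IntC x) : M) = (IntC x).val.toRingHom (p.eval₂ θ r) := rfl
    rw [h2, hom_eval₂]
    exact hp0
  have hq : (scaleRoots p (X - C c)).eval₂ θ (H * r) = 0 := by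
    rw [← hθH]
    exact scaleRoots_eval₂_eq_zero θ hp1
  set s' : ℂ[X] := (scaleRoots p (X - C c)).eval 1 with hs'
  have hs'c : s'.eval c = 1 := by
    have h2 : s'.eval c = (evalRingHom c) s' := rfl
    rw [h2, hs', eval, hom_eval₂, RingHom.comp_id, map_one, ← eval_map, map_scaleRoots,
      coe_evalRingHom, eval_sub, eval_X, eval_C, sub_self, scaleRoots_zero]
    · rw [(hp.map _).leadingCoeff]
      simp
    · rw [hp.leadingCoeff, map_one]
      exact one_ne_zero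
  have hsI : θ s' ∈ I := by
    have h2 : θ s' = ((scaleRoots p (X - C c)).map θ).eval 1 := by
      rw [eval_map, hs', eval, hom_eval₂, RingHom.comp_id, map_one]
    have h3 : ((scaleRoots p (X - C c)).map θ).eval (H * r) = 0 := by rw [eval_map, hq]
    have h4 := sub_dvd_eval_sub (1 : IntC x) (H * r) ((scaleRoots p (X - C c)).map θ)
    rw [h3, sub_zero, ← h2] at h4
    have h5 : (1 : IntC x) - H * r = z := by
      rw [← hzw, mul_comm r H, add_sub_cancel_right]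
    rw [h5] at h4
    exact Ideal.mem_of_dvd _ h4 hz
  -- step (iv)
  have h6 : aeval x s' * (h * b) ∈ IntC x := hsI
  obtain ⟨N, hN, r', hr', h7⟩ := hi _ h6 (T_mul hy0 (aeval_mem x s'))
  obtain ⟨j, rfl⟩ : ∃ j, N = j + 1 := ⟨N - 1, by omega⟩
  refine ⟨j + 1, s' ^ (j + 1), hN, ?_, ?_⟩
  · rw [eval_pow, hs'c, one_pow]
    exact one_ne_zero
  · have h8 : aeval x (s' ^ (j + 1)) * b ^ (j + 1) * h ^ j = r' := by
      apply mul_left_cancel₀ hh0
      rw [← h7, map_pow]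
      generalize (aeval x) s' = σ
      ring
    show aeval x (s' ^ (j + 1)) * b ^ (j + 1) * h ^ (j + 1 - 1) ∈ IntC x
    rw [Nat.add_sub_cancel, h8]
    exact hr'

end Pool.MCL
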