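import Pool.Agent.Work.MP_f82ddf_cl.Defs

/-!
# Evaluation of polynomials in two variables
-/

open Polynomial

namespace Pool.MCL

section

variable {k R : Type*} [CommRing k] [CommRing R] (φ : k →+* R) (s w : R)

theorem ev_add (H G : k[X][X]) : ev φ s w (H + G) = ev φ s w H + ev φ s w G :=
  eval₂_add _ _

theorem ev_sub (H G : k[X][X]) : ev φ s w (H - G) = ev φ s w H - ev φ s w G :=
  eval₂_sub _

theorem ev_mul (H G : k[X][X]) : ev φ s w (H * G) = ev φ s w H * ev φ s w G :=
  eval₂_mul _ _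

theorem ev_C (P : k[X]) : ev φ s w (C P) = P.eval₂ φ s := by
  unfold ev
  rw [eval₂_C]
  rfl

theorem ev_X : ev φ s w (X : k[X][X]) = w := eval₂_X _ _

theorem ev_mu (a b : k) : ev φ s w (mu a b) = w ^ 2 - (s ^ 3 + φ a * s + φ b) := by
  unfold mu
  rw [ev_sub, ev_C]
  congr 1
  · unfold ev
    rw [eval₂_pow, eval₂_X]
  · rw [eval₂_add, eval₂_add, eval₂_pow, eval₂_mul, eval₂_X, eval₂_C, eval₂_C]

/-- Evaluation of `sbt`. -/
theorem ev_sbt {K : Type*} [CommRing K] {n : ℕ} (σ : K →+* k) (p q : Fin (n + 1) → k[X])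
    (F : MvPolynomial (Fin (n + 1)) K) :
    ev φ s w (sbt σ p q F) = MvPolynomial.eval₂ (φ.comp σ)
      (fun i => (p i).eval₂ φ s + (q i).eval₂ φ s * w) F := by
  unfold sbt ev
  rw [← coe_eval₂RingHom (eval₂RingHom φ s) w, MvPolynomial.hom_eval₂]
  congr 1
  · ext c
    simp
  · funext i
    simp

/-- Evaluation of `sbt` in the field of coefficients. -/
theorem ev_sbt_id {K : Type*} [Field K] {k : Type*} [Field k] {n : ℕ} (σ : K →+* k)
    (p q : Fin (n + 1) → k[X]) (s w : k) (F : MvPolynomial (Fin (n + 1)) K) :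
    ev (RingHom.id k) s w (sbt σ p q F) = MvPolynomial.eval₂ σ (cubicVal p q s w) F := by
  rw [ev_sbt]
  rfl

end

/-- Change of coefficients. -/
theorem ev_map {k k' R : Type*} [CommRing k] [CommRing k'] [CommRing R] (θ : k →+* k')
    (φ : k' →+* R) (s w : R) (H : k[X][X]) :
    ev φ s w (H.map (mapRingHom θ)) = ev (φ.comp θ) s w H := by
  unfold ev
  rw [eval₂_map]
  congr 1
  ext c
  · simp
  · simp

theorem mu_map {k k' : Type*} [CommRing k] [CommRing k'] (θ : k →+* k') (a b : k) :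
    (mu a b).map (mapRingHom θ) = mu (θ a) (θ b) := by
  unfold mu
  simp

theorem sbt_map {K k k' : Type*} [CommRing K] [CommRing k] [CommRing k'] {n : ℕ} (σ : K →+* k)
    (θ : k →+* k') (p q : Fin (n + 1) → k[X]) (F : MvPolynomial (Fin (n + 1)) K) :
    (sbt σ p q F).map (mapRingHom θ) =
      sbt (θ.comp σ) (fun i => (p i).map θ) (fun i => (q i).map θ) F := by
  unfold sbt
  rw [← coe_mapRingHom, MvPolynomial.hom_eval₂]
  congr 1
  · ext c
    simp
  · funext i
    simp

theorem mu_monic {k : Type*} [CommRing k] [Nontrivial k] (a b : k) : (mu a b).Monic := by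
  unfold mu
  exact monic_X_pow_sub_C _ (by norm_num)

end Pool.MCL
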